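import Pool.Agent.H52.TT.JdA
import Pool.Agent.H52.BC.MdI

/-!
Row KmA.  The KMS condition.  `A = cal R (pw 0 ½) = R^{1/2}`, `B = cal R (pw ½ 0) = (2 - R)^{1/2}`, `A A = R`, `B B = 2 - R`, `A B = B A = T`, self-adjoint.

* `exists_eta`: for `x ∈ M` there is `η` with `A η = x ζ`, `B η = J (x* ζ)`.  `B B x ζ = (2 - R) x ζ = D (x* ζ) = T J x* ζ = B (A J x* ζ)` (`memM`, `TJ`) and `B` is injective, so `B x ζ = A J x* ζ`.
  Put `η = (A x ζ + B J x* ζ)/2`: `A η = (R x ζ + T J x* ζ)/2 = (R x ζ + (2 - R) x ζ)/2 = x ζ`; `B η = (A (B x ζ) + (2 - R) J x* ζ)/2 = (A A J x* ζ + (2-R) J x* ζ)/2 = J x* ζ`.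
* `kms_UT`: `F z = ⟪η', W z η⟫`, `η' = η_{star x}`, `η = η_y`, `W z = cal R (pw (-i z) (1 + i z))` (`0 ≤ Im z ≤ 1`: real parts `Im z`, `1 - Im z`).  Continuous, bounded, differentiable inside: `cal_pw_cont`, `cal_pw_diff`.
  `F t = ⟪A η', U(-t) A η⟫ = ⟪x* ζ, U(-t) y ζ⟫ = ⟪ζ, x U(-t) y ζ⟫ = ⟪ζ, U t x U (-t) y ζ⟫` (`star (U t) ζ = ζ`).
  `F (t + i) = ⟪B η', U(-t) B η⟫` (`-i (t + i) = 1 - i t`, `1 + i (t + i) = i t`) `= ⟪J x ζ, U(-t) J y* ζ⟫ = ⟪J x ζ, J U(-t) y* ζ⟫ = ⟪U(-t) y* ζ, x ζ⟫` (`inner_J`, `JData.UT`) `= ⟪y* ζ, U t x ζ⟫ = ⟪ζ, y U t x U(-t) ζ⟫`.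
-/

open MeasureTheory Filter Topology H52BC

noncomputable section

namespace H52TT

variable {H : Type*} [NormedAddCommGroup H] [InnerProductSpace ℂ H] [CompleteSpace H]
variable {M : VonNeumannAlgebra H} {ζ : H} {R : H →L[ℂ] H} {D : H →L⋆[ℂ] H} {J : H ≃ₗᵢ⋆[ℂ] H}

theorem kma_A_mul (h : RR R) :
    cal R (pw 0 (1 / 2)) * cal R (pw 0 (1 / 2)) = R := by
  rw [cal_pw_mul h (by simp) (by norm_num) (by simp) (by norm_num)]
  have h1 : (0 : ℂ) + 0 = 0 := by ring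
  have h2 : (1 / 2 : ℂ) + 1 / 2 = 1 := by ring
  rw [h1, h2, cal_pw_R h]

theorem kma_B_mul (h : RR R) :
    cal R (pw (1 / 2) 0) * cal R (pw (1 / 2) 0) = (2 : ℂ) • 1 - R := by
  rw [cal_pw_mul h (by norm_num) (by simp) (by norm_num) (by simp)]
  have h1 : (0 : ℂ) + 0 = 0 := by ring
  have h2 : (1 / 2 : ℂ) + 1 / 2 = 1 := by ring
  rw [h1, h2, cal_pw_R' h]

theorem kma_AB (h : RR R) :
    cal R (pw 0 (1 / 2)) * cal R (pw (1 / 2) 0) = cal R (pw (1 / 2) (1 / 2)) := by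
  rw [cal_pw_mul h (by simp) (by norm_num) (by norm_num) (by simp)]
  have h1 : (0 : ℂ) + 1 / 2 = 1 / 2 := by ring
  have h2 : (1 / 2 : ℂ) + 0 = 1 / 2 := by ring
  rw [h1, h2]

theorem kma_BA (h : RR R) :
    cal R (pw (1 / 2) 0) * cal R (pw 0 (1 / 2)) = cal R (pw (1 / 2) (1 / 2)) := by
  rw [cal_pw_mul h (by norm_num) (by simp) (by simp) (by norm_num)]
  have h1 : (0 : ℂ) + 1 / 2 = 1 / 2 := by ring
  have h2 : (1 / 2 : ℂ) + 0 = 1 / 2 := by ring
  rw [h1, h2]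

theorem kma_B_inj (h : RR R) (ξ : H) (hξ : cal R (pw (1 / 2) 0) ξ = 0) : ξ = 0 := by
  apply h.inj'
  have h1 := congrArg (fun X : H →L[ℂ] H => X ξ) (kma_B_mul h)
  simp only [ContinuousLinearMap.mul_apply, ContinuousLinearMap.sub_apply,
    ContinuousLinearMap.smul_apply, ContinuousLinearMap.one_apply, hξ, map_zero] at h1
  exact (sub_eq_zero.1 h1.symm).symm

theorem kma_A_star (h : RR R) : star (cal R (pw 0 (1 / 2))) = cal R (pw 0 (1 / 2)) := by
  rw [cal_pw_star h (by simp) (by norm_num)]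
  congr 2
  · simp
  · simp [map_ofNat]

theorem kma_B_star (h : RR R) : star (cal R (pw (1 / 2) 0)) = cal R (pw (1 / 2) 0) := by
  rw [cal_pw_star h (by norm_num) (by simp)]
  congr 2
  · simp [map_ofNat]
  · simp

theorem kma_adj (a : H →L[ℂ] H) (ξ η : H) : inner ℂ (star a ξ) η = inner ℂ ξ (a η) := by
  rw [ContinuousLinearMap.star_eq_adjoint, ContinuousLinearMap.adjoint_inner_left]

theorem kma_fix (hR : RR R) (t : ℝ) (hz : R ζ = ζ) : UT R t ζ = ζ := UT_fix hR t ζ hz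

theorem exists_eta (h : RvD M ζ R D) (hJ : JData R D J) (x : H →L[ℂ] H) (hx : x ∈ M) :
    ∃ η : H, cal R (pw 0 (1 / 2)) η = x ζ ∧ cal R (pw (1 / 2) 0) η = J (star x ζ) := by
  have hR : RR R := h.toRR
  obtain ⟨A, hA⟩ : ∃ A, A = cal R (pw 0 (1 / 2)) := ⟨_, rfl⟩
  obtain ⟨B, hB⟩ : ∃ B, B = cal R (pw (1 / 2) 0) := ⟨_, rfl⟩
  have eAA : ∀ ξ, A (A ξ) = R ξ := fun ξ => by
    have := congrArg (fun X : H →L[ℂ] H => X ξ) (kma_A_mul hR)
    rw [← hA] at this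
    exact this
  have eBB : ∀ ξ, B (B ξ) = (2 : ℂ) • ξ - R ξ := fun ξ => by
    have := congrArg (fun X : H →L[ℂ] H => X ξ) (kma_B_mul hR)
    rw [← hB] at this
    exact this
  have eAB : ∀ ξ, A (B ξ) = cal R (pw (1 / 2) (1 / 2)) ξ := fun ξ => by
    have := congrArg (fun X : H →L[ℂ] H => X ξ) (kma_AB hR)
    rw [← hA, ← hB] at this
    exact this
  have eBA : ∀ ξ, B (A ξ) = cal R (pw (1 / 2) (1 / 2)) ξ := fun ξ => by
    have := congrArg (fun X : H →L[ℂ] H => X ξ) (kma_BA hR)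
    rw [← hA, ← hB] at this
    exact this
  rw [← hA, ← hB]
  have hm := h.memM x hx
  have key : B (x ζ) = A (J (star x ζ)) := by
    have h1 : B (B (x ζ) - A (J (star x ζ))) = 0 := by
      rw [map_sub, eBB, eBA, hJ.TJ, hm, sub_self]
    rw [hB] at h1
    have h2 := kma_B_inj hR _ h1
    rw [← hB] at h2
    exact sub_eq_zero.1 h2
  refine ⟨(1 / 2 : ℂ) • (A (x ζ) + B (J (star x ζ))), ?_, ?_⟩
  · rw [map_smul, map_add, eAA, eAB, hJ.TJ, ← hm, add_sub_cancel, smul_smul]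
    norm_num
  · rw [map_smul, map_add, eBB, eBA, ← eAB, key, eAA, add_sub_cancel, smul_smul]
    norm_num

theorem kms_UT (h : RvD M ζ R D) (hJ : JData R D J) (x y : H →L[ℂ] H) (hx : x ∈ M) (hy : y ∈ M) :
    ∃ F : ℂ → ℂ,
    ContinuousOn F {z : ℂ | 0 ≤ z.im ∧ z.im ≤ 1} ∧
    DifferentiableOn ℂ F {z : ℂ | 0 < z.im ∧ z.im < 1} ∧
    (∃ C : ℝ, ∀ z : ℂ, 0 ≤ z.im → z.im ≤ 1 → ‖F z‖ ≤ C) ∧
    (∀ t : ℝ, F t = vst ζ (UT R t * x * UT R (-t) * y)) ∧
    (∀ t : ℝ, F (t + Complex.I) = vst ζ (y * (UT R t * x * UT R (-t)))) := by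
  have hR : RR R := h.toRR
  obtain ⟨η', hη1, hη2⟩ := exists_eta h hJ (star x) (star_mem hx)
  obtain ⟨η, hη3, hη4⟩ := exists_eta h hJ y hy
  rw [star_star] at hη2
  have hz := h.zeta.1
  have hI : ∀ z : ℂ, (-(Complex.I * z)).re = z.im := fun z => by simp
  have hI' : ∀ z : ℂ, (1 + Complex.I * z).re = 1 - z.im := fun z => by
    simp [sub_eq_add_neg]
  have hbd : ∀ z : ℂ, 0 ≤ z.im → z.im ≤ 1 → 0 ≤ (-(Complex.I * z)).re ∧
      0 ≤ (1 + Complex.I * z).re ∧ (-(Complex.I * z)).re + (1 + Complex.I * z).re ≤ 1 := by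
    intro z h0 h1
    rw [hI, hI']
    refine ⟨h0, by linarith, by linarith⟩
  refine ⟨fun z => innerSL ℂ η' (cal R (pw (-(Complex.I * z)) (1 + Complex.I * z)) η),
    ?_, ?_, ?_, ?_, ?_⟩
  · refine (innerSL ℂ η').continuous.comp_continuousOn ?_
    refine cal_pw_cont hR _ (fun z => -(Complex.I * z)) (fun z => 1 + Complex.I * z)
      (by fun_prop) (by fun_prop) 1 ?_ η
    intro z hz
    exact hbd z hz.1 hz.2
  · have ho : IsOpen {z : ℂ | 0 < z.im ∧ z.im < 1} :=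
      (isOpen_lt continuous_const Complex.continuous_im).inter
        (isOpen_lt Complex.continuous_im continuous_const)
    have h1 := cal_pw_diff hR {z : ℂ | 0 < z.im ∧ z.im < 1} ho (fun z => -(Complex.I * z))
      (fun z => 1 + Complex.I * z) (by fun_prop) (by fun_prop) 1
      (fun z hz => hbd z hz.1.le hz.2.le)
    exact (innerSL ℂ η').differentiable.comp_differentiableOn
      (h1.clm_apply (differentiableOn_const η))
  · refine ⟨‖η'‖ * (Real.exp (1 * Real.log 2) * ‖η‖), fun z h0 h1 => ?_⟩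
    have h2 := hbd z h0 h1
    beta_reduce
    rw [innerSL_apply_apply]
    refine (norm_inner_le_norm _ _).trans (mul_le_mul_of_nonneg_left ?_ (norm_nonneg _))
    refine (ContinuousLinearMap.le_opNorm _ _).trans
      (mul_le_mul_of_nonneg_right ?_ (norm_nonneg _))
    have h3 := cal_pw_norm hR h2.1 h2.2.1
    rw [hI, hI'] at h3
    rwa [add_sub_cancel] at h3
  · intro t
    have e1 : cal R (pw (-(Complex.I * (t : ℂ))) (1 + Complex.I * (t : ℂ))) =
        cal R (pw 0 (1 / 2)) * (UT R (-t) * cal R (pw 0 (1 / 2))) := by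
      rw [UT, cal_pw_mul hR (by simp) (by simp) (by simp) (by norm_num),
        cal_pw_mul hR (by simp) (by norm_num) (by simp) (by norm_num)]
      congr 2
      · push_cast
        ring
      · push_cast
        ring
    beta_reduce
    rw [innerSL_apply_apply, e1]
    change inner ℂ η' (cal R (pw 0 (1 / 2)) (UT R (-t) (cal R (pw 0 (1 / 2)) η))) =
      inner ℂ ζ (UT R t (x (UT R (-t) (y ζ))))
    rw [← kma_adj, kma_A_star hR, hη1, hη3, kma_adj]
    have e2 : star (UT R (-t)) = UT R t := by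
      rw [UT_star hR, neg_neg]
    rw [← e2, ← kma_adj (star (UT R (-t))) ζ, star_star, UT_fix hR _ ζ hz]
  · intro t
    have e1 : cal R (pw (-(Complex.I * ((t : ℂ) + Complex.I)))
        (1 + Complex.I * ((t : ℂ) + Complex.I))) =
        cal R (pw (1 / 2) 0) * (UT R (-t) * cal R (pw (1 / 2) 0)) := by
      rw [UT, cal_pw_mul hR (by simp) (by simp) (by norm_num) (by simp),
        cal_pw_mul hR (by norm_num) (by simp) (by norm_num) (by simp)]
      congr 2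
      · push_cast
        linear_combination (-1 : ℂ) * Complex.I_mul_I
      · push_cast
        linear_combination Complex.I_mul_I
    beta_reduce
    rw [innerSL_apply_apply, e1]
    change inner ℂ η' (cal R (pw (1 / 2) 0) (UT R (-t) (cal R (pw (1 / 2) 0) η))) =
      inner ℂ ζ (y (UT R t (x (UT R (-t) ζ))))
    rw [← kma_adj, kma_B_star hR, hη2, hη4, ← hJ.UT hR, inner_J, kma_fix hR _ hz]
    have e2 : star (UT R (-t)) = UT R t := by
      rw [UT_star hR, neg_neg]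
    rw [← kma_adj y, ← e2, ← kma_adj (star (UT R (-t))) (star y ζ), star_star]

end H52TT
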