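import Pool.Agent.H52.TT.StP
import Pool.Agent.H52.BC.LdA

/-!
Row FuQ.  Uniqueness from exponential moments.

`g` continuous bounded, `Φ(θ) = ∫ exp(-θ t) g(t)/(2 cosh πt) dt = 0` for real `|θ| < π`.  `Φ` is holomorphic in the strip `|Re θ| < π` (`hasDerivAt_integral_of_dominated_loc_of_deriv_le`, dominating function
`C (1 + |t|) exp(b |t|)/cosh(πt)`, `b < π`; `|t| ≤ exp(ε|t|)/ε`), vanishes on a real interval, so it vanishes in the strip (identity theorem `AnalyticOnNhd.eqOn_zero_of_preconnected_of_frequently_eq_zero`), in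
particular at `θ = -2πi r`: `∫ exp(2πi r t) g(t)/(2 cosh πt) dt = 0` for all real `r`; `H52BC.L1_fourier_inj` gives `g(t)/(2 cosh πt) = 0` a.e., so `g = 0` a.e. and everywhere by continuity.
-/

open MeasureTheory Filter Topology H52BC

noncomputable section

namespace H52TT

theorem fuq_bd (b' : ℝ) (hb' : |b'| < Real.pi) :
    Integrable (fun t : ℝ => (Real.exp (b' * t) + Real.exp (-b' * t)) /
      Real.cosh (Real.pi * t)) := by
  have h1 := sech_integrable b' hb'
  have h2 := sech_integrable (-b') (by rwa [abs_neg])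
  refine (h1.add h2).congr (Eventually.of_forall fun t => ?_)
  simp only [Pi.add_apply]
  rw [add_div]

theorem fuq_exp_abs (b t : ℝ) (x : ℝ) (hx : |x| ≤ b) :
    Real.exp (-(x * t)) ≤ Real.exp (b * t) + Real.exp (-b * t) := by
  have h1 : -(x * t) ≤ b * |t| := by
    calc -(x * t) ≤ |x * t| := neg_le_abs _
      _ = |x| * |t| := abs_mul _ _
      _ ≤ b * |t| := by gcongr
  rcases abs_cases t with ⟨h, _⟩ | ⟨h, _⟩
  · rw [h] at h1
    have := Real.exp_le_exp.2 h1
    linarith [Real.exp_pos (-b * t)]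
  · rw [h] at h1
    have h2 : b * -t = -b * t := by ring
    rw [h2] at h1
    have := Real.exp_le_exp.2 h1
    linarith [Real.exp_pos (b * t)]

theorem fuq_abs_exp (b b' t : ℝ) (hbb : b < b') (x : ℝ) (hx : |x| ≤ b) :
    |t| * Real.exp (-(x * t)) ≤ (b' - b)⁻¹ * (Real.exp (b' * t) + Real.exp (-b' * t)) := by
  have hε : 0 < b' - b := by linarith
  have h1 : -(x * t) ≤ b * |t| := by
    calc -(x * t) ≤ |x * t| := neg_le_abs _
      _ = |x| * |t| := abs_mul _ _
      _ ≤ b * |t| := by gcongr
  have h2 : |t| ≤ (b' - b)⁻¹ * Real.exp ((b' - b) * |t|) := by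
    have h3 : (b' - b) * |t| ≤ Real.exp ((b' - b) * |t|) := by
      have := Real.add_one_le_exp ((b' - b) * |t|)
      linarith
    rw [inv_mul_eq_div, le_div_iff₀ hε]
    linarith
  have h4 : |t| * Real.exp (-(x * t)) ≤ (b' - b)⁻¹ * Real.exp (b' * |t|) := by
    calc |t| * Real.exp (-(x * t)) ≤
        ((b' - b)⁻¹ * Real.exp ((b' - b) * |t|)) * Real.exp (b * |t|) := by
          apply mul_le_mul h2 (Real.exp_le_exp.2 h1) (Real.exp_pos _).le
          positivity
      _ = (b' - b)⁻¹ * Real.exp (b' * |t|) := by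
          rw [mul_assoc, ← Real.exp_add]
          congr 2
          ring
  refine h4.trans ?_
  apply mul_le_mul_of_nonneg_left _ (by positivity)
  rcases abs_cases t with ⟨h, _⟩ | ⟨h, _⟩
  · rw [h]
    linarith [Real.exp_pos (-b' * t)]
  · rw [h]
    have h2 : b' * -t = -b' * t := by ring
    rw [h2]
    linarith [Real.exp_pos (b' * t)]

theorem moments_uniq (g : ℝ → ℂ) (hg : Continuous g) (C : ℝ) (hC : ∀ t, ‖g t‖ ≤ C)
    (h : ∀ θ : ℝ, |θ| < Real.pi →
      ∫ t : ℝ, ((Real.exp (-(θ * t)) / (2 * Real.cosh (Real.pi * t)) : ℝ) : ℂ) * g t = 0)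
    (t : ℝ) : g t = 0 := by
  have hC0 : 0 ≤ C := (norm_nonneg _).trans (hC 0)
  have hcosh : ∀ t : ℝ, 0 < Real.cosh (Real.pi * t) := fun t => Real.cosh_pos _
  set F : ℂ → ℝ → ℂ := fun z t =>
    Complex.exp (-(z * t)) * (((2 * Real.cosh (Real.pi * t))⁻¹ : ℝ) : ℂ) * g t with hF
  set F' : ℂ → ℝ → ℂ := fun z t =>
    (-(t : ℂ)) * (Complex.exp (-(z * t)) * (((2 * Real.cosh (Real.pi * t))⁻¹ : ℝ) : ℂ) * g t)
    with hF'
  have hwc : Continuous (fun t : ℝ => (((2 * Real.cosh (Real.pi * t))⁻¹ : ℝ) : ℂ)) := by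
    apply Complex.continuous_ofReal.comp
    apply Continuous.inv₀ (by fun_prop)
    intro t
    have := hcosh t
    positivity
  have hFc : ∀ z, Continuous (F z) := by
    intro z
    simp only [hF]
    exact ((by fun_prop : Continuous (fun t : ℝ => Complex.exp (-(z * t)))).mul hwc).mul hg
  have hF'c : ∀ z, Continuous (F' z) := by
    intro z
    simp only [hF']
    exact (by fun_prop : Continuous (fun t : ℝ => -(t : ℂ))).mul (hFc z)
  have hnorm : ∀ (z : ℂ) (t : ℝ), ‖F z t‖ ≤
      Real.exp (-(z.re * t)) * (2 * Real.cosh (Real.pi * t))⁻¹ * C := by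
    intro z t
    simp only [hF]
    rw [norm_mul, norm_mul, Complex.norm_exp, Complex.norm_real]
    have h1 : (-(z * (t : ℂ))).re = -(z.re * t) := by simp
    rw [h1, Real.norm_of_nonneg (by have := hcosh t; positivity)]
    have := hcosh t
    exact mul_le_mul_of_nonneg_left (hC t) (by positivity)
  have hint : ∀ z : ℂ, |z.re| < Real.pi → Integrable (F z) := by
    intro z hz
    have h1 := (fuq_bd |z.re| (by rwa [abs_abs])).const_mul (C / 2)
    refine h1.mono' (hFc z).aestronglyMeasurable (Eventually.of_forall fun t => ?_)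
    refine (hnorm z t).trans ?_
    have h2 := fuq_exp_abs |z.re| t z.re le_rfl
    have h3 := hcosh t
    calc Real.exp (-(z.re * t)) * (2 * Real.cosh (Real.pi * t))⁻¹ * C
        ≤ (Real.exp (|z.re| * t) + Real.exp (-|z.re| * t)) *
          (2 * Real.cosh (Real.pi * t))⁻¹ * C := by
          gcongr
      _ = C / 2 * ((Real.exp (|z.re| * t) + Real.exp (-|z.re| * t)) /
          Real.cosh (Real.pi * t)) := by
          rw [mul_inv]
          ring
  set Φ : ℂ → ℂ := fun z => ∫ t : ℝ, F z t with hΦ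
  set S : Set ℂ := {z : ℂ | |z.re| < Real.pi} with hS
  have hSo : IsOpen S := isOpen_lt (by fun_prop) continuous_const
  have hder : ∀ z ∈ S, HasDerivAt Φ (∫ t : ℝ, F' z t) z := by
    intro z0 hz0
    have hz0' : |z0.re| < Real.pi := hz0
    set b : ℝ := (|z0.re| + Real.pi) / 2 with hb
    set b' : ℝ := (b + Real.pi) / 2 with hb'
    have hb0 : 0 ≤ b := by have := abs_nonneg z0.re; have := Real.pi_pos; rw [hb]; linarith
    have hbp : b < Real.pi := by rw [hb]; linarith
    have hbb : b < b' := by rw [hb']; linarith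
    have hb'p : b' < Real.pi := by rw [hb']; linarith
    have hε : 0 < b - |z0.re| := by rw [hb]; linarith
    have hre : ∀ z ∈ Metric.ball z0 (b - |z0.re|), |z.re| ≤ b := by
      intro z hz
      have h1 : |z.re - z0.re| ≤ ‖z - z0‖ := by
        have := Complex.abs_re_le_norm (z - z0)
        simpa using this
      have h2 : ‖z - z0‖ < b - |z0.re| := by
        rwa [Metric.mem_ball, dist_eq_norm] at hz
      have h3 : |z.re| ≤ |z.re - z0.re| + |z0.re| := by
        calc |z.re| = |(z.re - z0.re) + z0.re| := by ring_nf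
          _ ≤ _ := abs_add_le _ _
      linarith
    have := hasDerivAt_integral_of_dominated_loc_of_deriv_le (𝕜 := ℂ) (μ := volume)
      (F := F) (F' := F') (x₀ := z0)
      (bound := fun t : ℝ => C / 2 * (b' - b)⁻¹ * ((Real.exp (b' * t) + Real.exp (-b' * t)) /
        Real.cosh (Real.pi * t)))
      (s := Metric.ball z0 (b - |z0.re|)) (Metric.ball_mem_nhds z0 hε)
      (Eventually.of_forall fun z => (hFc z).aestronglyMeasurable)
      (hint z0 hz0)
      ((hF'c z0).aestronglyMeasurable)
      (Eventually.of_forall fun t z hz => ?_)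
      (((fuq_bd b' (by rw [abs_of_nonneg (by linarith)]; exact hb'p))).const_mul _)
      (Eventually.of_forall fun t z hz => ?_)
    · exact this.2
    · have h1 : ‖F' z t‖ = |t| * ‖F z t‖ := by
        simp only [hF', hF]
        rw [norm_mul, norm_neg, Complex.norm_real, Real.norm_eq_abs]
      have h2 := fuq_abs_exp b b' t hbb z.re (hre z hz)
      have h3 := hcosh t
      calc ‖F' z t‖ = |t| * ‖F z t‖ := h1
        _ ≤ |t| * (Real.exp (-(z.re * t)) * (2 * Real.cosh (Real.pi * t))⁻¹ * C) :=
          mul_le_mul_of_nonneg_left (hnorm z t) (abs_nonneg _)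
        _ = (|t| * Real.exp (-(z.re * t))) * (2 * Real.cosh (Real.pi * t))⁻¹ * C := by ring
        _ ≤ ((b' - b)⁻¹ * (Real.exp (b' * t) + Real.exp (-b' * t))) *
            (2 * Real.cosh (Real.pi * t))⁻¹ * C := by gcongr
        _ = C / 2 * (b' - b)⁻¹ * ((Real.exp (b' * t) + Real.exp (-b' * t)) /
            Real.cosh (Real.pi * t)) := by
            rw [mul_inv]
            ring
    · have h1 : HasDerivAt (fun z : ℂ => Complex.exp (-(z * t)))
          (Complex.exp (-(z * t)) * (-(1 * (t : ℂ)))) z :=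
        (((hasDerivAt_id z).mul_const (t : ℂ)).neg).cexp
      have h2 := (h1.mul_const (((2 * Real.cosh (Real.pi * t))⁻¹ : ℝ) : ℂ)).mul_const (g t)
      refine h2.congr_deriv ?_
      simp only [hF']
      ring
  have hdiff : DifferentiableOn ℂ Φ S := fun z hz =>
    (hder z hz).differentiableAt.differentiableWithinAt
  have hana : AnalyticOnNhd ℂ Φ S := hdiff.analyticOnNhd hSo
  have hconv : Convex ℝ S := by
    have h1 : S = Complex.reLm ⁻¹' (Metric.ball (0 : ℝ) Real.pi) := by
      ext z
      simp [hS]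
    rw [h1]
    exact (convex_ball (0 : ℝ) Real.pi).linear_preimage _
  have hreal : ∀ θ : ℝ, |θ| < Real.pi → Φ (θ : ℂ) = 0 := by
    intro θ hθ
    rw [← h θ hθ]
    simp only [hΦ, hF]
    refine integral_congr_ae (Eventually.of_forall fun t => ?_)
    simp only
    congr 1
    rw [div_eq_mul_inv]
    push_cast
    ring
  have h0S : (0 : ℂ) ∈ S := by simp [hS, Real.pi_pos]
  have hfreq : ∃ᶠ z in 𝓝[≠] (0 : ℂ), Φ z = 0 := by
    have hseq : Tendsto (fun n : ℕ => (((1 / ((n : ℝ) + 1) : ℝ)) : ℂ)) atTop (𝓝[≠] (0 : ℂ)) := by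
      rw [tendsto_nhdsWithin_iff]
      refine ⟨?_, Eventually.of_forall fun n => ?_⟩
      · have h1 := tendsto_one_div_add_atTop_nhds_zero_nat (𝕜 := ℝ)
        have h2 : Tendsto (fun n : ℕ => (((1 / ((n : ℝ) + 1) : ℝ)) : ℂ)) atTop
            (𝓝 ((0 : ℝ) : ℂ)) := (Complex.continuous_ofReal.tendsto (0 : ℝ)).comp h1
        rwa [Complex.ofReal_zero] at h2
      · have h3 : (0 : ℝ) < 1 / ((n : ℝ) + 1) := by positivity
        simp only [Set.mem_compl_iff, Set.mem_singleton_iff]
        exact_mod_cast h3.ne'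
    apply hseq.frequently
    apply Eventually.frequently
    refine Eventually.of_forall fun n => hreal _ ?_
    have h3 : (0 : ℝ) < 1 / ((n : ℝ) + 1) := by positivity
    rw [abs_of_pos h3]
    have h4 : 1 / ((n : ℝ) + 1) ≤ 1 := by
      rw [div_le_one (by positivity)]
      have : (0 : ℝ) ≤ n := Nat.cast_nonneg n
      linarith
    linarith [Real.pi_gt_three]
  have hzero := hana.eqOn_zero_of_preconnected_of_frequently_eq_zero
    hconv.isPreconnected h0S hfreq
  set a : ℝ → ℂ := fun t => (((2 * Real.cosh (Real.pi * t))⁻¹ : ℝ) : ℂ) * g t with ha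
  have hai : Integrable a volume := by
    have h1 := hint 0 h0S
    refine h1.congr (Eventually.of_forall fun t => ?_)
    simp only [hF, ha]
    simp
  have haf : ∀ r : ℝ, ∫ s, ee r s * a s = 0 := by
    intro r
    have hz : (-(2 * Real.pi * Complex.I * r) : ℂ) ∈ S := by
      simp only [hS, Set.mem_ofPred_eq]
      have : (-(2 * Real.pi * Complex.I * r) : ℂ).re = 0 := by simp
      rw [this, abs_zero]
      exact Real.pi_pos
    have h1 := hzero hz
    simp only [Pi.zero_apply, hΦ, hF] at h1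
    rw [← h1]
    refine integral_congr_ae (Eventually.of_forall fun s => ?_)
    simp only [ee, ha]
    have e : Complex.exp (-(-(2 * Real.pi * Complex.I * r) * s)) =
        Complex.exp (2 * Real.pi * Complex.I * r * s) := by
      congr 1
      ring
    rw [e]
    ring
  have hae := L1_fourier_inj a hai haf
  have hgae : g =ᵐ[volume] (fun _ => (0 : ℂ)) := by
    filter_upwards [hae] with t ht
    simp only [ha, Pi.zero_apply] at ht
    rcases mul_eq_zero.1 ht with h1 | h1
    · exfalso
      have h3 := hcosh t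
      have h4 : ((2 * Real.cosh (Real.pi * t))⁻¹ : ℝ) ≠ 0 := by positivity
      exact h4 (by exact_mod_cast h1)
    · exact h1
  have hfin := (hg.ae_eq_iff_eq volume continuous_const).1 hgae
  exact congrFun hfin t

end H52TT
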