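import Mathlib

/-!
Row StP.  Poisson formula for the middle of the strip `|Im z| ≤ 1/2`.

`m` continuous on the closed strip, holomorphic inside, `|m z| ≤ C exp(b |Re z|)`, `0 ≤ b < π`.  Then `m(0) = ∫ (m(t - i/2) + m(t + i/2)) / (2 cosh(π t)) dt`.

Proof: `sinh(π(t + i/2)) = i cosh(π t)`, `sinh(π (t - i/2)) = -i cosh (π t)`.  The function `g(z) = (m(z) - m(0)) / sinh(π z)` (value `m'(0)/π` at `0`; the other zeros `i k` of `sinh(πz)` are outside the closed
strip) is continuous on the closed strip and holomorphic inside (removable singularity: use `dslope`, or the rectangle theorem with a countable exceptional set, which only needs continuity at the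
exceptional points: `Complex.integral_boundary_rect_eq_zero_of_continuousOn_of_differentiableOn`-type lemma `..._off_countable`).  Rectangle `[-A, A] × [-1/2, 1/2]`: the vertical sides tend to `0` as `A → ∞`
(`|sinh(π z)| ≥ sinh(π A)`, `|m| ≤ C exp(b A)`, `b < π`).  So `∫ g(t - i/2) dt = ∫ g(t + i/2) dt`, i.e. `∫ (m(t-i/2) - m(0))/(-i cosh πt) dt = ∫ (m(t+i/2) - m(0))/(i cosh πt) dt`, hence
`∫ (m(t-i/2) + m(t+i/2) - 2 m(0))/cosh(πt) dt = 0`, and `∫ 1/cosh(π t) dt = 1` (`sech_integral`; antiderivative `(2/π) arctan(exp(π t))`, `integral_of_hasDerivAt_of_tendsto`).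
-/

open MeasureTheory Filter Topology

noncomputable section

namespace H52TT

theorem stp_cosh_ge (t : ℝ) : Real.exp |t| / 2 ≤ Real.cosh t := by
  rw [← Real.cosh_abs, Real.cosh_eq]
  have := Real.exp_pos (-|t|)
  linarith

theorem stp_sinh_norm (w : ℂ) : |Real.sinh w.re| ≤ ‖Complex.sinh w‖ := by
  have h1 : Complex.sinh w = (Complex.exp w - Complex.exp (-w)) / 2 := rfl
  have h2 : Real.sinh w.re = (Real.exp w.re - Real.exp (-w.re)) / 2 := Real.sinh_eq _
  rw [h1, h2, norm_div, abs_div]
  have h3 : |Real.exp w.re - Real.exp (-w.re)| ≤ ‖Complex.exp w - Complex.exp (-w)‖ := by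
    have h4 := abs_norm_sub_norm_le (Complex.exp w) (Complex.exp (-w))
    rw [Complex.norm_exp, Complex.norm_exp, Complex.neg_re] at h4
    exact h4
  have h5 : ‖(2 : ℂ)‖ = |(2 : ℝ)| := by simp
  rw [h5]
  gcongr

theorem stp_sinh_ne (z : ℂ) (hz : |z.im| ≤ 1 / 2) (h0 : z ≠ 0) :
    Complex.sinh (Real.pi * z) ≠ 0 := by
  have hpi := Real.pi_pos
  intro h
  have h1 := stp_sinh_norm (Real.pi * z)
  rw [h, norm_zero] at h1
  have h2 : Real.sinh ((Real.pi : ℂ) * z).re = 0 := by
    have := abs_nonneg (Real.sinh ((Real.pi : ℂ) * z).re)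
    exact abs_eq_zero.mp (le_antisymm h1 this)
  have h3 : ((Real.pi : ℂ) * z).re = Real.pi * z.re := by simp
  rw [h3, Real.sinh_eq_zero] at h2
  have h4 : z.re = 0 := by
    rcases mul_eq_zero.mp h2 with h5 | h5
    · exact absurd h5 hpi.ne'
    · exact h5
  have h5 : z = (z.im : ℂ) * Complex.I := by
    apply Complex.ext
    · simp [h4]
    · simp
  have h6 : (Real.pi : ℂ) * z = ((Real.pi * z.im : ℝ) : ℂ) * Complex.I := by
    rw [h5]
    push_cast
    simp
    ring
  rw [h6, Complex.sinh_mul_I, ← Complex.ofReal_sin] at h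
  have h7 : Real.sin (Real.pi * z.im) = 0 := by
    rcases mul_eq_zero.mp h with h8 | h8
    · exact_mod_cast h8
    · exact absurd h8 Complex.I_ne_zero
  have h8 : z.im ≠ 0 := by
    intro h9
    apply h0
    rw [h5, h9]
    simp
  rw [abs_le] at hz
  rcases lt_or_gt_of_ne h8 with h9 | h9
  · have h10 : 0 < Real.sin (-(Real.pi * z.im)) := by
      apply Real.sin_pos_of_pos_of_lt_pi
      · nlinarith
      · nlinarith
    rw [Real.sin_neg] at h10
    linarith
  · have h10 : 0 < Real.sin (Real.pi * z.im) := by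
      apply Real.sin_pos_of_pos_of_lt_pi
      · positivity
      · nlinarith
    linarith

theorem stp_sinh_minus (t : ℝ) :
    Complex.sinh (Real.pi * ((t : ℂ) - Complex.I / 2)) =
      -(Complex.I * ((Real.cosh (Real.pi * t) : ℝ) : ℂ)) := by
  have h1 : (Real.pi : ℂ) * ((t : ℂ) - Complex.I / 2) =
      ((Real.pi * t : ℝ) : ℂ) - ((Real.pi / 2 : ℝ) : ℂ) * Complex.I := by
    push_cast
    ring
  rw [h1, Complex.sinh_sub, Complex.sinh_mul_I, Complex.cosh_mul_I, ← Complex.ofReal_sin,
    ← Complex.ofReal_cos, Real.sin_pi_div_two, Real.cos_pi_div_two, Complex.ofReal_cosh]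
  push_cast
  ring

theorem stp_sinh_plus (t : ℝ) :
    Complex.sinh (Real.pi * ((t : ℂ) + Complex.I / 2)) =
      Complex.I * ((Real.cosh (Real.pi * t) : ℝ) : ℂ) := by
  have h1 : (Real.pi : ℂ) * ((t : ℂ) + Complex.I / 2) =
      ((Real.pi * t : ℝ) : ℂ) + ((Real.pi / 2 : ℝ) : ℂ) * Complex.I := by
    push_cast
    ring
  rw [h1, Complex.sinh_add, Complex.sinh_mul_I, Complex.cosh_mul_I, ← Complex.ofReal_sin,
    ← Complex.ofReal_cos, Real.sin_pi_div_two, Real.cos_pi_div_two, Complex.ofReal_cosh]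
  push_cast
  ring

theorem sech_integrable (b : ℝ) (hb : |b| < Real.pi) :
    Integrable (fun t : ℝ => Real.exp (b * t) / Real.cosh (Real.pi * t)) := by
  have hpi := Real.pi_pos
  obtain ⟨hb1, hb2⟩ := abs_lt.mp hb
  have hmeas : ∀ s : Set ℝ, AEStronglyMeasurable
      (fun t : ℝ => Real.exp (b * t) / Real.cosh (Real.pi * t)) (volume.restrict s) := by
    intro s
    apply Continuous.aestronglyMeasurable
    apply Continuous.div
    · fun_prop
    · fun_prop
    · intro t
      exact (Real.cosh_pos _).ne'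
  have hbd : ∀ t : ℝ, ‖Real.exp (b * t) / Real.cosh (Real.pi * t)‖ ≤
      2 * Real.exp (b * t - Real.pi * |t|) := by
    intro t
    rw [Real.norm_of_nonneg (by positivity), div_le_iff₀ (Real.cosh_pos _)]
    have h1 := stp_cosh_ge (Real.pi * t)
    rw [abs_mul, abs_of_pos hpi] at h1
    calc Real.exp (b * t) = 2 * Real.exp (b * t - Real.pi * |t|) * (Real.exp (Real.pi * |t|) / 2) := by
          rw [show 2 * Real.exp (b * t - Real.pi * |t|) * (Real.exp (Real.pi * |t|) / 2) =
            Real.exp (b * t - Real.pi * |t|) * Real.exp (Real.pi * |t|) by ring, ← Real.exp_add]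
          congr 1
          ring
      _ ≤ _ := by gcongr
  rw [← integrableOn_univ, ← Set.Iic_union_Ioi (a := (0 : ℝ))]
  apply IntegrableOn.union
  · have h1 : IntegrableOn (fun t : ℝ => 2 * Real.exp ((b + Real.pi) * t)) (Set.Iic 0) :=
      (integrableOn_exp_mul_Iic (by linarith) 0).const_mul 2
    refine Integrable.mono' h1 (hmeas _) ?_
    filter_upwards [ae_restrict_mem measurableSet_Iic] with t ht
    refine (hbd t).trans (le_of_eq ?_)
    rw [abs_of_nonpos ht]
    congr 2
    ring
  · have h1 : IntegrableOn (fun t : ℝ => 2 * Real.exp ((b - Real.pi) * t)) (Set.Ioi 0) :=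
      (integrableOn_exp_mul_Ioi (by linarith) 0).const_mul 2
    refine Integrable.mono' h1 (hmeas _) ?_
    filter_upwards [ae_restrict_mem measurableSet_Ioi] with t ht
    refine (hbd t).trans (le_of_eq ?_)
    rw [abs_of_pos ht]
    congr 2
    ring

theorem sech_integral : ∫ t : ℝ, 1 / Real.cosh (Real.pi * t) = 1 := by
  have hpi := Real.pi_pos
  have hint : Integrable (fun t : ℝ => 1 / Real.cosh (Real.pi * t)) := by
    have := sech_integrable 0 (by rw [abs_zero]; exact hpi)
    simpa using this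
  have hder : ∀ t : ℝ, HasDerivAt (fun t : ℝ => 2 / Real.pi * Real.arctan (Real.exp (Real.pi * t)))
      (1 / Real.cosh (Real.pi * t)) t := by
    intro t
    have h1 : HasDerivAt (fun t : ℝ => Real.pi * t) Real.pi t := by
      simpa using (hasDerivAt_id t).const_mul Real.pi
    have h2 := (h1.exp.arctan).const_mul (2 / Real.pi)
    refine h2.congr_deriv ?_
    rw [Real.cosh_eq, Real.exp_neg]
    have h3 := Real.exp_pos (Real.pi * t)
    field_simp
    ring
  have hbot : Tendsto (fun t : ℝ => 2 / Real.pi * Real.arctan (Real.exp (Real.pi * t))) atBot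
      (𝓝 0) := by
    have h1 : Tendsto (fun t : ℝ => Real.exp (Real.pi * t)) atBot (𝓝 0) :=
      Real.tendsto_exp_atBot.comp (tendsto_id.const_mul_atBot hpi)
    have h2 := (Real.continuous_arctan.tendsto 0).comp h1
    rw [Real.arctan_zero] at h2
    have h3 := h2.const_mul (2 / Real.pi)
    rw [mul_zero] at h3
    exact h3
  have htop : Tendsto (fun t : ℝ => 2 / Real.pi * Real.arctan (Real.exp (Real.pi * t))) atTop
      (𝓝 1) := by
    have h1 : Tendsto (fun t : ℝ => Real.exp (Real.pi * t)) atTop atTop :=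
      Real.tendsto_exp_atTop.comp (tendsto_id.const_mul_atTop hpi)
    have h2 : Tendsto (fun t : ℝ => Real.arctan (Real.exp (Real.pi * t))) atTop
        (𝓝 (Real.pi / 2)) :=
      (tendsto_nhds_of_tendsto_nhdsWithin Real.tendsto_arctan_atTop).comp h1
    have h3 := h2.const_mul (2 / Real.pi)
    have h4 : 2 / Real.pi * (Real.pi / 2) = 1 := by field_simp
    rw [h4] at h3
    exact h3
  have := integral_of_hasDerivAt_of_tendsto hder hint hbot htop
  rw [this, sub_zero]

theorem strip_poisson (m : ℂ → ℂ) (hc : ContinuousOn m {z : ℂ | |z.im| ≤ 1 / 2})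
    (hd : DifferentiableOn ℂ m {z : ℂ | |z.im| < 1 / 2}) (b C : ℝ) (hb0 : 0 ≤ b) (hb : b < Real.pi)
    (hm : ∀ z : ℂ, |z.im| ≤ 1 / 2 → ‖m z‖ ≤ C * Real.exp (b * |z.re|)) :
    m 0 = ∫ t : ℝ, (m (t - Complex.I / 2) + m (t + Complex.I / 2)) /
      (2 * Real.cosh (Real.pi * t) : ℝ) := by
  have hpi := Real.pi_pos
  set S : ℂ → ℂ := fun z => Complex.sinh (Real.pi * z) with hS
  have hSd : ∀ z, HasDerivAt S (Real.pi * Complex.cosh (Real.pi * z)) z := by
    intro z
    have h1 : HasDerivAt (fun z : ℂ => (Real.pi : ℂ) * z) (Real.pi : ℂ) z := by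
      simpa using (hasDerivAt_id z).const_mul (Real.pi : ℂ)
    have h2 := h1.csinh
    rw [mul_comm] at h2
    exact h2
  have hS0 : S 0 = 0 := by simp [hS]
  have hopen : IsOpen {z : ℂ | |z.im| < 1 / 2} :=
    isOpen_lt (by fun_prop) continuous_const
  have hnb : {z : ℂ | |z.im| ≤ 1 / 2} ∈ 𝓝 (0 : ℂ) := by
    refine Filter.mem_of_superset (hopen.mem_nhds ?_) ?_
    · change |(0 : ℂ).im| < 1 / 2
      simp
    · intro z hz
      exact (show |z.im| < 1 / 2 from hz).le
  have hm0 : DifferentiableAt ℂ m 0 := by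
    apply hd.differentiableAt
    apply hopen.mem_nhds
    change |(0 : ℂ).im| < 1 / 2
    simp
  have hden : ∀ z : ℂ, |z.im| ≤ 1 / 2 → dslope S 0 z ≠ 0 := by
    intro z hz
    by_cases h0 : z = 0
    · rw [h0, dslope_same, (hSd 0).deriv]
      simp [hpi.ne']
    · rw [dslope_of_ne _ h0, slope_def_field, hS0, sub_zero, sub_zero]
      exact div_ne_zero (stp_sinh_ne z hz h0) h0
  set g : ℂ → ℂ := fun z => dslope m 0 z / dslope S 0 z with hg
  have hgc : ContinuousOn g {z : ℂ | |z.im| ≤ 1 / 2} := by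
    apply ContinuousOn.div
    · exact (continuousOn_dslope hnb).mpr ⟨hc, hm0⟩
    · refine (continuousOn_dslope hnb).mpr ⟨?_, (hSd 0).differentiableAt⟩
      intro z _
      exact (hSd z).continuousAt.continuousWithinAt
    · exact hden
  have hgd : ∀ z : ℂ, |z.im| < 1 / 2 → z ≠ 0 → DifferentiableAt ℂ g z := by
    intro z hz h0
    apply DifferentiableAt.div
    · rw [differentiableAt_dslope_of_ne h0]
      exact hd.differentiableAt (hopen.mem_nhds hz)
    · rw [differentiableAt_dslope_of_ne h0]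
      exact (hSd z).differentiableAt
    · exact hden z hz.le
  have hgv : ∀ z : ℂ, z ≠ 0 → g z = (m z - m 0) / S z := by
    intro z h0
    rw [hg]
    simp only
    rw [dslope_of_ne _ h0, dslope_of_ne _ h0, slope_def_field, slope_def_field, hS0, sub_zero,
      sub_zero]
    by_cases hSz : S z = 0
    · rw [hSz]
      simp
    · field_simp
  have hC : 0 ≤ C := by
    have h1 := hm 0 (by simp)
    have h2 := norm_nonneg (m 0)
    simp only [Complex.zero_re, abs_zero, mul_zero, Real.exp_zero, mul_one] at h1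
    linarith
  -- the horizontal lines
  have hne1 : ∀ t : ℝ, (t : ℂ) - Complex.I / 2 ≠ 0 := by
    intro t h
    have := congrArg Complex.im h
    simp at this
  have hne2 : ∀ t : ℝ, (t : ℂ) + Complex.I / 2 ≠ 0 := by
    intro t h
    have := congrArg Complex.im h
    simp at this
  have him1 : ∀ t : ℝ, |((t : ℂ) - Complex.I / 2).im| ≤ 1 / 2 := by
    intro t
    simp
  have him2 : ∀ t : ℝ, |((t : ℂ) + Complex.I / 2).im| ≤ 1 / 2 := by
    intro t
    simp
  have hre1 : ∀ t : ℝ, ((t : ℂ) - Complex.I / 2).re = t := by intro t; simp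
  have hre2 : ∀ t : ℝ, ((t : ℂ) + Complex.I / 2).re = t := by intro t; simp
  have hv1 : ∀ t : ℝ, g ((t : ℂ) - Complex.I / 2) =
      Complex.I * ((m ((t : ℂ) - Complex.I / 2) - m 0) / ((Real.cosh (Real.pi * t) : ℝ) : ℂ)) := by
    intro t
    rw [hgv _ (hne1 t)]
    have h1 : S ((t : ℂ) - Complex.I / 2) = -(Complex.I * ((Real.cosh (Real.pi * t) : ℝ) : ℂ)) :=
      stp_sinh_minus t
    have h2 : ((Real.cosh (Real.pi * t) : ℝ) : ℂ) ≠ 0 := by
      exact_mod_cast (Real.cosh_pos _).ne'
    have h3 := Complex.I_ne_zero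
    rw [h1, div_eq_iff (neg_ne_zero.mpr (mul_ne_zero h3 h2))]
    have h4 : (m ((t : ℂ) - Complex.I / 2) - m 0) / ((Real.cosh (Real.pi * t) : ℝ) : ℂ) *
      ((Real.cosh (Real.pi * t) : ℝ) : ℂ) = m ((t : ℂ) - Complex.I / 2) - m 0 :=
      div_mul_cancel₀ _ h2
    calc m ((t : ℂ) - Complex.I / 2) - m 0
        = -(Complex.I * Complex.I) * ((m ((t : ℂ) - Complex.I / 2) - m 0) /
          ((Real.cosh (Real.pi * t) : ℝ) : ℂ) * ((Real.cosh (Real.pi * t) : ℝ) : ℂ)) := by
          rw [Complex.I_mul_I, h4]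
          ring
      _ = _ := by ring
  have hv2 : ∀ t : ℝ, g ((t : ℂ) + Complex.I / 2) =
      -Complex.I * ((m ((t : ℂ) + Complex.I / 2) - m 0) / ((Real.cosh (Real.pi * t) : ℝ) : ℂ)) := by
    intro t
    rw [hgv _ (hne2 t)]
    have h1 : S ((t : ℂ) + Complex.I / 2) = (Complex.I * ((Real.cosh (Real.pi * t) : ℝ) : ℂ)) :=
      stp_sinh_plus t
    have h2 : ((Real.cosh (Real.pi * t) : ℝ) : ℂ) ≠ 0 := by
      exact_mod_cast (Real.cosh_pos _).ne'
    have h3 := Complex.I_ne_zero
    rw [h1]
    field_simp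
    rw [Complex.I_sq]
    ring
  have hI : ∀ f : ℝ → ℂ, (∀ t, |(f t).im| ≤ 1 / 2) → (∀ t, (f t).re = t) → Continuous f →
      Integrable (fun t : ℝ => (m (f t) - m 0) / ((Real.cosh (Real.pi * t) : ℝ) : ℂ)) := by
    intro f h1 h2 h3
    have hdom : Integrable (fun t : ℝ => C * (Real.exp (b * t) / Real.cosh (Real.pi * t)) +
        C * (Real.exp (-b * t) / Real.cosh (Real.pi * t)) +
        ‖m 0‖ * (Real.exp (0 * t) / Real.cosh (Real.pi * t))) := by
      refine (((sech_integrable b ?_).const_mul C).add ((sech_integrable (-b) ?_).const_mul C)).add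
        ((sech_integrable 0 ?_).const_mul _)
      · rw [abs_of_nonneg hb0]; exact hb
      · rw [abs_neg, abs_of_nonneg hb0]; exact hb
      · rw [abs_zero]; exact hpi
    refine Integrable.mono' hdom ?_ ?_
    · apply Continuous.aestronglyMeasurable
      apply Continuous.div
      · apply Continuous.sub _ continuous_const
        exact hc.comp_continuous h3 h1
      · exact Complex.continuous_ofReal.comp (Real.continuous_cosh.comp (by fun_prop))
      · intro t
        exact_mod_cast (Real.cosh_pos _).ne'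
    · refine ae_of_all _ fun t => ?_
      have hcp := Real.cosh_pos (Real.pi * t)
      rw [norm_div, Complex.norm_real, Real.norm_of_nonneg hcp.le, zero_mul, Real.exp_zero]
      rw [← mul_div_assoc, ← mul_div_assoc, ← mul_div_assoc, ← add_div, ← add_div, mul_one]
      gcongr
      have h4 := hm (f t) (h1 t)
      rw [h2 t] at h4
      have h5 : Real.exp (b * |t|) ≤ Real.exp (b * t) + Real.exp (-b * t) := by
        rcases le_total 0 t with h | h
        · rw [abs_of_nonneg h]
          have := Real.exp_pos (-b * t)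
          linarith
        · rw [abs_of_nonpos h]
          have h6 := Real.exp_pos (b * t)
          have h7 : b * -t = -b * t := by ring
          rw [h7]
          linarith
      calc ‖m (f t) - m 0‖ ≤ ‖m (f t)‖ + ‖m 0‖ := norm_sub_le _ _
        _ ≤ C * Real.exp (b * |t|) + ‖m 0‖ := by gcongr
        _ ≤ C * (Real.exp (b * t) + Real.exp (-b * t)) + ‖m 0‖ := by gcongr
        _ = C * Real.exp (b * t) + C * Real.exp (-b * t) + ‖m 0‖ := by ring
  have hI1 := hI (fun t => (t : ℂ) - Complex.I / 2) him1 hre1 (by fun_prop)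
  have hI2 := hI (fun t => (t : ℂ) + Complex.I / 2) him2 hre2 (by fun_prop)
  have hG1 : Integrable (fun t : ℝ => g ((t : ℂ) - Complex.I / 2)) := by
    have := hI1.const_mul Complex.I
    refine this.congr (ae_of_all _ fun t => ?_)
    exact (hv1 t).symm
  have hG2 : Integrable (fun t : ℝ => g ((t : ℂ) + Complex.I / 2)) := by
    have := hI2.const_mul (-Complex.I)
    refine this.congr (ae_of_all _ fun t => ?_)
    exact (hv2 t).symm
  have hT1 := intervalIntegral_tendsto_integral hG1 tendsto_neg_atTop_atBot tendsto_id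
  have hT2 := intervalIntegral_tendsto_integral hG2 tendsto_neg_atTop_atBot tendsto_id
  -- vertical bound
  have hvert : ∀ A : ℝ, 1 ≤ |A| → ‖∫ y in (-1 / 2 : ℝ)..(1 / 2), g ((A : ℂ) + y * Complex.I)‖ ≤
      4 * (C * Real.exp (-(Real.pi - b) * |A|) + ‖m 0‖ * Real.exp (-Real.pi * |A|)) := by
    intro A hA
    have h1 : ∀ y ∈ Set.uIoc (-1 / 2 : ℝ) (1 / 2), ‖g ((A : ℂ) + y * Complex.I)‖ ≤
        4 * (C * Real.exp (-(Real.pi - b) * |A|) + ‖m 0‖ * Real.exp (-Real.pi * |A|)) := by
      intro y hy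
      rw [Set.uIoc_of_le (by norm_num)] at hy
      have hyim : ((A : ℂ) + y * Complex.I).im = y := by simp
      have hyre : ((A : ℂ) + y * Complex.I).re = A := by simp
      have hyabs : |((A : ℂ) + y * Complex.I).im| ≤ 1 / 2 := by
        rw [hyim, abs_le]
        constructor
        · linarith [hy.1]
        · exact hy.2
      have hne : (A : ℂ) + y * Complex.I ≠ 0 := by
        intro h
        have h2 := congrArg Complex.re h
        rw [hyre] at h2
        rw [h2] at hA
        simp at hA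
        linarith
      rw [hgv _ hne, norm_div]
      have h2 : Real.exp (Real.pi * |A|) / 4 ≤ ‖S ((A : ℂ) + y * Complex.I)‖ := by
        have h3 := stp_sinh_norm ((Real.pi : ℂ) * ((A : ℂ) + y * Complex.I))
        have h4 : ((Real.pi : ℂ) * ((A : ℂ) + y * Complex.I)).re = Real.pi * A := by
          rw [Complex.re_ofReal_mul, hyre]
        rw [h4] at h3
        refine le_trans ?_ h3
        rw [Real.abs_sinh, abs_mul, abs_of_pos hpi, Real.sinh_eq]
        have h5 : Real.exp (-(Real.pi * |A|)) ≤ 1 := by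
          apply Real.exp_le_one_iff.mpr
          have : 0 ≤ Real.pi * |A| := by positivity
          linarith
        have h6 : 2 ≤ Real.exp (Real.pi * |A|) := by
          have h7 := Real.add_one_le_exp (Real.pi * |A|)
          have h8 : 1 ≤ Real.pi * |A| := by
            have := Real.two_le_pi
            nlinarith
          linarith
        linarith
      have h3 : ‖m ((A : ℂ) + y * Complex.I) - m 0‖ ≤ C * Real.exp (b * |A|) + ‖m 0‖ := by
        have h4 := hm _ hyabs
        rw [hyre] at h4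
        calc ‖m ((A : ℂ) + y * Complex.I) - m 0‖ ≤ ‖m ((A : ℂ) + y * Complex.I)‖ + ‖m 0‖ :=
              norm_sub_le _ _
          _ ≤ _ := by gcongr
      calc ‖m ((A : ℂ) + y * Complex.I) - m 0‖ / ‖S ((A : ℂ) + y * Complex.I)‖
          ≤ (C * Real.exp (b * |A|) + ‖m 0‖) / (Real.exp (Real.pi * |A|) / 4) := by gcongr
        _ = 4 * (C * Real.exp (-(Real.pi - b) * |A|) + ‖m 0‖ * Real.exp (-Real.pi * |A|)) := by
            have e1 : Real.exp (-(Real.pi - b) * |A|) = Real.exp (b * |A|) /
                Real.exp (Real.pi * |A|) := by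
              rw [← Real.exp_sub]
              congr 1
              ring
            have e2 : Real.exp (-Real.pi * |A|) = 1 / Real.exp (Real.pi * |A|) := by
              rw [neg_mul, Real.exp_neg, one_div]
            rw [e1, e2]
            have := Real.exp_pos (Real.pi * |A|)
            field_simp
    have h2 := intervalIntegral.norm_integral_le_of_norm_le_const h1
    have h3 : |(1 / 2 : ℝ) - -1 / 2| = 1 := by norm_num
    rw [h3, mul_one] at h2
    exact h2
  have hlim0 : Tendsto (fun A : ℝ => 4 * (C * Real.exp (-(Real.pi - b) * |A|) +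
      ‖m 0‖ * Real.exp (-Real.pi * |A|))) atTop (𝓝 0) := by
    have h1 : Tendsto (fun A : ℝ => Real.exp (-(Real.pi - b) * |A|)) atTop (𝓝 0) := by
      apply Real.tendsto_exp_atBot.comp
      exact (tendsto_abs_atTop_atTop).const_mul_atTop_of_neg (by linarith)
    have h2 : Tendsto (fun A : ℝ => Real.exp (-Real.pi * |A|)) atTop (𝓝 0) := by
      apply Real.tendsto_exp_atBot.comp
      exact (tendsto_abs_atTop_atTop).const_mul_atTop_of_neg (by linarith)
    have h3 := ((h1.const_mul C).add (h2.const_mul ‖m 0‖)).const_mul 4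
    simpa using h3
  have hV1 : Tendsto (fun A : ℝ => ∫ y in (-1 / 2 : ℝ)..(1 / 2), g ((A : ℂ) + y * Complex.I))
      atTop (𝓝 0) := by
    rw [tendsto_zero_iff_norm_tendsto_zero]
    refine squeeze_zero' (Eventually.of_forall fun A => norm_nonneg _) ?_ hlim0
    filter_upwards [eventually_ge_atTop 1] with A hA
    apply hvert A
    rw [abs_of_pos (by linarith)]
    exact hA
  have hV2 : Tendsto (fun A : ℝ => ∫ y in (-1 / 2 : ℝ)..(1 / 2),
      g (((-A : ℝ) : ℂ) + y * Complex.I)) atTop (𝓝 0) := by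
    rw [tendsto_zero_iff_norm_tendsto_zero]
    refine squeeze_zero' (Eventually.of_forall fun A => norm_nonneg _) ?_ hlim0
    filter_upwards [eventually_ge_atTop 1] with A hA
    have h1 := hvert (-A) (by rw [abs_neg, abs_of_pos (by linarith)]; exact hA)
    rw [abs_neg] at h1
    exact h1
  have hrect : ∀ A : ℝ, 0 < A → (∫ t in (-A)..A, g ((t : ℂ) - Complex.I / 2)) -
      (∫ t in (-A)..A, g ((t : ℂ) + Complex.I / 2)) +
      Complex.I • (∫ y in (-1 / 2 : ℝ)..(1 / 2), g ((A : ℂ) + y * Complex.I)) -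
      Complex.I • (∫ y in (-1 / 2 : ℝ)..(1 / 2), g (((-A : ℝ) : ℂ) + y * Complex.I)) = 0 := by
    intro A hA
    have hA' : -A ≤ A := by linarith
    have h := Complex.integral_boundary_rect_eq_zero_of_differentiable_on_off_countable g
      ⟨-A, -1 / 2⟩ ⟨A, 1 / 2⟩ {0} (Set.countable_singleton 0) ?_ ?_
    · simp only at h
      have e1 : ∀ t : ℝ, (t : ℂ) + ((-1 / 2 : ℝ) : ℂ) * Complex.I = (t : ℂ) - Complex.I / 2 := by
        intro t; push_cast; ring
      have e2 : ∀ t : ℝ, (t : ℂ) + ((1 / 2 : ℝ) : ℂ) * Complex.I = (t : ℂ) + Complex.I / 2 := by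
        intro t; push_cast; ring
      simp only [e1, e2] at h
      exact h
    · refine hgc.mono ?_
      intro z hz
      rw [Complex.mem_reProdIm] at hz
      have h2 := hz.2
      simp only at h2
      rw [Set.uIcc_of_le (by norm_num)] at h2
      change |z.im| ≤ 1 / 2
      rw [abs_le]
      constructor
      · linarith [h2.1]
      · exact h2.2
    · intro z hz
      obtain ⟨hz1, hz2⟩ := hz
      rw [Complex.mem_reProdIm] at hz1
      have h2 := hz1.2
      simp only at h2
      apply hgd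
      · rw [abs_lt]
        constructor
        · have h3 := h2.1
          rw [min_eq_left (by norm_num)] at h3
          linarith
        · have h3 := h2.2
          rw [max_eq_right (by norm_num)] at h3
          exact h3
      · intro h0
        exact hz2 h0
  have hfin : (∫ t : ℝ, g ((t : ℂ) - Complex.I / 2)) - (∫ t : ℝ, g ((t : ℂ) + Complex.I / 2)) = 0 := by
    have h1 := ((hT1.sub hT2).add (hV1.const_smul Complex.I)).sub (hV2.const_smul Complex.I)
    have h2 : Tendsto (fun A : ℝ => (0 : ℂ)) atTop (𝓝 ((∫ t : ℝ, g ((t : ℂ) - Complex.I / 2)) -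
        (∫ t : ℝ, g ((t : ℂ) + Complex.I / 2)) + Complex.I • (0 : ℂ) - Complex.I • (0 : ℂ))) := by
      refine h1.congr' ?_
      filter_upwards [eventually_gt_atTop 0] with A hA
      exact hrect A hA
    have h3 := tendsto_nhds_unique h2 tendsto_const_nhds
    simpa using h3
  have hE1 : ∫ t : ℝ, g ((t : ℂ) - Complex.I / 2) = Complex.I *
      ∫ t : ℝ, (m ((t : ℂ) - Complex.I / 2) - m 0) / ((Real.cosh (Real.pi * t) : ℝ) : ℂ) := by
    rw [← integral_const_mul]
    exact integral_congr_ae (ae_of_all _ hv1)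
  have hE2 : ∫ t : ℝ, g ((t : ℂ) + Complex.I / 2) = -Complex.I *
      ∫ t : ℝ, (m ((t : ℂ) + Complex.I / 2) - m 0) / ((Real.cosh (Real.pi * t) : ℝ) : ℂ) := by
    rw [← integral_const_mul]
    exact integral_congr_ae (ae_of_all _ hv2)
  rw [hE1, hE2] at hfin
  have hsum : (∫ t : ℝ, (m ((t : ℂ) - Complex.I / 2) - m 0) / ((Real.cosh (Real.pi * t) : ℝ) : ℂ))
      + (∫ t : ℝ, (m ((t : ℂ) + Complex.I / 2) - m 0) / ((Real.cosh (Real.pi * t) : ℝ) : ℂ)) = 0 := by
    have h1 : Complex.I * ((∫ t : ℝ, (m ((t : ℂ) - Complex.I / 2) - m 0) /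
      ((Real.cosh (Real.pi * t) : ℝ) : ℂ))
      + (∫ t : ℝ, (m ((t : ℂ) + Complex.I / 2) - m 0) / ((Real.cosh (Real.pi * t) : ℝ) : ℂ))) = 0 := by
      linear_combination hfin
    rcases mul_eq_zero.mp h1 with h2 | h2
    · exact absurd h2 Complex.I_ne_zero
    · exact h2
  rw [← integral_add hI1 hI2] at hsum
  have hsech : Integrable (fun t : ℝ => m 0 * ((1 / Real.cosh (Real.pi * t) : ℝ) : ℂ)) := by
    have h1 : Integrable (fun t : ℝ => 1 / Real.cosh (Real.pi * t)) := by
      have := sech_integrable 0 (by rw [abs_zero]; exact hpi)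
      simpa using this
    exact h1.ofReal.const_mul _
  have hsechv : ∫ t : ℝ, m 0 * ((1 / Real.cosh (Real.pi * t) : ℝ) : ℂ) = m 0 := by
    have h9 : ∫ t : ℝ, ((1 / Real.cosh (Real.pi * t) : ℝ) : ℂ) =
        ((∫ t : ℝ, 1 / Real.cosh (Real.pi * t) : ℝ) : ℂ) := integral_ofReal
    rw [integral_const_mul, h9, sech_integral]
    simp
  have hhalf : Integrable (fun t : ℝ => (1 / 2 : ℂ) * ((m ((t : ℂ) - Complex.I / 2) - m 0) /
        ((Real.cosh (Real.pi * t) : ℝ) : ℂ) + (m ((t : ℂ) + Complex.I / 2) - m 0) /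
        ((Real.cosh (Real.pi * t) : ℝ) : ℂ))) := (hI1.add hI2).const_mul (1 / 2 : ℂ)
  have hfinal : ∫ t : ℝ, (m (t - Complex.I / 2) + m (t + Complex.I / 2)) /
      (2 * Real.cosh (Real.pi * t) : ℝ) =
      ∫ t : ℝ, ((1 / 2 : ℂ) * ((m ((t : ℂ) - Complex.I / 2) - m 0) /
        ((Real.cosh (Real.pi * t) : ℝ) : ℂ) + (m ((t : ℂ) + Complex.I / 2) - m 0) /
        ((Real.cosh (Real.pi * t) : ℝ) : ℂ)) + m 0 * ((1 / Real.cosh (Real.pi * t) : ℝ) : ℂ)) := by
    apply integral_congr_ae
    refine ae_of_all _ fun t => ?_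
    have h2 : ((Real.cosh (Real.pi * t) : ℝ) : ℂ) ≠ 0 := by
      exact_mod_cast (Real.cosh_pos _).ne'
    simp only [Complex.ofReal_mul, Complex.ofReal_div, Complex.ofReal_one, Complex.ofReal_ofNat]
    field_simp
    ring
  rw [hfinal, integral_add hhalf hsech, hsechv, integral_const_mul, hsum]
  simp

end H52TT
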