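import Pool.Agent.H52.TT.JdA
import Pool.Agent.H52.TT.StP
import Pool.Agent.H52.BC.MdI

/-!
Row InT.  `x = ∫ exp(-θ t)/(2 cosh πt) U(t) J y J U(-t) dt` (weakly).  `U = UT R`, `T = cal R (pw ½ ½)`, `Y = J y J`.

First for `α = T α'`, `β = T β'`.  For `|Im z| ≤ 1/2` let `E z = cal R (pw (1/2 + i z) (1/2 - i z))` (real parts `1/2 ∓ Im z ≥ 0`, sum `1`): `‖E z‖ ≤ 2`, strongly continuous, differentiable inside
(`cal_pw_cont`, `cal_pw_diff`), `star (E z) = E (-(conj z))` (`conj (i z) = -i conj z`).  `E 0 = T`, `E (t - i/2) = cal (pw (1 + i t) (-i t)) = (2 - R) U t = U t (2 - R)`, `E (t + i/2) = cal (pw (i t) (1 - i t)) = U t R`,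
(`cal_pw_mul`, `cal_pw_R`, `cal_pw_R'`, `UT_pw_comm`).
`G z = ⟪β', E z (x (E (-z) α'))⟫ = ⟪E (-(conj z)) β', x (E (-z) α')⟫` is continuous on the closed strip and holomorphic inside (inside: `z ↦ E z` and `z ↦ E (-z)` are norm differentiable; on the closed strip use the second
expression and strong continuity).  `|G z| ≤ 4 ‖x‖ ‖α'‖ ‖β'‖`.  `m z = exp(-θ z) G z`, `|m z| ≤ C exp(|θ| |Re z|)`.
`m (t - i/2) = exp(-θ t) λ ⟪β', U t (2-R) x R U(-t) α'⟫` (`exp(iθ/2) = λ`; `E (-(t - i/2)) = E (-t + i/2) = U (-t) R`), `m (t + i/2) = exp(-θ t) λ̄ ⟪β', U t R x (2-R) U (-t) α'⟫`.  By `hid` the sum is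
`exp(-θ t) ⟪β', U t (D (y (D (U(-t) α'))))⟫`, and `D = J T = T J` (`JT`, `TJ`) gives `D y D = T J y J T`: `= exp(-θ t) ⟪T β', U t J y J U(-t) T α'⟫` (`UT_pw_comm`, `star T = T`).
`m 0 = ⟪β', T x T α'⟫ = ⟪T β', x T α'⟫`.  `strip_poisson`.
Then all `α, β`: the range of `T` is dense (`dense_of_inj`), both sides are bounded sesquilinear in `(β, α)`: `|right side| ≤ ‖y‖ ‖α‖ ‖β‖ ∫ exp(-θt)/(2 cosh πt) dt` (`sech_integrable`), the integrand is continuous in `t`.
-/

open MeasureTheory Filter Topology H52BC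

noncomputable section

namespace H52TT

variable {H : Type*} [NormedAddCommGroup H] [InnerProductSpace ℂ H] [CompleteSpace H]
variable {M : VonNeumannAlgebra H} {ζ : H} {R : H →L[ℂ] H} {D : H →L⋆[ℂ] H} {J : H ≃ₗᵢ⋆[ℂ] H}

/-- `E z = (2 - R)^(1/2 + i z) R^(1/2 - i z)` -/
def intE (R : H →L[ℂ] H) (z : ℂ) : H →L[ℂ] H :=
  cal R (pw (1 / 2 + Complex.I * z) (1 / 2 - Complex.I * z))

theorem int_re1 (z : ℂ) : (1 / 2 + Complex.I * z : ℂ).re = 1 / 2 - z.im := by
  have h : (1 / 2 : ℂ).re = 1 / 2 := by norm_num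
  rw [Complex.add_re, Complex.mul_re, Complex.I_re, Complex.I_im, h]
  ring

theorem int_re2 (z : ℂ) : (1 / 2 - Complex.I * z : ℂ).re = 1 / 2 + z.im := by
  have h : (1 / 2 : ℂ).re = 1 / 2 := by norm_num
  rw [Complex.sub_re, Complex.mul_re, Complex.I_re, Complex.I_im, h]
  ring

theorem int_pos1 (z : ℂ) (hz : |z.im| ≤ 1 / 2) : 0 ≤ (1 / 2 + Complex.I * z : ℂ).re := by
  rw [int_re1]
  have := (abs_le.1 hz).2
  linarith

theorem int_pos2 (z : ℂ) (hz : |z.im| ≤ 1 / 2) : 0 ≤ (1 / 2 - Complex.I * z : ℂ).re := by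
  rw [int_re2]
  have := (abs_le.1 hz).1
  linarith

theorem int_norm (hR : RR R) (z : ℂ) (hz : |z.im| ≤ 1 / 2) : ‖intE R z‖ ≤ 2 := by
  have h := cal_pw_norm hR (int_pos1 z hz) (int_pos2 z hz)
  rw [int_re1, int_re2] at h
  have h2 : (1 / 2 - z.im + (1 / 2 + z.im)) = 1 := by ring
  rw [h2, one_mul, Real.exp_log (by norm_num)] at h
  exact h

theorem int_star (hR : RR R) (z : ℂ) (hz : |z.im| ≤ 1 / 2) :
    star (intE R z) = intE R (-(starRingEnd ℂ) z) := by
  unfold intE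
  rw [cal_pw_star hR (int_pos1 z hz) (int_pos2 z hz)]
  have h1 : (starRingEnd ℂ) (1 / 2 + Complex.I * z) =
      1 / 2 + Complex.I * (-(starRingEnd ℂ) z) := by
    rw [map_add, map_mul, Complex.conj_I, map_div₀, map_one, Complex.conj_ofNat]
    ring
  have h2 : (starRingEnd ℂ) (1 / 2 - Complex.I * z) =
      1 / 2 - Complex.I * (-(starRingEnd ℂ) z) := by
    rw [map_sub, map_mul, Complex.conj_I, map_div₀, map_one, Complex.conj_ofNat]
    ring
  rw [h1, h2]

theorem int_zero : intE R 0 = cal R (pw (1 / 2) (1 / 2)) := by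
  unfold intE
  rw [mul_zero, add_zero, sub_zero]

theorem int_It (t : ℝ) : (Complex.I * t : ℂ).re = 0 := by
  simp

theorem int_low (hR : RR R) (t : ℝ) (ξ : H) :
    intE R (t - Complex.I / 2) ξ = UT R t ((2 : ℂ) • ξ - R ξ) := by
  have h1 : (1 / 2 + Complex.I * ((t : ℂ) - Complex.I / 2)) = Complex.I * t + 1 := by
    linear_combination (-1 / 2 : ℂ) * Complex.I_mul_I
  have h2 : (1 / 2 - Complex.I * ((t : ℂ) - Complex.I / 2)) = -(Complex.I * t) + 0 := by
    linear_combination (1 / 2 : ℂ) * Complex.I_mul_I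
  unfold intE
  rw [h1, h2, ← cal_pw_mul hR (int_It t).ge (by rw [Complex.neg_re, int_It, neg_zero])
    (by norm_num) (by norm_num), cal_pw_R' hR]
  rfl

theorem int_high (hR : RR R) (t : ℝ) (ξ : H) :
    intE R (t + Complex.I / 2) ξ = UT R t (R ξ) := by
  have h1 : (1 / 2 + Complex.I * ((t : ℂ) + Complex.I / 2)) = Complex.I * t + 0 := by
    linear_combination (1 / 2 : ℂ) * Complex.I_mul_I
  have h2 : (1 / 2 - Complex.I * ((t : ℂ) + Complex.I / 2)) = -(Complex.I * t) + 1 := by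
    linear_combination (-1 / 2 : ℂ) * Complex.I_mul_I
  unfold intE
  rw [h1, h2, ← cal_pw_mul hR (int_It t).ge (by rw [Complex.neg_re, int_It, neg_zero])
    (by norm_num) (by norm_num), cal_pw_R hR]
  rfl

theorem int_UR (hR : RR R) (t : ℝ) (ξ : H) : UT R t (R ξ) = R (UT R t ξ) := by
  have h := UT_pw_comm hR (a := 0) (b := 1) (by norm_num) (by norm_num) t
  rw [cal_pw_R hR] at h
  exact congrArg (fun A : H →L[ℂ] H => A ξ) h

theorem int_U2R (hR : RR R) (t : ℝ) (ξ : H) :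
    UT R t ((2 : ℂ) • ξ - R ξ) = (2 : ℂ) • UT R t ξ - R (UT R t ξ) := by
  rw [map_sub, map_smul, int_UR hR]

theorem int_inner_star (A : H →L[ℂ] H) (ξ η : H) : inner ℂ ξ (A η) = inner ℂ (star A ξ) η := by
  rw [ContinuousLinearMap.star_eq_adjoint, ContinuousLinearMap.adjoint_inner_left]

/-- the function on the strip -/
def intM (R x : H →L[ℂ] H) (θ : ℝ) (α β : H) (z : ℂ) : ℂ :=
  Complex.exp (-(θ * z)) * inner ℂ β (intE R z (x (intE R (-z) α)))

theorem int_contE (hR : RR R) (α : H) :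
    ContinuousOn (fun z => intE R (-z) α) {z : ℂ | |z.im| ≤ 1 / 2} := by
  refine cal_pw_cont hR {z : ℂ | |z.im| ≤ 1 / 2} (fun z => 1 / 2 + Complex.I * -z)
    (fun z => 1 / 2 - Complex.I * -z) (by fun_prop) (by fun_prop) 1 (fun z hz => ?_) α
  have hz' : |(-z).im| ≤ 1 / 2 := by
    rw [Complex.neg_im, abs_neg]
    exact hz
  refine ⟨int_pos1 _ hz', int_pos2 _ hz', ?_⟩
  rw [int_re1, int_re2]
  linarith

theorem int_contE' (hR : RR R) (α : H) :
    ContinuousOn (fun z => intE R (-(starRingEnd ℂ) z) α) {z : ℂ | |z.im| ≤ 1 / 2} := by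
  have hc : Continuous (fun z : ℂ => (starRingEnd ℂ) z) := Complex.continuous_conj
  refine cal_pw_cont hR {z : ℂ | |z.im| ≤ 1 / 2} (fun z => 1 / 2 + Complex.I * -(starRingEnd ℂ) z)
    (fun z => 1 / 2 - Complex.I * -(starRingEnd ℂ) z)
    (continuous_const.add (continuous_const.mul hc.neg)).continuousOn
    (continuous_const.sub (continuous_const.mul hc.neg)).continuousOn 1 (fun z hz => ?_) α
  have hz' : |(-(starRingEnd ℂ) z).im| ≤ 1 / 2 := by
    rw [Complex.neg_im, Complex.conj_im, neg_neg]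
    exact hz
  refine ⟨int_pos1 _ hz', int_pos2 _ hz', ?_⟩
  rw [int_re1, int_re2]
  linarith

theorem int_cont (hR : RR R) (x : H →L[ℂ] H) (θ : ℝ) (α β : H) :
    ContinuousOn (intM R x θ α β) {z : ℂ | |z.im| ≤ 1 / 2} := by
  have h1 : ContinuousOn (fun z : ℂ => Complex.exp (-(θ * z)) *
      inner ℂ (intE R (-(starRingEnd ℂ) z) β) (x (intE R (-z) α))) {z : ℂ | |z.im| ≤ 1 / 2} := by
    refine ContinuousOn.mul (by fun_prop) ?_
    exact (int_contE' hR β).inner (x.continuous.comp_continuousOn (int_contE hR α))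
  refine h1.congr fun z hz => ?_
  unfold intM
  rw [int_inner_star, int_star hR z hz]

theorem int_diff (hR : RR R) (x : H →L[ℂ] H) (θ : ℝ) (α β : H) :
    DifferentiableOn ℂ (intM R x θ α β) {z : ℂ | |z.im| < 1 / 2} := by
  have hS : IsOpen {z : ℂ | |z.im| < 1 / 2} :=
    isOpen_lt (continuous_abs.comp Complex.continuous_im) continuous_const
  have h1 : DifferentiableOn ℂ (fun z => intE R z) {z : ℂ | |z.im| < 1 / 2} := by
    refine cal_pw_diff hR _ hS (fun z => 1 / 2 + Complex.I * z) (fun z => 1 / 2 - Complex.I * z)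
      (by fun_prop) (by fun_prop) 1 (fun z hz => ?_)
    refine ⟨int_pos1 _ (le_of_lt hz), int_pos2 _ (le_of_lt hz), ?_⟩
    rw [int_re1, int_re2]
    linarith
  have h2 : DifferentiableOn ℂ (fun z => intE R (-z)) {z : ℂ | |z.im| < 1 / 2} := by
    refine cal_pw_diff hR _ hS (fun z => 1 / 2 + Complex.I * -z) (fun z => 1 / 2 - Complex.I * -z)
      (by fun_prop) (by fun_prop) 1 (fun z hz => ?_)
    have hz' : |(-z).im| ≤ 1 / 2 := by
      rw [Complex.neg_im, abs_neg]
      exact le_of_lt hz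
    refine ⟨int_pos1 _ hz', int_pos2 _ hz', ?_⟩
    rw [int_re1, int_re2]
    linarith
  have h3 : DifferentiableOn ℂ (fun z => intE R (-z) α) {z : ℂ | |z.im| < 1 / 2} :=
    h2.clm_apply (differentiableOn_const α)
  have h4 : DifferentiableOn ℂ (fun z => x (intE R (-z) α)) {z : ℂ | |z.im| < 1 / 2} :=
    x.differentiable.comp_differentiableOn h3
  have h5 : DifferentiableOn ℂ (fun z => intE R z (x (intE R (-z) α)))
      {z : ℂ | |z.im| < 1 / 2} := h1.clm_apply h4
  have h6 : DifferentiableOn ℂ (fun z => innerSL ℂ β (intE R z (x (intE R (-z) α))))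
      {z : ℂ | |z.im| < 1 / 2} := (innerSL ℂ β).differentiable.comp_differentiableOn h5
  have h7 : DifferentiableOn ℂ (fun z : ℂ => Complex.exp (-(θ * z))) {z : ℂ | |z.im| < 1 / 2} := by
    fun_prop
  exact h7.mul h6

theorem int_bound (hR : RR R) (x : H →L[ℂ] H) (θ : ℝ) (α β : H) (z : ℂ) (hz : |z.im| ≤ 1 / 2) :
    ‖intM R x θ α β z‖ ≤ (4 * ‖x‖ * ‖α‖ * ‖β‖) * Real.exp (|θ| * |z.re|) := by
  have hz' : |(-z).im| ≤ 1 / 2 := by
    rw [Complex.neg_im, abs_neg]
    exact hz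
  unfold intM
  rw [norm_mul, Complex.norm_exp]
  have h1 : (-(θ * z) : ℂ).re = -(θ * z.re) := by
    rw [Complex.neg_re, Complex.re_ofReal_mul]
  have h2 : Real.exp (-(θ * z.re)) ≤ Real.exp (|θ| * |z.re|) := by
    refine Real.exp_le_exp.2 ?_
    rw [← abs_mul]
    exact neg_le_abs _
  have h3 : ‖inner ℂ β (intE R z (x (intE R (-z) α)))‖ ≤ 4 * ‖x‖ * ‖α‖ * ‖β‖ := by
    calc ‖inner ℂ β (intE R z (x (intE R (-z) α)))‖
        ≤ ‖β‖ * ‖intE R z (x (intE R (-z) α))‖ := norm_inner_le_norm _ _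
      _ ≤ ‖β‖ * (2 * (‖x‖ * (2 * ‖α‖))) := by
          refine mul_le_mul_of_nonneg_left ?_ (norm_nonneg _)
          refine (ContinuousLinearMap.le_opNorm _ _).trans ?_
          refine mul_le_mul (int_norm hR z hz) ?_ (norm_nonneg _) (by norm_num)
          refine (ContinuousLinearMap.le_opNorm _ _).trans ?_
          refine mul_le_mul_of_nonneg_left ?_ (norm_nonneg _)
          refine (ContinuousLinearMap.le_opNorm _ _).trans ?_
          exact mul_le_mul_of_nonneg_right (int_norm hR _ hz') (norm_nonneg _)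
      _ = 4 * ‖x‖ * ‖α‖ * ‖β‖ := by ring
  rw [h1, mul_comm]
  exact mul_le_mul h3 h2 (Real.exp_nonneg _) (by positivity)

theorem int_exp_low (θ t : ℝ) : Complex.exp (-(θ * ((t : ℂ) - Complex.I / 2))) =
    (Real.exp (-(θ * t)) : ℂ) * lam θ := by
  unfold lam
  rw [Complex.ofReal_exp, ← Complex.exp_add]
  congr 1
  push_cast
  ring

theorem int_exp_high (θ t : ℝ) : Complex.exp (-(θ * ((t : ℂ) + Complex.I / 2))) =
    (Real.exp (-(θ * t)) : ℂ) * (starRingEnd ℂ) (lam θ) := by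
  unfold lam
  rw [← Complex.exp_conj, Complex.ofReal_exp, ← Complex.exp_add]
  congr 1
  rw [map_div₀, map_mul, Complex.conj_I, Complex.conj_ofReal, Complex.conj_ofNat]
  push_cast
  ring

theorem int_sum (hR : RR R) (hJ : JData R D J) (x y : H →L[ℂ] H) (θ : ℝ)
    (hid : ∀ u : H, D (y (D u)) = lam θ • ((2 : ℂ) • x (R u) - R (x (R u))) +
      (starRingEnd ℂ) (lam θ) • R (x ((2 : ℂ) • u - R u))) (α β : H) (t : ℝ) :
    intM R x θ α β (t - Complex.I / 2) + intM R x θ α β (t + Complex.I / 2) =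
      (Real.exp (-(θ * t)) : ℂ) * inner ℂ (cal R (pw (1 / 2) (1 / 2)) β)
        (UT R t (J (y (J (UT R (-t) (cal R (pw (1 / 2) (1 / 2)) α)))))) := by
  obtain ⟨T, hT⟩ : ∃ T, T = cal R (pw (1 / 2) (1 / 2)) := ⟨_, rfl⟩
  have hre : (0 : ℝ) ≤ (1 / 2 : ℂ).re := by norm_num
  have hTs : star T = T := by
    rw [hT, cal_pw_star hR hre hre, map_div₀, map_one, Complex.conj_ofNat]
  have hcomm : ∀ s ξ, UT R s (T ξ) = T (UT R s ξ) := by
    intro s ξ
    have h := UT_pw_comm hR hre hre s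
    rw [← hT] at h
    exact congrArg (fun A : H →L[ℂ] H => A ξ) h
  have e1 : -((t : ℂ) - Complex.I / 2) = ((-t : ℝ) : ℂ) + Complex.I / 2 := by
    push_cast
    ring
  have e2 : -((t : ℂ) + Complex.I / 2) = ((-t : ℝ) : ℂ) - Complex.I / 2 := by
    push_cast
    ring
  unfold intM
  rw [int_exp_low, int_exp_high, e1, e2, int_low hR, int_high hR, int_high hR, int_low hR,
    int_UR hR, int_U2R hR (-t)]
  have h1 : inner ℂ (T β) (UT R t (J (y (J (UT R (-t) (T α)))))) =
      inner ℂ β (UT R t (D (y (D (UT R (-t) α))))) := by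
    rw [← hJ.JT (UT R (-t) α), ← hJ.TJ (y _), ← hT, hcomm t, int_inner_star T, hTs, hcomm (-t)]
  rw [← hT, h1, hid, map_add, map_smul, map_smul, inner_add_right, inner_smul_right,
    inner_smul_right]
  ring

theorem int_core (hR : RR R) (hJ : JData R D J) (x y : H →L[ℂ] H) (θ : ℝ)
    (hθ : |θ| < Real.pi)
    (hid : ∀ u : H, D (y (D u)) = lam θ • ((2 : ℂ) • x (R u) - R (x (R u))) +
      (starRingEnd ℂ) (lam θ) • R (x ((2 : ℂ) • u - R u))) (α β : H) :
    inner ℂ (cal R (pw (1 / 2) (1 / 2)) β) (x (cal R (pw (1 / 2) (1 / 2)) α)) =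
      ∫ t : ℝ, ((Real.exp (-(θ * t)) / (2 * Real.cosh (Real.pi * t)) : ℝ) : ℂ) *
        inner ℂ (cal R (pw (1 / 2) (1 / 2)) β)
          (UT R t (J (y (J (UT R (-t) (cal R (pw (1 / 2) (1 / 2)) α)))))) := by
  have hre : (0 : ℝ) ≤ (1 / 2 : ℂ).re := by norm_num
  have h := strip_poisson (intM R x θ α β) (int_cont hR x θ α β) (int_diff hR x θ α β) |θ|
    (4 * ‖x‖ * ‖α‖ * ‖β‖) (abs_nonneg θ) hθ (int_bound hR x θ α β)
  have h0 : intM R x θ α β 0 =
      inner ℂ (cal R (pw (1 / 2) (1 / 2)) β) (x (cal R (pw (1 / 2) (1 / 2)) α)) := by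
    unfold intM
    rw [mul_zero, neg_zero, Complex.exp_zero, one_mul, int_zero, int_inner_star,
      cal_pw_star hR hre hre, map_div₀, map_one, Complex.conj_ofNat]
  rw [h0] at h
  rw [h]
  refine integral_congr_ae (Filter.Eventually.of_forall fun t => ?_)
  simp only
  rw [int_sum hR hJ x y θ hid α β t]
  push_cast
  ring

theorem integral_rep (hR : RR R) (hJ : JData R D J) (x y : H →L[ℂ] H) (θ : ℝ)
    (hθ : |θ| < Real.pi)
    (hid : ∀ u : H, D (y (D u)) = lam θ • ((2 : ℂ) • x (R u) - R (x (R u))) +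
      (starRingEnd ℂ) (lam θ) • R (x ((2 : ℂ) • u - R u))) (α β : H) :
    inner ℂ β (x α) = ∫ t : ℝ, ((Real.exp (-(θ * t)) / (2 * Real.cosh (Real.pi * t)) : ℝ) : ℂ) *
      inner ℂ β (UT R t (J (y (J (UT R (-t) α))))) := by
  have hre : (0 : ℝ) ≤ (1 / 2 : ℂ).re := by norm_num
  have hTs : star (cal R (pw (1 / 2) (1 / 2))) = cal R (pw (1 / 2) (1 / 2)) := by
    rw [cal_pw_star hR hre hre, map_div₀, map_one, Complex.conj_ofNat]
  have hTi : ∀ ξ, cal R (pw (1 / 2) (1 / 2)) ξ = 0 → ξ = 0 := by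
    intro ξ hξ
    have h1 : (cal R (pw (1 / 2) (1 / 2)) * cal R (pw (1 / 2) (1 / 2))) ξ = 0 := by
      show cal R (pw (1 / 2) (1 / 2)) (cal R (pw (1 / 2) (1 / 2)) ξ) = 0
      rw [hξ, map_zero]
    have e1 : (1 / 2 + 1 / 2 : ℂ) = 0 + 1 := by norm_num
    have e2 : (1 / 2 + 1 / 2 : ℂ) = 1 + 0 := by norm_num
    have h2 : cal R (pw (1 / 2 + 1 / 2) (1 / 2 + 1 / 2)) = R * ((2 : ℂ) • 1 - R) := by
      nth_rewrite 1 [e1]
      rw [e2, ← cal_pw_mul hR (by norm_num) (by norm_num) (by norm_num) (by norm_num),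
        cal_pw_R hR, cal_pw_R' hR]
    rw [cal_pw_mul hR hre hre hre hre, h2] at h1
    have h3 : R ((2 : ℂ) • ξ - R ξ) = 0 := h1
    have h4 := hR.inj _ h3
    exact hR.inj' ξ (sub_eq_zero.1 h4).symm
  have hd := dense_of_inj _ hTs hTi
  have hcont : ∀ α β : H, Continuous fun t : ℝ =>
      ((Real.exp (-(θ * t)) / (2 * Real.cosh (Real.pi * t)) : ℝ) : ℂ) *
        inner ℂ β (UT R t (J (y (J (UT R (-t) α))))) := by
    intro α β
    have h1 : Continuous fun t : ℝ => UT R (-t) β := (UT_cont hR β).comp continuous_neg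
    have h2 : Continuous fun t : ℝ => UT R (-t) α := (UT_cont hR α).comp continuous_neg
    have h3 : Continuous fun t : ℝ => J (y (J (UT R (-t) α))) :=
      J.continuous.comp (y.continuous.comp (J.continuous.comp h2))
    have h4 : Continuous fun t : ℝ => inner ℂ β (UT R t (J (y (J (UT R (-t) α))))) := by
      have h5 : (fun t : ℝ => inner ℂ β (UT R t (J (y (J (UT R (-t) α)))))) =
          fun t : ℝ => inner ℂ (UT R (-t) β) (J (y (J (UT R (-t) α)))) := by
        funext t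
        rw [int_inner_star, UT_star hR]
      rw [h5]
      exact h1.inner h3
    refine Continuous.mul (Complex.continuous_ofReal.comp ?_) h4
    refine Continuous.div (by fun_prop) (by fun_prop) fun t => ?_
    have := Real.cosh_pos (Real.pi * t)
    positivity
  have hbd : ∀ α β : H, ∀ t : ℝ, ‖((Real.exp (-(θ * t)) / (2 * Real.cosh (Real.pi * t)) : ℝ) : ℂ) *
      inner ℂ β (UT R t (J (y (J (UT R (-t) α)))))‖ ≤
      (‖β‖ * (‖y‖ * ‖α‖)) * (Real.exp (-θ * t) / Real.cosh (Real.pi * t)) := by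
    intro α β t
    have hc := Real.cosh_pos (Real.pi * t)
    rw [norm_mul, Complex.norm_real, Real.norm_of_nonneg (by positivity), mul_comm]
    refine mul_le_mul ?_ ?_ (by positivity) (by positivity)
    · refine (norm_inner_le_norm _ _).trans (mul_le_mul_of_nonneg_left ?_ (norm_nonneg _))
      rw [UT_norm hR, J.norm_map]
      refine (ContinuousLinearMap.le_opNorm _ _).trans ?_
      rw [J.norm_map, UT_norm hR]
    · rw [neg_mul]
      refine div_le_div_of_nonneg_left (Real.exp_nonneg _) hc ?_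
      linarith
  have hint := sech_integrable (-θ) (by rwa [abs_neg])
  have hclosed : IsClosed {p : H × H | inner ℂ p.1 (x p.2) =
      ∫ t : ℝ, ((Real.exp (-(θ * t)) / (2 * Real.cosh (Real.pi * t)) : ℝ) : ℂ) *
        inner ℂ p.1 (UT R t (J (y (J (UT R (-t) p.2)))))} := by
    refine isClosed_eq (continuous_fst.inner (x.continuous.comp continuous_snd)) ?_
    rw [continuous_iff_continuousAt]
    rintro ⟨β0, α0⟩
    refine MeasureTheory.continuousAt_of_dominated (bound := fun t =>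
      ((‖β0‖ + 1) * (‖y‖ * (‖α0‖ + 1))) * (Real.exp (-θ * t) / Real.cosh (Real.pi * t))) ?_ ?_ ?_ ?_
    · exact Filter.Eventually.of_forall fun p => (hcont p.2 p.1).aestronglyMeasurable
    · have h1 : ∀ᶠ p : H × H in 𝓝 (β0, α0), ‖p.1‖ < ‖β0‖ + 1 :=
        (continuous_fst.norm.continuousAt (x := (β0, α0))).eventually
          (gt_mem_nhds (by simp))
      have h2 : ∀ᶠ p : H × H in 𝓝 (β0, α0), ‖p.2‖ < ‖α0‖ + 1 :=
        (continuous_snd.norm.continuousAt (x := (β0, α0))).eventually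
          (gt_mem_nhds (by simp))
      filter_upwards [h1, h2] with p hp1 hp2
      refine Filter.Eventually.of_forall fun t => (hbd p.2 p.1 t).trans ?_
      have hc := Real.cosh_pos (Real.pi * t)
      refine mul_le_mul_of_nonneg_right ?_ (by positivity)
      gcongr
    · exact hint.const_mul _
    · refine Filter.Eventually.of_forall fun t => Continuous.continuousAt ?_
      refine continuous_const.mul (continuous_fst.inner ?_)
      exact (UT R t).continuous.comp (J.continuous.comp (y.continuous.comp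
        (J.continuous.comp ((UT R (-t)).continuous.comp continuous_snd))))
  have hdd : DenseRange (Prod.map (cal R (pw (1 / 2) (1 / 2))) (cal R (pw (1 / 2) (1 / 2)))) :=
    hd.prodMap hd
  exact hdd.induction_on (p := fun p : H × H => inner ℂ p.1 (x p.2) =
      ∫ t : ℝ, ((Real.exp (-(θ * t)) / (2 * Real.cosh (Real.pi * t)) : ℝ) : ℂ) *
        inner ℂ p.1 (UT R t (J (y (J (UT R (-t) p.2)))))) (β, α) hclosed
    fun p => int_core hR hJ x y θ hθ hid p.2 p.1

end H52TT
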