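import Pool.Agent.H52.TT.PwA

/-!
Row JdA.  The polar decomposition `D = J T`.

`T = cal R (pw (1/2) (1/2))`: `star T = T` (`cal_pw_star`), `T T = cal R (pw 1 1) = (2 - R) R` (`cal_pw_mul`), injective (`T ξ = 0 ⇒ (2-R) R ξ = 0 ⇒ ξ = 0`), so dense range (`dense_of_inj`).
`‖D ξ‖² = ⟪D ξ, D ξ⟫ = ⟪D (D ξ), ξ⟫ = ⟪R (2 - R) ξ, ξ⟫ = ‖T ξ‖²` (`D_sym` with `η = D ξ`, `DD`).  So `J (T ξ) := D ξ` is well defined, conjugate linear, isometric on the dense range of `T`; extend.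
`D T = T D` (`cal_pw_conj` with `E = D`: `conj (1/2) = 1/2`).  `J (J (T (T ξ))) = J (D (T ξ)) = J (T (D ξ)) = D (D ξ) = R (2-R) ξ = T (T ξ)`; `T T` has dense range: `J J = 1`, so `J` is bijective.
`T (J (T ξ)) = T (D ξ) = D (T ξ)`: `T J = D`.
`pwJ`: on `T ξ`: `J (cal (pw a b) (T ξ)) = J (T (cal (pw a b) ξ)) = D (cal (pw a b) ξ) = cal (pw b̄ ā) (D ξ) = cal (pw b̄ ā) (J (T ξ))`.
`RvD.zeta`: `memM` with `x = 1`: `2 ζ - R ζ = D ζ`, `memM'` with `y = 1`: `R ζ = D ζ`; so `R ζ = ζ = D ζ`.  `J ζ = J (T ζ) = D ζ = ζ` (`cal_pw_eig`).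
-/

open MeasureTheory Filter Topology H52BC

noncomputable section

namespace H52TT

variable {H : Type*} [NormedAddCommGroup H] [InnerProductSpace ℂ H] [CompleteSpace H]
variable {M : VonNeumannAlgebra H} {ζ : H} {R : H →L[ℂ] H} {D : H →L⋆[ℂ] H} {J : H ≃ₗᵢ⋆[ℂ] H}

theorem jda_half : (starRingEnd ℂ) (1 / 2 : ℂ) = 1 / 2 := by
  rw [map_div₀, map_one, map_ofNat]

theorem jda_half_re : 0 ≤ (1 / 2 : ℂ).re := by
  norm_num

theorem jda_TT (hR : RR R) (ξ : H) :
    cal R (pw (1 / 2) (1 / 2)) (cal R (pw (1 / 2) (1 / 2)) ξ) = R ((2 : ℂ) • ξ - R ξ) := by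
  have h1 : cal R (pw (1 / 2) (1 / 2)) * cal R (pw (1 / 2) (1 / 2)) =
      ((2 : ℂ) • 1 - R) * R := by
    rw [cal_pw_mul hR jda_half_re jda_half_re jda_half_re jda_half_re]
    have e : (1 / 2 + 1 / 2 : ℂ) = 1 := by norm_num
    rw [e, ← cal_pw_R' hR]
    nth_rewrite 3 [← cal_pw_R hR]
    rw [cal_pw_mul hR (by norm_num) (by norm_num) (by norm_num) (by norm_num)]
    norm_num
  have h2 := congrArg (fun A : H →L[ℂ] H => A ξ) h1
  simp only [mul_apply_eq_comp, sub_apply,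
    smul_apply, one_apply_eq_self] at h2
  rw [h2, map_sub, map_smul]

theorem jda_star (hR : RR R) :
    star (cal R (pw (1 / 2) (1 / 2))) = cal R (pw (1 / 2) (1 / 2)) := by
  rw [cal_pw_star hR jda_half_re jda_half_re, jda_half]

theorem jda_inj (hR : RR R) (ξ : H) (h : cal R (pw (1 / 2) (1 / 2)) ξ = 0) : ξ = 0 := by
  have h1 := jda_TT hR ξ
  rw [h, map_zero] at h1
  have h2 : (2 : ℂ) • ξ - R ξ = 0 := hR.inj _ h1.symm
  exact hR.inj' ξ (sub_eq_zero.1 h2).symm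

theorem jda_dense (hR : RR R) : DenseRange (cal R (pw (1 / 2) (1 / 2))) :=
  dense_of_inj _ (jda_star hR) (jda_inj hR)

theorem jda_inner (hR : RR R) (ξ η : H) :
    inner ℂ (cal R (pw (1 / 2) (1 / 2)) ξ) η = inner ℂ ξ (cal R (pw (1 / 2) (1 / 2)) η) := by
  nth_rewrite 1 [← jda_star hR]
  rw [ContinuousLinearMap.star_eq_adjoint, ContinuousLinearMap.adjoint_inner_left]

theorem jda_norm (h : RvD M ζ R D) (ξ : H) : ‖D ξ‖ = ‖cal R (pw (1 / 2) (1 / 2)) ξ‖ := by
  have hR := h.toRR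
  have h1 : inner ℂ (D ξ) (D ξ) = inner ℂ (cal R (pw (1 / 2) (1 / 2)) ξ)
      (cal R (pw (1 / 2) (1 / 2)) ξ) := by
    rw [h.D_sym, h.DD, ← jda_TT hR, jda_inner hR]
  rw [inner_self_eq_norm_sq_to_K, inner_self_eq_norm_sq_to_K] at h1
  have h2 : ‖D ξ‖ ^ 2 = ‖cal R (pw (1 / 2) (1 / 2)) ξ‖ ^ 2 := by exact_mod_cast h1
  exact (sq_eq_sq₀ (norm_nonneg _) (norm_nonneg _)).1 h2

theorem jda_comm (h : RvD M ζ R D) (ξ : H) :
    D (cal R (pw (1 / 2) (1 / 2)) ξ) = cal R (pw (1 / 2) (1 / 2)) (D ξ) := by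
  have := cal_pw_conj h.toRR jda_half_re jda_half_re D h.DR ξ
  rwa [jda_half] at this

theorem exists_JData (h : RvD M ζ R D) : ∃ J : H ≃ₗᵢ⋆[ℂ] H, JData R D J := by
  have hR := h.toRR
  set T := cal R (pw (1 / 2) (1 / 2)) with hT
  have hTd : DenseRange T := jda_dense hR
  have hb : ∀ x, ‖D.toLinearMap x‖ ≤ 1 * ‖T.toLinearMap x‖ := fun x => by
    rw [one_mul]; exact (jda_norm h x).le
  set J0 : H →L⋆[ℂ] H := D.toLinearMap.extendOfNorm T.toLinearMap with hJ0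
  have hJT : ∀ ξ, J0 (T ξ) = D ξ := fun ξ => LinearMap.extendOfNorm_eq (f := D.toLinearMap)
    (e := T.toLinearMap) hTd ⟨1, hb⟩ ξ
  have hTT : DenseRange (T ∘ T) := hTd.comp hTd T.continuous
  have hinv : ∀ x, J0 (J0 x) = x := by
    have : (J0 ∘ J0 : H → H) = id := by
      apply hTT.equalizer (J0.continuous.comp J0.continuous) continuous_id
      funext ξ
      simp only [Function.comp_apply, id]
      rw [hJT, jda_comm h, hJT, h.DD, ← jda_TT hR]
    exact fun x => congrFun this x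
  have hTJ : ∀ x, T (J0 x) = D x := by
    have : (T ∘ J0 : H → H) = D := by
      apply hTd.equalizer (T.continuous.comp J0.continuous) D.continuous
      funext ξ
      simp only [Function.comp_apply]
      rw [hJT, jda_comm h]
    exact fun x => congrFun this x
  have hnorm : ∀ x, ‖J0 x‖ = ‖x‖ := by
    have : (fun x => ‖J0 x‖) = fun x : H => ‖x‖ := by
      apply hTd.equalizer (continuous_norm.comp J0.continuous) continuous_norm
      funext ξ
      simp only [Function.comp_apply]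
      rw [hJT, jda_norm h]
    exact fun x => congrFun this x
  let J : H ≃ₗᵢ⋆[ℂ] H :=
    { LinearEquiv.ofInvolutive J0.toLinearMap hinv with
      norm_map' := hnorm }
  have hJ : ∀ x, J x = J0 x := fun x => rfl
  refine ⟨J, ?_, ?_, ?_, ?_⟩
  · intro ξ; rw [hJ, hJ, hinv]
  · intro ξ; rw [hJ]; exact hJT ξ
  · intro ξ; rw [hJ]; exact hTJ ξ
  · intro a b ha hb' ξ
    rw [hJ, hJ]
    have hb'' : 0 ≤ ((starRingEnd ℂ) b).re := by rw [Complex.conj_re]; exact hb'
    have ha'' : 0 ≤ ((starRingEnd ℂ) a).re := by rw [Complex.conj_re]; exact ha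
    have : (J0 ∘ cal R (pw a b) : H → H) =
        cal R (pw ((starRingEnd ℂ) b) ((starRingEnd ℂ) a)) ∘ J0 := by
      apply hTd.equalizer (J0.continuous.comp (cal R (pw a b)).continuous)
        ((cal R (pw ((starRingEnd ℂ) b) ((starRingEnd ℂ) a))).continuous.comp J0.continuous)
      funext ξ
      simp only [Function.comp_apply]
      have e1 : cal R (pw a b) (T ξ) = T (cal R (pw a b) ξ) := by
        have e2 : cal R (pw a b) * T = T * cal R (pw a b) := by
          rw [hT, cal_pw_mul hR ha hb' jda_half_re jda_half_re,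
            cal_pw_mul hR jda_half_re jda_half_re ha hb', add_comm a, add_comm b]
        exact congrArg (fun A : H →L[ℂ] H => A ξ) e2
      rw [e1, hJT, hJT, cal_pw_conj hR ha hb' D h.DR]
    exact congrFun this ξ

theorem RvD.zeta (h : RvD M ζ R D) : R ζ = ζ ∧ D ζ = ζ := by
  have h1 := h.memM 1 (one_mem M)
  have h2 := h.memM' 1 (one_mem M.commutant)
  rw [star_one, one_apply_eq_self] at h1 h2
  rw [← h2] at h1
  have h3 : R ζ = ζ := by
    have h4 : (2 : ℂ) • ζ = (2 : ℂ) • R ζ := by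
      rw [sub_eq_iff_eq_add] at h1; rw [h1, two_smul]
    exact (smul_right_injective H (two_ne_zero' ℂ) h4).symm
  exact ⟨h3, by rw [← h2, h3]⟩

theorem JData.zeta (h : RvD M ζ R D) (hJ : JData R D J) : J ζ = ζ := by
  have h1 := hJ.JT ζ
  rw [cal_pw_eig h.toRR jda_half_re jda_half_re ζ h.zeta.1, h.zeta.2] at h1
  exact h1

/-- the data of the commutant -/
theorem RvD.swap (h : RvD M ζ R D) : RvD M.commutant ζ ((2 : ℂ) • 1 - R) D := by
  have e : ∀ ξ : H, ((2 : ℂ) • (1 : H →L[ℂ] H) - R) ξ = (2 : ℂ) • ξ - R ξ := fun ξ => by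
    simp only [sub_apply, smul_apply,
      one_apply_eq_self]
  refine ⟨h.toRR.swap, h.D_sym, ?_, ?_, ?_, ?_, ?_, ?_⟩
  · intro ξ
    rw [e, e, sub_sub_cancel, h.DD, map_sub, map_smul]
  · intro ξ
    rw [e, e, sub_sub_cancel, map_sub, h.DR]
    have : D ((2 : ℂ) • ξ) = (2 : ℂ) • D ξ := by
      rw [map_smulₛₗ, map_ofNat]
    rw [this, sub_sub_cancel]
  · intro y hy
    rw [e, sub_sub_cancel]; exact h.memM' y hy
  · intro x hx
    rw [VonNeumannAlgebra.commutant_commutant] at hx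
    rw [e]; exact h.memM x hx
  · intro ξ hξ
    rw [e, sub_sub_cancel] at hξ
    exact h.dens' ξ hξ
  · intro ξ hξ
    rw [e] at hξ
    rw [VonNeumannAlgebra.commutant_commutant]
    exact h.dens ξ hξ

theorem JData.swap (h : RvD M ζ R D) (hJ : JData R D J) : JData ((2 : ℂ) • 1 - R) D J := by
  have hR := h.toRR
  refine ⟨hJ.invol, ?_, ?_, ?_⟩
  · intro ξ; rw [cal_pw_swap hR jda_half_re jda_half_re]; exact hJ.JT ξ
  · intro ξ; rw [cal_pw_swap hR jda_half_re jda_half_re]; exact hJ.TJ ξ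
  · intro a b ha hb ξ
    rw [cal_pw_swap hR ha hb, cal_pw_swap hR (by rw [Complex.conj_re]; exact hb)
      (by rw [Complex.conj_re]; exact ha)]
    exact hJ.pwJ b a hb ha ξ

/-- `J` commutes with `Δ^{it}` -/
theorem JData.UT (hR : RR R) (hJ : JData R D J) (t : ℝ) (ξ : H) :
    J (UT R t ξ) = UT R t (J ξ) := by
  have h := hJ.pwJ (Complex.I * t) (-(Complex.I * t)) (by simp) (by simp) ξ
  have e1 : (starRingEnd ℂ) (-(Complex.I * t)) = Complex.I * t := by
    rw [map_neg, map_mul, Complex.conj_I, Complex.conj_ofReal]; ring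
  have e2 : (starRingEnd ℂ) (Complex.I * t) = -(Complex.I * t) := by
    rw [map_mul, Complex.conj_I, Complex.conj_ofReal]; ring
  rw [e1, e2] at h
  exact h

end H52TT
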