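import Pool.Agent.H52.BC.Tech

/-!
# Tomita-Takesaki theory after Rieffel and van Daele: technical definitions

`M` von Neumann algebra with cyclic and separating vector `ζ`.  `P`, `Q` = real orthogonal projections onto the closure `K` of `{x ζ : x = x* ∈ M}` and onto `i K`,
`R = P + Q` (complex linear, `0 ≤ R ≤ 2`), `D = P - Q` (conjugate linear), `D² = R (2 - R)`, `T = (R (2 - R))^{1/2}`, `D = J T`, `Δ^{it} = (2 - R)^{it} R^{-it}`.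
-/

open MeasureTheory Filter Topology H52BC

noncomputable section

namespace H52TT

variable {H : Type*} [NormedAddCommGroup H] [InnerProductSpace ℂ H] [CompleteSpace H]

/-- continuous bounded functions on the open interval `(0, 2)` -/
def AW (w : ℝ → ℂ) : Prop :=
  ContinuousOn w (Set.Ioo 0 2) ∧ ∃ C : ℝ, ∀ r ∈ Set.Ioo (0 : ℝ) 2, ‖w r‖ ≤ C

/-- `w(r) r (2 - r)` extended by zero: continuous on `ℝ` -/
def ext (w : ℝ → ℂ) (r : ℝ) : ℂ := if 0 < r ∧ r < 2 then w r * ((r * (2 - r) : ℝ) : ℂ) else 0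

/-- `0 ≤ R ≤ 2`, `R` and `2 - R` injective -/
structure RR (R : H →L[ℂ] H) : Prop where
  sa : star R = R
  pos : ∀ ξ, 0 ≤ (inner ℂ ξ (R ξ)).re
  le : ∀ ξ, (inner ℂ ξ (R ξ)).re ≤ 2 * ‖ξ‖ ^ 2
  inj : ∀ ξ, R ξ = 0 → ξ = 0
  inj' : ∀ ξ, R ξ = (2 : ℂ) • ξ → ξ = 0

open Classical in
/-- the functional calculus `w(R)` for `AW w`: the operator with `w(R) R (2 - R) = (w(r) r (2 - r))(R)` -/
def cal (R : H →L[ℂ] H) (w : ℝ → ℂ) : H →L[ℂ] H :=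
  if h : ∃ X : H →L[ℂ] H, X * (R * ((2 : ℂ) • 1 - R)) = cfc (fun z : ℂ => ext w z.re) R
  then h.choose else 0

/-- `(2 - r)^a r^b` -/
def pw (a b : ℂ) (r : ℝ) : ℂ := Complex.exp (a * Real.log (2 - r) + b * Real.log r)

/-- `(2 - R)^{it} R^{-it}` -/
def UT (R : H →L[ℂ] H) (t : ℝ) : H →L[ℂ] H := cal R (pw (Complex.I * t) (-(Complex.I * t)))

/-- the Rieffel - van Daele data of `(M, ζ)` -/
structure RvD (M : VonNeumannAlgebra H) (ζ : H) (R : H →L[ℂ] H) (D : H →L⋆[ℂ] H) : Prop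
    extends RR R where
  D_sym : ∀ ξ η, inner ℂ (D ξ) η = inner ℂ (D η) ξ
  DD : ∀ ξ, D (D ξ) = R ((2 : ℂ) • ξ - R ξ)
  DR : ∀ ξ, D (R ξ) = (2 : ℂ) • D ξ - R (D ξ)
  memM : ∀ x ∈ M, (2 : ℂ) • x ζ - R (x ζ) = D (star x ζ)
  memM' : ∀ y ∈ M.commutant, R (y ζ) = D (star y ζ)
  dens : ∀ ξ, (2 : ℂ) • ξ - R ξ = D ξ → ξ ∈ closure {η : H | ∃ x ∈ M, star x = x ∧ η = x ζ}
  dens' : ∀ ξ, R ξ = D ξ → ξ ∈ closure {η : H | ∃ y ∈ M.commutant, star y = y ∧ η = y ζ}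

/-- `J` is the conjugation of the polar decomposition `D = J T = T J`, `T = (R (2 - R))^{1/2}` -/
structure JData (R : H →L[ℂ] H) (D : H →L⋆[ℂ] H) (J : H ≃ₗᵢ⋆[ℂ] H) : Prop where
  invol : ∀ ξ, J (J ξ) = ξ
  JT : ∀ ξ, J (cal R (pw (1 / 2) (1 / 2)) ξ) = D ξ
  TJ : ∀ ξ, cal R (pw (1 / 2) (1 / 2)) (J ξ) = D ξ
  pwJ : ∀ a b : ℂ, 0 ≤ a.re → 0 ≤ b.re → ∀ ξ,
    J (cal R (pw a b) ξ) = cal R (pw ((starRingEnd ℂ) b) ((starRingEnd ℂ) a)) (J ξ)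

/-- `λ = exp(iθ/2)` -/
def lam (θ : ℝ) : ℂ := Complex.exp (Complex.I * θ / 2)

end H52TT
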