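import Pool.Agent.H52.TT.RnA
import Pool.Agent.H52.TT.Defs
import Pool.Agent.H52.BC.EdM

/-!
Row RnC.  The Radon - Nikodym theorem.
-/

open MeasureTheory Filter Topology H52BC

noncomputable section

namespace H52TT

variable {H : Type*} [NormedAddCommGroup H] [InnerProductSpace ℂ H] [CompleteSpace H]
variable {M : VonNeumannAlgebra H} {ζ : H} {R : H →L[ℂ] H} {D : H →L⋆[ℂ] H}

theorem rnc_re_swap (a b : H) : (inner ℂ a b : ℂ).re = (inner ℂ b a : ℂ).re := by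
  have h := inner_conj_symm (𝕜 := ℂ) b a
  rw [← congrArg Complex.re h]
  exact (Complex.conj_re _).symm

theorem rnc_key (h : RvD M ζ R D) (ξ k : H) (hk : (2 : ℂ) • k - R k = D k) :
    (inner ℂ (R ξ + D ξ) k : ℂ).re = 2 * (inner ℂ ξ k : ℂ).re := by
  have h1 : inner ℂ (R ξ) k = (inner ℂ ξ (R k) : ℂ) := by
    have : R ξ = (star R) ξ := by rw [h.sa]
    rw [this, ContinuousLinearMap.star_eq_adjoint, ContinuousLinearMap.adjoint_inner_left]
  have h2 : (inner ℂ (D ξ) k : ℂ).re = (inner ℂ ξ (D k) : ℂ).re := by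
    rw [h.D_sym, rnc_re_swap]
  rw [inner_add_left, Complex.add_re, h1, h2, ← hk, inner_sub_right, inner_smul_right]
  simp

theorem rnc_memK (h : RvD M ζ R D) (η : H) :
    (2 : ℂ) • (R η + D η) - R (R η + D η) = D (R η + D η) := by
  rw [map_add D, h.DR, h.DD]
  simp only [map_add, map_sub, map_smul]
  module

theorem rnc_imzero (y z : H →L[ℂ] H) (hy : y ∈ M.commutant) (hys : star y = y) (hz : z ∈ M)
    (hzs : star z = z) : (inner ℂ (y ζ) (z ζ) : ℂ).im = 0 := by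
  have hc : y (z ζ) = z (y ζ) := by
    have := (VonNeumannAlgebra.mem_commutant_iff.1 hy) z hz
    have h2 := congrArg (fun T : H →L[ℂ] H => T ζ) this
    simpa using h2.symm
  have e1 : inner ℂ (y ζ) (z ζ) = (inner ℂ ζ (y (z ζ)) : ℂ) := by
    conv_lhs => rw [← hys]
    rw [ContinuousLinearMap.star_eq_adjoint, ContinuousLinearMap.adjoint_inner_left]
  have e2 : inner ℂ (z ζ) (y ζ) = (inner ℂ ζ (z (y ζ)) : ℂ) := by
    conv_lhs => rw [← hzs]
    rw [ContinuousLinearMap.star_eq_adjoint, ContinuousLinearMap.adjoint_inner_left]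
  have e3 : inner ℂ (y ζ) (z ζ) = (inner ℂ (z ζ) (y ζ) : ℂ) := by rw [e1, e2, hc]
  have e4 := inner_conj_symm (𝕜 := ℂ) (y ζ) (z ζ)
  rw [← e3] at e4
  exact Complex.conj_eq_iff_im.1 e4

theorem rnc_exists (h : RvD M ζ R D) (hsep : ∀ x ∈ M, x ζ = 0 → x = 0) (y : H →L[ℂ] H)
    (hy : y ∈ M.commutant) (hys : star y = y) (l : ℂ) (hl : 0 < l.re) :
    ∃ x ∈ M, star x = x ∧
      R ((starRingEnd ℂ) l • x ζ) + D ((starRingEnd ℂ) l • x ζ) = R (y ζ) := by
  have hden := dense_commutant (M := M) (ζ := ζ) hsep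
  set κ : ℝ := 2 * l.re with hκ
  have hκ0 : 0 < κ := by positivity
  set c : ℝ := ‖y‖ / κ with hc
  have hc0 : 0 ≤ c := by positivity
  set C : Set H := {ξ : H | ∃ x ∈ M, star x = x ∧ ‖x‖ ≤ c ∧ ξ = x ζ} with hC
  have hCcl : IsClosed C := ball_closed hden c
  set A : H → H := fun ξ => R ((starRingEnd ℂ) l • ξ) + D ((starRingEnd ℂ) l • ξ) with hA
  have hAsub : ∀ a b, A (a - b) = A a - A b := by
    intro a b
    simp only [hA, smul_sub, map_sub]
    abel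
  have hAadd : ∀ a b, A (a + b) = A a + A b := by
    intro a b
    simp only [hA, smul_add, map_add]
    abel
  have hAsmul : ∀ (t : ℝ) a, A ((t : ℂ) • a) = (t : ℂ) • A a := by
    intro t a
    have e : (starRingEnd ℂ) l • (t : ℂ) • a = (t : ℂ) • (starRingEnd ℂ) l • a := by
      rw [smul_comm]
    show R ((starRingEnd ℂ) l • (t : ℂ) • a) + D ((starRingEnd ℂ) l • (t : ℂ) • a) =
      (t : ℂ) • (R ((starRingEnd ℂ) l • a) + D ((starRingEnd ℂ) l • a))
    rw [e, R.map_smul, D.map_smulₛₗ, Complex.conj_ofReal, smul_add]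
  have hAnorm : ∀ ξ, ‖A ξ‖ ≤ (‖R‖ + ‖D‖) * (‖l‖ * ‖ξ‖) := by
    intro ξ
    have h1 : ‖(starRingEnd ℂ) l • ξ‖ = ‖l‖ * ‖ξ‖ := by
      rw [norm_smul, RCLike.norm_conj]
    calc ‖A ξ‖ ≤ ‖R ((starRingEnd ℂ) l • ξ)‖ + ‖D ((starRingEnd ℂ) l • ξ)‖ := norm_add_le _ _
      _ ≤ ‖R‖ * ‖(starRingEnd ℂ) l • ξ‖ + ‖D‖ * ‖(starRingEnd ℂ) l • ξ‖ :=
        add_le_add (R.le_opNorm _) (D.le_opNorm _)
      _ = (‖R‖ + ‖D‖) * (‖l‖ * ‖ξ‖) := by rw [h1]; ring
  have hAcont : Continuous A := by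
    simp only [hA]
    exact (R.continuous.comp (continuous_const_smul _)).add
      (D.continuous.comp (continuous_const_smul _))
  have hAkey : ∀ ξ k, (2 : ℂ) • k - R k = D k →
      (inner ℂ (A ξ) k : ℂ).re = 2 * (l * inner ℂ ξ k : ℂ).re := by
    intro ξ k hk
    have := rnc_key h ((starRingEnd ℂ) l • ξ) k hk
    rw [inner_smul_left, Complex.conj_conj] at this
    exact this
  have hAK : ∀ ξ, (2 : ℂ) • A ξ - R (A ξ) = D (A ξ) := fun ξ => rnc_memK h _
  have hCK : ∀ ξ ∈ C, (2 : ℂ) • ξ - R ξ = D ξ := by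
    rintro ξ ⟨x, hx, hxs, -, rfl⟩
    rw [h.memM x hx, hxs]
  have hKsub : ∀ a b, ((2 : ℂ) • a - R a = D a) → ((2 : ℂ) • b - R b = D b) →
      (2 : ℂ) • (a - b) - R (a - b) = D (a - b) := by
    intro a b ha hb
    rw [map_sub D, ← ha, ← hb, map_sub]
    module
  have hlow : ∀ ξ, (2 : ℂ) • ξ - R ξ = D ξ → κ * ‖ξ‖ ≤ ‖A ξ‖ := by
    intro ξ hξ
    have h1 := hAkey ξ ξ hξ
    have h2 : (l * inner ℂ ξ ξ : ℂ).re = l.re * ‖ξ‖ ^ 2 := by
      rw [inner_self_eq_norm_sq_to_K]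
      have : ((‖ξ‖ : ℂ) ^ 2) = ((‖ξ‖ ^ 2 : ℝ) : ℂ) := by push_cast; rfl
      show (l * (‖ξ‖ : ℂ) ^ 2).re = _
      rw [this, Complex.re_mul_ofReal]
    have h3 : (inner ℂ (A ξ) ξ : ℂ).re ≤ ‖A ξ‖ * ‖ξ‖ :=
      (Complex.re_le_norm _).trans (norm_inner_le_norm _ _)
    rcases eq_or_lt_of_le (norm_nonneg ξ) with h0 | h0
    · rw [← h0]
      simp
    · have h4 : κ * ‖ξ‖ * ‖ξ‖ ≤ ‖A ξ‖ * ‖ξ‖ := by
        rw [h1, h2] at h3
        calc κ * ‖ξ‖ * ‖ξ‖ = 2 * (l.re * ‖ξ‖ ^ 2) := by rw [hκ]; ring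
          _ ≤ _ := h3
      exact le_of_mul_le_mul_right h4 h0
  have hclosed : IsClosed (A '' C) := by
    have h1 : IsClosed (Set.range (fun ξ : C => A ξ)) := by
      have : CompleteSpace C := hCcl.completeSpace_coe
      have hanti : AntilipschitzWith (Real.toNNReal κ⁻¹) (fun ξ : C => A ξ) := by
        apply AntilipschitzWith.of_le_mul_dist
        intro a b
        have h2 := hlow (a - b) (hKsub _ _ (hCK a a.2) (hCK b b.2))
        rw [hAsub] at h2
        rw [Real.coe_toNNReal _ (by positivity), Subtype.dist_eq, dist_eq_norm, dist_eq_norm]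
        rw [← div_eq_inv_mul, le_div_iff₀ hκ0, mul_comm]
        exact h2
      have hlip : LipschitzWith (Real.toNNReal ((‖R‖ + ‖D‖) * ‖l‖)) (fun ξ : C => A ξ) := by
        apply LipschitzWith.of_dist_le_mul
        intro a b
        rw [Real.coe_toNNReal _ (by positivity), Subtype.dist_eq, dist_eq_norm, dist_eq_norm,
          ← hAsub, mul_assoc]
        exact hAnorm _
      exact hanti.isClosed_range hlip.uniformContinuous
    have h2 : A '' C = Set.range (fun ξ : C => A ξ) := by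
      ext w
      simp
    rw [h2]
    exact h1
  have hconvC : Convex ℝ C := by
    intro a ha b hb s t hs ht hst
    obtain ⟨x, hx, hxs, hxn, rfl⟩ := ha
    obtain ⟨x', hx', hxs', hxn', rfl⟩ := hb
    refine ⟨(s : ℂ) • x + (t : ℂ) • x', ?_, ?_, ?_, ?_⟩
    · exact add_mem (M.smul_mem hx _) (M.smul_mem hx' _)
    · rw [star_add, star_smul, star_smul, hxs, hxs']
      simp
    · calc ‖(s : ℂ) • x + (t : ℂ) • x'‖ ≤ ‖(s : ℂ) • x‖ + ‖(t : ℂ) • x'‖ := norm_add_le _ _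
        _ = s * ‖x‖ + t * ‖x'‖ := by
          rw [norm_smul, norm_smul, Complex.norm_real, Complex.norm_real, Real.norm_of_nonneg hs,
            Real.norm_of_nonneg ht]
        _ ≤ s * c + t * c := by gcongr
        _ = c := by rw [← add_mul, hst, one_mul]
    · simp
  have hconv : Convex ℝ (A '' C) := by
    rintro _ ⟨a, ha, rfl⟩ _ ⟨b, hb, rfl⟩ s t hs ht hst
    refine ⟨s • a + t • b, hconvC ha hb hs ht hst, ?_⟩
    rw [hAadd]
    congr 1
    · exact hAsmul s a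
    · exact hAsmul t b
  have h0C : (0 : H) ∈ C := ⟨0, zero_mem _, by simp, by simpa using hc0, by simp⟩
  have hne : (A '' C).Nonempty := ⟨_, 0, h0C, rfl⟩
  set p : H := R (y ζ) with hp
  have hRD : R (y ζ) = D (y ζ) := by
    have := h.memM' y hy
    rw [hys] at this
    exact this
  have hpK : (2 : ℂ) • p - R p = D p := by
    rw [hp, h.DR, ← hRD]
  have hpk : ∀ k, (2 : ℂ) • k - R k = D k →
      (inner ℂ p k : ℂ).re = (inner ℂ (y ζ) k : ℂ).re := by
    intro k hk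
    have := rnc_key h (y ζ) k hk
    rw [← hRD, inner_add_left, Complex.add_re] at this
    linarith
  by_contra hcon
  have hpn : p ∉ A '' C := by
    rintro ⟨ξ, ⟨x, hx, hxs, -, rfl⟩, hξ⟩
    exact hcon ⟨x, hx, hxs, hξ⟩
  letI : InnerProductSpace ℝ H := InnerProductSpace.complexToReal
  obtain ⟨w0, hw0, hmin⟩ := exists_norm_eq_iInf_of_complete_convex hne hclosed.isComplete hconv p
  have hvar := (norm_eq_iInf_iff_real_inner_le_zero hconv hw0).1 hmin
  set η : H := p - w0 with hη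
  have hη0 : 0 < ‖η‖ := by
    rw [norm_pos_iff, hη, sub_ne_zero]
    rintro rfl
    exact hpn hw0
  have hηK : (2 : ℂ) • η - R η = D η := by
    apply hKsub _ _ hpK
    obtain ⟨ξ, -, rfl⟩ := hw0
    exact hAK ξ
  have hin : ∀ w ∈ A '' C, (inner ℂ η w : ℂ).re ≤ (inner ℂ η p : ℂ).re - ‖η‖ ^ 2 := by
    intro w hw
    have h1 := hvar w hw
    have h2 : (inner ℂ η (w - w0) : ℂ).re ≤ 0 := h1
    have h3 : w - w0 = w - p + η := by rw [hη]; abel
    rw [h3, inner_add_right, Complex.add_re, inner_sub_right, Complex.sub_re] at h2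
    have h4 : (inner ℂ η η : ℂ).re = ‖η‖ ^ 2 := by
      have := inner_self_eq_norm_sq (𝕜 := ℂ) η
      exact this
    rw [h4] at h2
    linarith
  set B : ℝ := (‖R‖ + ‖D‖) * (‖l‖ * (c * ‖ζ‖)) + ‖p‖ + 1 with hB
  have hB1 : 0 < B := by positivity
  set δ : ℝ := ‖η‖ ^ 2 / (2 * B) with hδ
  have hδ0 : 0 < δ := by positivity
  obtain ⟨zζ, ⟨z, hz, hzs, rfl⟩, hzd⟩ := Metric.mem_closure_iff.1 (h.dens η hηK) δ hδ0
  have hzK : (2 : ℂ) • z ζ - R (z ζ) = D (z ζ) := by rw [h.memM z hz, hzs]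
  obtain ⟨u, hu, hus, hun, him, hub⟩ := abs_bound z hz hzs y hy (‖η‖ ^ 2 / 4) (by positivity)
  set x : H →L[ℂ] H := (c : ℂ) • u with hx
  have hxn : ‖x‖ ≤ c := by
    rw [hx, norm_smul, Complex.norm_real, Real.norm_of_nonneg hc0]
    calc c * ‖u‖ ≤ c * 1 := by gcongr
      _ = c := mul_one c
  have hxC : x ζ ∈ C := by
    refine ⟨x, M.smul_mem hu _, ?_, hxn, rfl⟩
    rw [hx, star_smul, hus]
    simp
  have e1 := hin (A (x ζ)) ⟨_, hxC, rfl⟩
  have hdiff : ∀ w : H, |(inner ℂ η w : ℂ).re - (inner ℂ (z ζ) w : ℂ).re| ≤ δ * ‖w‖ := by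
    intro w
    rw [← Complex.sub_re, ← inner_sub_left]
    calc |(inner ℂ (η - z ζ) w : ℂ).re| ≤ ‖(inner ℂ (η - z ζ) w : ℂ)‖ := Complex.abs_re_le_norm _
      _ ≤ ‖η - z ζ‖ * ‖w‖ := norm_inner_le_norm _ _
      _ ≤ δ * ‖w‖ := by
        gcongr
        rw [← dist_eq_norm]
        exact hzd.le
  have e2 := abs_le.1 (hdiff (A (x ζ)))
  have e3 := abs_le.1 (hdiff p)
  have e4 : ‖A (x ζ)‖ + ‖p‖ ≤ B := by
    have h1 := hAnorm (x ζ)
    have h2 : ‖x ζ‖ ≤ c * ‖ζ‖ := (x.le_opNorm ζ).trans (by gcongr)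
    have h3 : (‖R‖ + ‖D‖) * (‖l‖ * ‖x ζ‖) ≤ (‖R‖ + ‖D‖) * (‖l‖ * (c * ‖ζ‖)) := by gcongr
    rw [hB]
    linarith
  have e5 : δ * (‖A (x ζ)‖ + ‖p‖) ≤ ‖η‖ ^ 2 / 2 := by
    calc δ * (‖A (x ζ)‖ + ‖p‖) ≤ δ * B := by gcongr
      _ = ‖η‖ ^ 2 / 2 := by
        rw [hδ]
        field_simp
  have e6 : (inner ℂ (z ζ) (A (x ζ)) : ℂ).re = ‖y‖ * (inner ℂ (u ζ) (z ζ) : ℂ).re := by
    rw [rnc_re_swap, hAkey _ _ hzK]
    have h1 : x ζ = (c : ℂ) • u ζ := by simp [hx]
    have h2 : (inner ℂ (u ζ) (z ζ) : ℂ) = ((inner ℂ (u ζ) (z ζ) : ℂ).re : ℂ) :=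
      (Complex.conj_eq_iff_re.1 (Complex.conj_eq_iff_im.2 him)).symm
    rw [h1, inner_smul_left, h2]
    simp only [Complex.conj_ofReal]
    rw [← Complex.ofReal_mul, Complex.re_mul_ofReal]
    rw [hc, hκ, Complex.ofReal_re]
    field_simp
  have e7 : (inner ℂ (z ζ) p : ℂ).re = (inner ℂ (y ζ) (z ζ) : ℂ).re := by
    rw [rnc_re_swap, hpk _ hzK]
  have e8 : (inner ℂ (y ζ) (z ζ) : ℂ).re ≤ ‖(inner ℂ (y ζ) (z ζ) : ℂ)‖ := Complex.re_le_norm _
  have e9 : 0 < ‖η‖ ^ 2 := by positivity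
  rw [mul_add] at e5
  linarith [e2.1, e2.2, e3.1, e3.2]

theorem radon_nikodym (h : RvD M ζ R D) (hsep : ∀ x ∈ M, x ζ = 0 → x = 0) (y : H →L[ℂ] H)
    (hy : y ∈ M.commutant) (hys : star y = y) (θ : ℝ) (hθ : |θ| < Real.pi) :
    ∃ x ∈ M, star x = x ∧ ∀ z ∈ M, inner ℂ (y ζ) (z ζ) =
      lam θ * inner ℂ (x ζ) (z ζ) + (starRingEnd ℂ) (lam θ) * inner ℂ (star z ζ) (x ζ) := by
  have hl : 0 < (lam θ).re := by
    unfold lam
    rw [Complex.exp_re]
    have h1 : (Complex.I * (θ : ℂ) / 2).re = 0 := by simp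
    have h2 : (Complex.I * (θ : ℂ) / 2).im = θ / 2 := by simp
    rw [h1, h2, Real.exp_zero, one_mul]
    apply Real.cos_pos_of_mem_Ioo
    have := abs_lt.1 hθ
    constructor <;> linarith [this.1, this.2]
  obtain ⟨x, hx, hxs, hA⟩ := rnc_exists h hsep y hy hys (lam θ) hl
  refine ⟨x, hx, hxs, ?_⟩
  set l := lam θ with hldef
  have hRD : R (y ζ) = D (y ζ) := by
    have := h.memM' y hy
    rw [hys] at this
    exact this
  have hsa : ∀ z ∈ M, star z = z → inner ℂ (y ζ) (z ζ) =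
      l * inner ℂ (x ζ) (z ζ) + (starRingEnd ℂ) l * inner ℂ (z ζ) (x ζ) := by
    intro z hz hzs
    have hzK : (2 : ℂ) • z ζ - R (z ζ) = D (z ζ) := by rw [h.memM z hz, hzs]
    have h1 := rnc_key h (y ζ) (z ζ) hzK
    rw [← hRD, inner_add_left, Complex.add_re] at h1
    have h2 := rnc_key h ((starRingEnd ℂ) l • x ζ) (z ζ) hzK
    rw [hA, inner_smul_left, Complex.conj_conj] at h2
    have h3 : (starRingEnd ℂ) l * inner ℂ (z ζ) (x ζ) =
        (starRingEnd ℂ) (l * inner ℂ (x ζ) (z ζ)) := by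
      rw [map_mul, inner_conj_symm]
    rw [h3, Complex.add_conj]
    apply Complex.ext
    · rw [Complex.ofReal_re]
      linarith
    · rw [Complex.ofReal_im]
      exact rnc_imzero y z hy hys hz hzs
  intro z hz
  set a : H →L[ℂ] H := (1 / 2 : ℂ) • (z + star z) with ha
  set b : H →L[ℂ] H := (-(Complex.I / 2) : ℂ) • (z - star z) with hb
  have haM : a ∈ M := M.smul_mem (add_mem hz (star_mem hz)) _
  have hbM : b ∈ M := M.smul_mem (sub_mem hz (star_mem hz)) _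
  have has : star a = a := by
    rw [ha, star_smul, star_add, star_star, add_comm (star z) z]
    simp
  have hbs : star b = b := by
    rw [hb, star_smul, star_sub, star_star, ← neg_sub z (star z), smul_neg, ← neg_smul]
    congr 1
    simp
    ring
  have hzab : z = a + Complex.I • b := by
    rw [ha, hb, smul_smul]
    have : Complex.I * -(Complex.I / 2) = 1 / 2 := by
      have := Complex.I_mul_I
      linear_combination (-1 / 2 : ℂ) * this
    rw [this]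
    module
  clear_value a b
  have hzs : star z = a - Complex.I • b := by
    rw [hzab, star_add, star_smul, has, hbs]
    simp [sub_eq_add_neg]
  rw [hzs]
  have h1 := hsa a haM has
  have h2 := hsa b hbM hbs
  have hz1 : z ζ = a ζ + Complex.I • b ζ := by
    conv_lhs => rw [hzab]
    simp
  have hz2 : (a - Complex.I • b) ζ = a ζ - Complex.I • b ζ := by simp
  rw [hz1, hz2, inner_add_right, inner_add_right, inner_sub_left, inner_smul_right,
    inner_smul_right, inner_smul_left, Complex.conj_I, h1, h2]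
  ring

end H52TT
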