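import Pool.Agent.H52.TT.OpI
import Pool.Agent.H52.TT.InT
import Pool.Agent.H52.TT.FuQ
import Pool.Agent.H52.TT.RnC
import Pool.Agent.H52.TT.JdA
import Pool.Agent.H52.BC.MdA
import Pool.Agent.H52.BC.MdI

/-!
Row ToM.  Tomita's theorem.

* `tomita_sa`: `y = y* ∈ M'`.  For every `θ`, `|θ| < π`: `radon_nikodym` gives `x_θ ∈ M`, `op_identity` + `integral_rep`: `⟪β, x_θ α⟫ = ∫ k_θ(t) ⟪β, Y_t α⟫ dt`, `Y_t = U t (J y J) U(-t)`.  Let `b ∈ M'`;
  `g(t) = ⟪star b β, Y_t α⟫ - ⟪β, Y_t (b α)⟫` is continuous and bounded, `∫ k_θ g = ⟪star b β, x_θ α⟫ - ⟪β, x_θ b α⟫ = 0` because `x_θ ∈ M` commutes with `b`.  `moments_uniq`: `g = 0`, i.e. `b Y_t = Y_t b` for all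
  `b ∈ M'`: `Y_t ∈ M'' = M`.  (Subtract the two integrals: both integrands are integrable, `sech_integrable`.)
* `tomita`: `y = y₁ + i y₂` with `y₁, y₂` self-adjoint in `M'`: `cj J y = cj J y₁ - i cj J y₂` (`cj_add`, `cj_smul`).
* `sigma_mem`: apply `tomita` to the commutant (`RvD.swap`, `JData.swap`; `M'' = M`; `hsep` for `M'`: `y ζ = 0`, `y ∈ M'` gives `y x ζ = x y ζ = 0` and `M ζ` dense, so `y = 0`) with `t = 0` (`UT_zero`): for `x ∈ M`:
  `cj J x ∈ M'`.  Then `tomita` for `y = cj J x`: `cj J (cj J x) = x` (`invol`): `U t x U (-t) ∈ M`.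
-/

open MeasureTheory Filter Topology H52BC

noncomputable section

namespace H52TT

variable {H : Type*} [NormedAddCommGroup H] [InnerProductSpace ℂ H] [CompleteSpace H]
variable {M : VonNeumannAlgebra H} {ζ : H} {R : H →L[ℂ] H} {D : H →L⋆[ℂ] H} {J : H ≃ₗᵢ⋆[ℂ] H}

theorem tom_cont (hR : RR R) (y : H →L[ℂ] H) (α β : H) :
    Continuous fun t : ℝ => (inner ℂ β (UT R t (J (y (J (UT R (-t) α))))) : ℂ) := by
  have h1 : (fun t : ℝ => (inner ℂ β (UT R t (J (y (J (UT R (-t) α))))) : ℂ)) =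
      fun t : ℝ => (inner ℂ (UT R (-t) β) (J (y (J (UT R (-t) α)))) : ℂ) := by
    funext t
    rw [← UT_star hR t, ContinuousLinearMap.star_eq_adjoint,
      ContinuousLinearMap.adjoint_inner_left]
  rw [h1]
  have hc : ∀ ξ : H, Continuous fun t : ℝ => UT R (-t) ξ := fun ξ =>
    (UT_cont hR ξ).comp continuous_neg
  exact (hc β).inner (J.continuous.comp (y.continuous.comp (J.continuous.comp (hc α))))

theorem tom_bound (hR : RR R) (y : H →L[ℂ] H) (α β : H) (t : ℝ) :
    ‖(inner ℂ β (UT R t (J (y (J (UT R (-t) α))))) : ℂ)‖ ≤ ‖β‖ * (‖y‖ * ‖α‖) := by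
  refine (norm_inner_le_norm _ _).trans ?_
  refine mul_le_mul_of_nonneg_left ?_ (norm_nonneg _)
  rw [UT_norm hR, J.norm_map]
  refine (y.le_opNorm _).trans ?_
  rw [J.norm_map, UT_norm hR]

theorem tom_int (hR : RR R) (y : H →L[ℂ] H) (α β : H) (θ : ℝ) (hθ : |θ| < Real.pi) :
    Integrable fun t : ℝ => ((Real.exp (-(θ * t)) / (2 * Real.cosh (Real.pi * t)) : ℝ) : ℂ) *
      inner ℂ β (UT R t (J (y (J (UT R (-t) α))))) := by
  have h1 : Integrable fun t : ℝ =>
      ((Real.exp (-(θ * t)) / (2 * Real.cosh (Real.pi * t)) : ℝ) : ℂ) := by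
    have h2 := (sech_integrable (-θ) (by rwa [abs_neg])).const_mul (1 / 2 : ℝ)
    have h3 : (fun t : ℝ => (1 / 2 : ℝ) * (Real.exp (-θ * t) / Real.cosh (Real.pi * t))) =
        fun t : ℝ => Real.exp (-(θ * t)) / (2 * Real.cosh (Real.pi * t)) := by
      funext t
      rw [neg_mul]
      have hc : Real.cosh (Real.pi * t) ≠ 0 := (Real.cosh_pos _).ne'
      field_simp
    rw [h3] at h2
    exact h2.ofReal
  exact h1.mul_bdd (c := ‖β‖ * (‖y‖ * ‖α‖)) (tom_cont hR y α β).aestronglyMeasurable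
    (Eventually.of_forall fun t => tom_bound hR y α β t)

theorem tomita_sa (h : RvD M ζ R D) (hsep : ∀ x ∈ M, x ζ = 0 → x = 0) (hJ : JData R D J)
    (y : H →L[ℂ] H) (hy : y ∈ M.commutant) (hys : star y = y) (t : ℝ) :
    UT R t * cj J y * UT R (-t) ∈ M := by
  have hR : RR R := h.toRR
  have key : ∀ b ∈ M.commutant, ∀ α β : H,
      (inner ℂ (star b β) (UT R t (J (y (J (UT R (-t) α))))) : ℂ) =
        inner ℂ β (UT R t (J (y (J (UT R (-t) (b α)))))) := by
    intro b hb α β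
    have hg := moments_uniq (fun t => inner ℂ (star b β) (UT R t (J (y (J (UT R (-t) α))))) -
      inner ℂ β (UT R t (J (y (J (UT R (-t) (b α)))))))
      ((tom_cont hR y α (star b β)).sub (tom_cont hR y (b α) β))
      (‖star b β‖ * (‖y‖ * ‖α‖) + ‖β‖ * (‖y‖ * ‖b α‖))
      (fun t => (norm_sub_le _ _).trans
        (add_le_add (tom_bound hR y α (star b β) t) (tom_bound hR y (b α) β t)))
      (fun θ hθ => ?_) t
    · exact sub_eq_zero.mp hg
    · obtain ⟨x, hxM, hxs, hx⟩ := radon_nikodym h hsep y hy hys θ hθ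
      have hid := op_identity h hsep x y hxM hxs hy θ hx
      have i1 := integral_rep hR hJ x y θ hθ hid α (star b β)
      have i2 := integral_rep hR hJ x y θ hθ hid (b α) β
      have hcomm : x * b = b * x := (VonNeumannAlgebra.mem_commutant_iff.mp hb x hxM)
      have h3 : (inner ℂ (star b β) (x α) : ℂ) = inner ℂ β (x (b α)) := by
        rw [ContinuousLinearMap.star_eq_adjoint, ContinuousLinearMap.adjoint_inner_left]
        have h4 : b (x α) = x (b α) := by
          have := congrArg (fun T : H →L[ℂ] H => T α) hcomm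
          exact this.symm
        rw [h4]
      simp only [mul_sub]
      rw [integral_sub (tom_int hR y α (star b β) θ hθ) (tom_int hR y (b α) β θ hθ), ← i1, ← i2,
        h3, sub_self]
  rw [← M.commutant_commutant, VonNeumannAlgebra.mem_commutant_iff]
  intro b hb
  ext α
  refine ext_inner_left ℂ (fun β => ?_)
  have h1 := key b hb α β
  rw [ContinuousLinearMap.star_eq_adjoint, ContinuousLinearMap.adjoint_inner_left] at h1
  exact h1

theorem tomita (h : RvD M ζ R D) (hsep : ∀ x ∈ M, x ζ = 0 → x = 0) (hJ : JData R D J)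
    (y : H →L[ℂ] H) (hy : y ∈ M.commutant) (t : ℝ) :
    UT R t * cj J y * UT R (-t) ∈ M := by
  set y1 : H →L[ℂ] H := (1 / 2 : ℂ) • (y + star y) with hy1
  set y2 : H →L[ℂ] H := (-(Complex.I / 2) : ℂ) • (y - star y) with hy2
  have hs : star y ∈ M.commutant := star_mem hy
  have m1 : y1 ∈ M.commutant := vna_smul_mem _ (add_mem hy hs)
  have m2 : y2 ∈ M.commutant := vna_smul_mem _ (sub_mem hy hs)
  have s1 : star y1 = y1 := by
    rw [hy1, star_smul, star_add, star_star, add_comm (star y) y]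
    congr 1
    simp
  have s2 : star y2 = y2 := by
    rw [hy2, star_smul, star_sub, star_star, ← neg_sub y (star y), smul_neg, ← neg_smul]
    congr 1
    simp
    ring
  have hdec : y = y1 + Complex.I • y2 := by
    rw [hy1, hy2, smul_smul]
    have : Complex.I * (-(Complex.I / 2)) = (1 / 2 : ℂ) := by
      have := Complex.I_mul_I
      linear_combination (-(1 / 2 : ℂ)) * this
    rw [this, ← smul_add]
    have h2 : y + star y + (y - star y) = (2 : ℂ) • y := by
      rw [two_smul]; abel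
    rw [h2, smul_smul]
    norm_num
  have e1 : UT R t * cj J y * UT R (-t) = UT R t * cj J y1 * UT R (-t) +
      (-Complex.I : ℂ) • (UT R t * cj J y2 * UT R (-t)) := by
    conv_lhs => rw [hdec]
    rw [cj_add J y1, cj_smul J Complex.I y2, Complex.conj_I, mul_add, add_mul, mul_smul_comm,
      smul_mul_assoc]
  rw [e1]
  exact add_mem (tomita_sa h hsep hJ y1 m1 s1 t) (vna_smul_mem _ (tomita_sa h hsep hJ y2 m2 s2 t))

theorem sigma_mem (h : RvD M ζ R D) (hcyc : Dense {ξ : H | ∃ x ∈ M, ξ = x ζ})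
    (hsep : ∀ x ∈ M, x ζ = 0 → x = 0) (hJ : JData R D J)
    (x : H →L[ℂ] H) (hx : x ∈ M) (t : ℝ) : UT R t * x * UT R (-t) ∈ M := by
  have hR : RR R := h.toRR
  have hsw : RvD M.commutant ζ ((2 : ℂ) • 1 - R) D := RvD.swap h
  have hJsw : JData ((2 : ℂ) • 1 - R) D J := JData.swap h hJ
  have hsep' : ∀ y ∈ M.commutant, y ζ = 0 → y = 0 := by
    intro y hy hy0
    have hcl : IsClosed {ξ : H | y ξ = 0} := isClosed_eq y.continuous continuous_const
    have hsub : {ξ : H | ∃ x ∈ M, ξ = x ζ} ⊆ {ξ : H | y ξ = 0} := by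
      rintro ξ ⟨z, hz, rfl⟩
      have hc : z * y = y * z := VonNeumannAlgebra.mem_commutant_iff.mp hy z hz
      have h2 : y (z ζ) = z (y ζ) := (congrArg (fun T : H →L[ℂ] H => T ζ) hc).symm
      change y (z ζ) = 0
      rw [h2, hy0, map_zero]
    have huniv : ∀ ξ : H, y ξ = 0 := by
      intro ξ
      have := closure_minimal hsub hcl (hcyc ξ)
      exact this
    ext ξ
    exact huniv ξ
  have hx' : x ∈ M.commutant.commutant := by rwa [M.commutant_commutant]
  have hc := tomita hsw hsep' hJsw x hx' 0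
  rw [neg_zero, UT_zero hsw.toRR, one_mul, mul_one] at hc
  have h2 := tomita h hsep hJ (cj J x) hc t
  have h3 : cj J (cj J x) = x := by
    ext ξ
    change J (J (x (J (J ξ)))) = x ξ
    rw [hJ.invol, hJ.invol]
  rwa [h3] at h2

end H52TT
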