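import Pool.Agent.H52.BC.MdV

/-!
Row UnQ.  Uniqueness of the modular group (same argument as in MdV).

For `X` with `U`-orbit `G` and `Y` with `V`-orbit `G'` put `F z = ⟪G' (conj z) ζ, G z ζ⟫` (entire, bounded on horizontal strips).
`F (z - i) = ⟪G' (conj z + i) ζ, G (z - i) ζ⟫ = ⟪star (G z) ζ, star (G' (conj z + i)) ζ⟫` (`kms_B1` for `U`, the element `G z` with orbit `G (· + z)`, `y = G' (conj z + i) ∈ M`); the element
`A = star (G' (conj z))` has `V`-orbit `w ↦ star (G' (conj (w + z)))` (at `w = -i`: `star (G' (conj z + i))`), so by `kms_B1` for `V` with `y = star (G z)`: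
`= ⟪star A ζ, star (star (G z)) ζ⟫ = ⟪G' (conj z) ζ, G z ζ⟫ = F z`.  Liouville: `F` is constant: `⟪V t Y ζ, U t X ζ⟫ = ⟪Y ζ, X ζ⟫` for real `t` (`G t ζ = U t (X ζ)`, `fix`).  `dense_orbit` for both groups:
`star (V t) * U t = 1`, so `V (-t) * U t = 1`, `U t = V t`.
-/

open MeasureTheory Filter Topology H52BC

noncomputable section

namespace H52TT

variable {H : Type*} [NormedAddCommGroup H] [InnerProductSpace ℂ H] [CompleteSpace H]
variable {M : VonNeumannAlgebra H} {ζ : H} {U V : ℝ → H →L[ℂ] H}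

theorem unq_main (hU : IsModularGroup M ζ U) (hV : IsModularGroup M ζ V)
    {X Y : H →L[ℂ] H} {G G' : ℂ → H →L[ℂ] H}
    (hX : IsOrbit M U X G) (hY : IsOrbit M V Y G') (t : ℝ) :
    inner ℂ (V t (Y ζ)) (U t (X ζ)) = inner ℂ (Y ζ) (X ζ) := by
  obtain ⟨F, hF⟩ : ∃ F : ℂ → ℂ, ∀ z, F z = inner ℂ (G' ((starRingEnd ℂ) z) ζ) (G z ζ) :=
    ⟨_, fun _ => rfl⟩
  have hdiff : Differentiable ℂ F := by
    have h1 := (IsOrbit.star' hV hY).diff
    have h2 : Differentiable ℂ (fun z => star (G' ((starRingEnd ℂ) z)) * G z) :=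
      h1.mul hX.diff
    have h3 : Differentiable ℂ
        (fun z => (innerSL ℂ ζ) ((star (G' ((starRingEnd ℂ) z)) * G z) ζ)) :=
      (innerSL ℂ ζ).differentiable.comp (h2.clm_apply (differentiable_const ζ))
    have e : F = fun z => (innerSL ℂ ζ) ((star (G' ((starRingEnd ℂ) z)) * G z) ζ) := by
      funext z
      rw [hF, innerSL_apply_apply, ContinuousLinearMap.mul_apply,
        ContinuousLinearMap.star_eq_adjoint, ContinuousLinearMap.adjoint_inner_right]
    rw [e]
    exact h3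
  have hper : ∀ z, F (z - Complex.I) = F z := by
    intro z
    have hconj : (starRingEnd ℂ) (z - Complex.I) = (starRingEnd ℂ) z + Complex.I := by
      rw [map_sub, Complex.conj_I, sub_neg_eq_add]
    have hB : G' ((starRingEnd ℂ) z + Complex.I) ∈ M := hY.mem _
    have s1 := kms_B1 hU (IsOrbit.shift hU hX z) (G' ((starRingEnd ℂ) z + Complex.I)) hB
    have s2 := kms_B1 hV (IsOrbit.shift hV (IsOrbit.star' hV hY) z) (star (G z))
      (star_mem (hX.mem z))
    have hz1 : -Complex.I + z = z - Complex.I := by ring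
    simp only [hz1, hconj] at s1 s2
    rw [star_star, star_star] at s2
    calc F (z - Complex.I)
        = inner ℂ (G' ((starRingEnd ℂ) z + Complex.I) ζ) (G (z - Complex.I) ζ) := by
          rw [hF, hconj]
      _ = inner ℂ (star (G z) ζ) (star (G' ((starRingEnd ℂ) z + Complex.I)) ζ) := s1
      _ = inner ℂ (G' ((starRingEnd ℂ) z) ζ) (G z ζ) := s2
      _ = F z := by rw [hF]
  obtain ⟨C1, hC1⟩ := hX.bdd 1
  obtain ⟨C2, hC2⟩ := hY.bdd 1
  have hb : ∀ z : ℂ, |z.im| ≤ 1 → ‖F z‖ ≤ (C2 * ‖ζ‖) * (C1 * ‖ζ‖) := by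
    intro z hz
    have h1 : ‖G z ζ‖ ≤ C1 * ‖ζ‖ := (G z).le_of_opNorm_le (hC1 z hz) ζ
    have h2 : ‖G' ((starRingEnd ℂ) z) ζ‖ ≤ C2 * ‖ζ‖ :=
      (G' _).le_of_opNorm_le (hC2 _ (by rw [Complex.conj_im, abs_neg]; exact hz)) ζ
    rw [hF]
    exact (norm_inner_le_norm _ _).trans
      (mul_le_mul h2 h1 (norm_nonneg _) ((norm_nonneg _).trans h2))
  have hp : Function.Periodic F Complex.I := fun z => by
    have h := hper (z + Complex.I)
    rw [add_sub_cancel_right] at h
    exact h.symm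
  have hbd : Bornology.IsBounded (Set.range F) := by
    rw [isBounded_iff_forall_norm_le]
    refine ⟨(C2 * ‖ζ‖) * (C1 * ‖ζ‖), ?_⟩
    rintro _ ⟨z, rfl⟩
    have h := hp.sub_zsmul_eq (x := z) ⌊z.im⌋
    rw [← h]
    apply hb
    have h2 : (z - ⌊z.im⌋ • Complex.I).im = z.im - ⌊z.im⌋ := by simp
    rw [h2, abs_le]
    constructor <;> linarith [Int.floor_le z.im, Int.lt_floor_add_one z.im]
  have hconst := hdiff.apply_eq_apply_of_bounded hbd (t : ℂ) 0
  rw [hF, hF, map_zero, IsOrbit.zero_eq hU hX, IsOrbit.zero_eq hV hY, Complex.conj_ofReal,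
    hX.real, hY.real] at hconst
  have e1 : ∀ A : H →L[ℂ] H, (U t * A * U (-t)) ζ = U t (A ζ) := by
    intro A
    rw [ContinuousLinearMap.mul_apply, ContinuousLinearMap.mul_apply, hU.fix]
  have e2 : ∀ A : H →L[ℂ] H, (V t * A * V (-t)) ζ = V t (A ζ) := by
    intro A
    rw [ContinuousLinearMap.mul_apply, ContinuousLinearMap.mul_apply, hV.fix]
  rw [e1, e2] at hconst
  exact hconst

theorem modularGroup_unique (hcyc : Dense {ξ : H | ∃ x ∈ M, ξ = x ζ})
    (hU : IsModularGroup M ζ U) (hV : IsModularGroup M ζ V) : V = U := by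
  have hdU := dense_orbit hU hcyc
  have hdV := dense_orbit hV hcyc
  have h1 : ∀ (t : ℝ) (η ξ : H), inner ℂ (V t η) (U t ξ) = inner ℂ η ξ := by
    intro t η ξ
    have hfix : ∀ X G, IsOrbit M U X G → ∀ η : H,
        inner ℂ (V t η) (U t (X ζ)) = inner ℂ η (X ζ) := by
      intro X G hX η
      have h := Continuous.ext_on hdV
        (f := fun η : H => inner ℂ (V t η) (U t (X ζ)))
        (g := fun η : H => inner ℂ η (X ζ)) (by fun_prop) (by fun_prop) (by
          rintro _ ⟨Y, G', hY, rfl⟩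
          exact unq_main hU hV hX hY t)
      exact congrFun h η
    have h := Continuous.ext_on hdU
      (f := fun ξ : H => inner ℂ (V t η) (U t ξ))
      (g := fun ξ : H => inner ℂ η ξ) (by fun_prop) (by fun_prop) (by
        rintro _ ⟨X, G, hX, rfl⟩
        exact hfix X G hX η)
    exact congrFun h ξ
  have hVV : ∀ (t : ℝ) (ξ : H), V t (V (-t) ξ) = ξ := by
    intro t ξ
    have h := hV.add t (-t)
    rw [add_neg_cancel, hV.zero] at h
    have h2 := congrArg (fun A : H →L[ℂ] H => A ξ) h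
    simpa using h2.symm
  funext t
  refine ContinuousLinearMap.ext (fun ξ => ?_)
  refine ext_inner_left ℂ (fun v => ?_)
  have h := h1 t (V (-t) v) ξ
  rw [hVV] at h
  rw [h, ← hV.star_eq, ContinuousLinearMap.star_eq_adjoint,
    ContinuousLinearMap.adjoint_inner_left]

end H52TT
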