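import Pool.Agent.H52.TT.RvA
import Pool.Agent.H52.TT.ToM
import Pool.Agent.H52.TT.KmA
import Pool.Agent.H52.TT.UnQ

/-!
The Tomita - Takesaki theorem for a cyclic and separating vector: existence of the modular group (PI).
-/

open MeasureTheory Filter Topology H52BC

noncomputable section

namespace H52TT

variable {H : Type*} [NormedAddCommGroup H] [InnerProductSpace ℂ H] [CompleteSpace H]
variable {M : VonNeumannAlgebra H} {ζ : H}

theorem exists_modularGroup (hcyc : Dense {ξ : H | ∃ x ∈ M, ξ = x ζ})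
    (hsep : ∀ x ∈ M, x ζ = 0 → x = 0) :
    ∃ U : ℝ → H →L[ℂ] H, IsModularGroup M ζ U := by
  obtain ⟨R, D, h⟩ := exists_RvD hcyc hsep
  obtain ⟨J, hJ⟩ := exists_JData h
  have hR : RR R := h.toRR
  refine ⟨UT R, UT_zero hR, UT_add hR, UT_star hR, UT_cont hR,
    fun t => UT_fix hR t ζ h.zeta.1, fun t x hx => sigma_mem h hcyc hsep hJ x hx t,
    fun x hx y hy => kms_UT h hJ x y hx hy⟩

end H52TT
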