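import Pool.Agent.H52.TT.Defs

/-!
Row CaA.  Operator tools.

* `dense_of_inj`: `T` self-adjoint injective has dense range: `(range T)ᗮ = ker T* = ker T = 0` (`ContinuousLinearMap.orthogonal_range`, `Submodule.topologicalClosure_eq_top_iff`).
* `dense_hR`: `R (2 - R)` is self-adjoint (product of commuting self-adjoints) and injective: `R (2 - R) ξ = 0` gives `(2 - R) ξ = 0` (`inj`), so `R ξ = 2 ξ`, `ξ = 0`.
* `douglas`: on the range of `B` put `X (B ξ) = A ξ` (well defined because `‖A ξ‖ ≤ C ‖B ξ‖`, linear, bounded by `C`), extend by density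
  (`ContinuousLinearMap.extend`, `LinearMap.extendOfNorm`, or `DenseRange.equalizer` for uniqueness).
-/

open MeasureTheory Filter Topology H52BC

noncomputable section

namespace H52TT

variable {H : Type*} [NormedAddCommGroup H] [InnerProductSpace ℂ H] [CompleteSpace H]
variable {R : H →L[ℂ] H}

theorem dense_of_inj (T : H →L[ℂ] H) (hT : star T = T) (hi : ∀ ξ, T ξ = 0 → ξ = 0) :
    DenseRange T := by
  have h1 : (T.range : Submodule ℂ H)ᗮ = ⊥ := by
    rw [ContinuousLinearMap.orthogonal_range, ← ContinuousLinearMap.star_eq_adjoint, hT]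
    rw [Submodule.eq_bot_iff]
    intro x hx
    exact hi x hx
  have h2 : (T.range : Submodule ℂ H).topologicalClosure = ⊤ :=
    Submodule.topologicalClosure_eq_top_iff.2 h1
  have h3 : Dense ((T.range : Submodule ℂ H) : Set H) :=
    Submodule.dense_iff_topologicalClosure_eq_top.2 h2
  exact h3

theorem dense_hR (hR : RR R) : DenseRange (R * ((2 : ℂ) • 1 - R) : H →L[ℂ] H) := by
  apply dense_of_inj
  · rw [star_mul, hR.sa, star_sub, hR.sa, star_smul, star_one]
    have h2 : (star (2 : ℂ)) = 2 := by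
      simp
    rw [h2, sub_mul, mul_sub]
    simp
  · intro ξ h
    have h' : R (((2 : ℂ) • (1 : H →L[ℂ] H) - R) ξ) = 0 := h
    have h2 := hR.inj _ h'
    apply hR.inj'
    have h3 : (2 : ℂ) • ξ - R ξ = 0 := h2
    exact (sub_eq_zero.1 h3).symm

theorem douglas (A B : H →L[ℂ] H) (C : ℝ) (hC : 0 ≤ C) (h : ∀ ξ, ‖A ξ‖ ≤ C * ‖B ξ‖)
    (hB : DenseRange B) : ∃ X : H →L[ℂ] H, X * B = A ∧ ‖X‖ ≤ C := by
  refine ⟨(A : H →ₗ[ℂ] H).extendOfNorm (B : H →ₗ[ℂ] H), ?_, ?_⟩
  · ext ξ
    exact LinearMap.extendOfNorm_eq (f := (A : H →ₗ[ℂ] H)) (e := (B : H →ₗ[ℂ] H)) hB ⟨C, h⟩ ξ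
  · exact LinearMap.opNorm_extendOfNorm_le (f := (A : H →ₗ[ℂ] H)) (e := (B : H →ₗ[ℂ] H)) hB hC h

theorem eq_of_dense {A B C : H →L[ℂ] H} (hC : DenseRange C) (h : A * C = B * C) : A = B := by
  have h1 : (A : H → H) = B := by
    apply hC.equalizer A.continuous B.continuous
    funext ξ
    exact congrArg (fun T : H →L[ℂ] H => T ξ) h
  exact DFunLike.coe_injective h1

end H52TT
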