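import Pool.Agent.H52.TT.CaS

/-!
Row CaB.  Algebra of the calculus.  Write `h = R (2 - R) = cfc (ext 1)`.  All operators `cfc ..` commute.

* `cal_comm`: if `B R = R B` (and `B` arbitrary bounded) then `B` commutes with `cfc (..) R` (for self-adjoint `R`: `Commute.cfc`, needs also `B` commuting with `star R = R`), so
  `B cal h = ?`: `(B * cal R w) * h = B * cfc (ext w) = cfc (ext w) * B = cal R w * h * B = (cal R w * B) * h`; `eq_of_dense`.
* `cal_mul`: `(cal v * cal w) * (h * h) = cal v * (cal w * h) * h = cal v * cfc (ext w) * h = cal v * h * cfc (ext w) = cfc (ext v) * cfc (ext w)`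
  `= cfc (ext v · ext w) = cfc (ext (v w) · ext 1) = cal (v w) * h * h`; `h * h` has dense range (`dense_hR` twice, or `dense_of_inj`).
* `cal_add`, `cal_smul`: `cal_unique` (with `cfc_add`, `cfc_const_mul`).
* `cal_star`: `star (cal w) * h`: by `cal_comm` `cal w` commutes with `h`; `h * star (cal w) = star (cal w * h) = star (cfc (ext w)) = cfc (conj ext w)` (`cfc_star`); and `star (cal w)` commutes
  with `h` too; so `star (cal w) * h = cfc (ext (conj w))`; `cal_unique`.
* `cal_congr`: `ext w = ext w'`.  `cal_one`: `1 * h = cfc (ext 1)`.  `cal_id`: `R * h = cfc (ext id)`.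
-/

open MeasureTheory Filter Topology H52BC

noncomputable section

namespace H52TT

variable {H : Type*} [NormedAddCommGroup H] [InnerProductSpace ℂ H] [CompleteSpace H]
variable {R : H →L[ℂ] H} {v w : ℝ → ℂ}

theorem AW.mul (hv : AW v) (hw : AW w) : AW (fun r => v r * w r) := by
  obtain ⟨hv1, C, hC⟩ := hv
  obtain ⟨hw1, D, hD⟩ := hw
  refine ⟨hv1.mul hw1, C * D, fun r hr => ?_⟩
  rw [norm_mul]
  exact mul_le_mul (hC r hr) (hD r hr) (norm_nonneg _) ((norm_nonneg _).trans (hC r hr))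

theorem AW.add (hv : AW v) (hw : AW w) : AW (fun r => v r + w r) := by
  obtain ⟨hv1, C, hC⟩ := hv
  obtain ⟨hw1, D, hD⟩ := hw
  exact ⟨hv1.add hw1, C + D, fun r hr => (norm_add_le _ _).trans (add_le_add (hC r hr) (hD r hr))⟩

theorem AW.smul (c : ℂ) (hw : AW w) : AW (fun r => c * w r) := (AW_const c).mul hw

theorem AW.conj (hw : AW w) : AW (fun r => (starRingEnd ℂ) (w r)) := by
  obtain ⟨hw1, D, hD⟩ := hw
  refine ⟨Complex.continuous_conj.comp_continuousOn hw1, D, fun r hr => ?_⟩
  rw [RCLike.norm_conj]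
  exact hD r hr

theorem AW.refl (hw : AW w) : AW (fun r => w (2 - r)) := by
  obtain ⟨hw1, D, hD⟩ := hw
  have h1 : ∀ r ∈ Set.Ioo (0 : ℝ) 2, 2 - r ∈ Set.Ioo (0 : ℝ) 2 := by
    intro r hr
    exact ⟨by linarith [hr.2], by linarith [hr.1]⟩
  exact ⟨hw1.comp (continuous_const.sub continuous_id).continuousOn h1, D,
    fun r hr => hD _ (h1 r hr)⟩

theorem cab_ext (h : ∀ r ∈ Set.Ioo (0 : ℝ) 2, v r = w r) : ext v = ext w := by
  funext r
  unfold ext
  by_cases hr : 0 < r ∧ r < 2
  · rw [if_pos hr, if_pos hr, h r ⟨hr.1, hr.2⟩]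
  · rw [if_neg hr, if_neg hr]

theorem cal_congr (h : ∀ r ∈ Set.Ioo (0 : ℝ) 2, v r = w r) : cal R v = cal R w := by
  unfold cal
  rw [cab_ext h]

theorem cab_cont (hw : AW w) (s : Set ℂ) : ContinuousOn (fun z : ℂ => ext w z.re) s :=
  ((ext_cont hw).comp Complex.continuous_re).continuousOn

theorem cab_normal (hR : RR R) : IsStarNormal R := by
  have h : IsSelfAdjoint R := hR.sa
  exact h.isStarNormal

theorem cab_comm (hR : RR R) (B : H →L[ℂ] H) (hB : B * R = R * B) (f : ℂ → ℂ) :
    B * cfc f R = cfc f R * B := by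
  have h1 : Commute R B := hB.symm
  have h2 : Commute (star R) B := by
    rw [hR.sa]
    exact h1
  exact (h1.cfc h2 f).symm

theorem cab_comm_h (B : H →L[ℂ] H) (hB : B * R = R * B) :
    B * (R * ((2 : ℂ) • 1 - R)) = (R * ((2 : ℂ) • 1 - R)) * B := by
  have h1 : Commute B R := hB
  have h2 : Commute B ((2 : ℂ) • 1 - R) :=
    ((Commute.one_right B).smul_right (2 : ℂ)).sub_right h1
  exact h1.mul_right h2

theorem cal_comm (hR : RR R) (hw : AW w) (B : H →L[ℂ] H) (hB : B * R = R * B) :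
    B * cal R w = cal R w * B := by
  apply eq_of_dense (dense_hR hR)
  rw [mul_assoc, cal_spec hR hw, cab_comm hR B hB, ← cal_spec hR hw,
    mul_assoc (cal R w) (R * ((2 : ℂ) • 1 - R)) B, mul_assoc (cal R w) B, cab_comm_h B hB]

theorem cal_mul (hR : RR R) (hv : AW v) (hw : AW w) :
    cal R v * cal R w = cal R (fun r => v r * w r) := by
  have hRR : R * cal R v = cal R v * R := cal_comm hR hv R rfl
  apply eq_of_dense (dense_hR hR)
  apply eq_of_dense (dense_hR hR)
  rw [cal_spec hR (hv.mul hw), mul_assoc (cal R v), cal_spec hR hw, mul_assoc (cal R v)]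
  have hE : (cfc (fun z : ℂ => ext w z.re) R) * R = R * cfc (fun z : ℂ => ext w z.re) R :=
    (cab_comm hR R rfl _).symm
  rw [cab_comm_h _ hE, ← mul_assoc, cal_spec hR hv, ← cfc_hh hR,
    ← cfc_mul _ _ R (cab_cont hv _) (cab_cont hw _),
    ← cfc_mul _ _ R (cab_cont (hv.mul hw) _) (cab_cont (AW_const 1) _)]
  congr 1
  funext z
  unfold ext
  by_cases hr : 0 < z.re ∧ z.re < 2
  · rw [if_pos hr, if_pos hr, if_pos hr, if_pos hr]
    ring
  · rw [if_neg hr, if_neg hr, if_neg hr, if_neg hr]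

theorem cal_add (hR : RR R) (hv : AW v) (hw : AW w) :
    cal R v + cal R w = cal R (fun r => v r + w r) := by
  apply cal_unique hR (hv.add hw)
  rw [add_mul, cal_spec hR hv, cal_spec hR hw,
    ← cfc_add (a := R) _ _ (cab_cont hv _) (cab_cont hw _)]
  congr 1
  funext z
  unfold ext
  by_cases hr : 0 < z.re ∧ z.re < 2
  · rw [if_pos hr, if_pos hr, if_pos hr]
    ring
  · rw [if_neg hr, if_neg hr, if_neg hr, add_zero]

theorem cal_smul (hR : RR R) (hw : AW w) (c : ℂ) :
    c • cal R w = cal R (fun r => c * w r) := by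
  apply cal_unique hR (hw.smul c)
  rw [smul_mul_assoc, cal_spec hR hw, ← cfc_const_mul c _ R (cab_cont hw _)]
  congr 1
  funext z
  unfold ext
  by_cases hr : 0 < z.re ∧ z.re < 2
  · rw [if_pos hr, if_pos hr]
    ring
  · rw [if_neg hr, if_neg hr, mul_zero]

theorem cal_star (hR : RR R) (hw : AW w) :
    star (cal R w) = cal R (fun r => (starRingEnd ℂ) (w r)) := by
  apply cal_unique hR hw.conj
  have hRR : R * cal R w = cal R w * R := cal_comm hR hw R rfl
  have h1 : star (R * ((2 : ℂ) • 1 - R)) = R * ((2 : ℂ) • 1 - R) := by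
    rw [star_mul, star_sub, star_smul, star_one, hR.sa]
    have h2 : star (2 : ℂ) = 2 := by
      rw [Complex.star_def, map_ofNat]
    rw [h2, sub_mul, mul_sub]
    congr 1
    rw [smul_mul_assoc, mul_smul_comm, one_mul, mul_one]
  have h2 : star (cal R w) * (R * ((2 : ℂ) • 1 - R)) =
      star (cal R w * (R * ((2 : ℂ) • 1 - R))) := by
    rw [cab_comm_h (cal R w) hRR.symm, star_mul, h1]
  rw [h2, cal_spec hR hw, ← cfc_star]
  congr 1
  funext z
  unfold ext
  by_cases hr : 0 < z.re ∧ z.re < 2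
  · rw [if_pos hr, if_pos hr, Complex.star_def, map_mul, Complex.conj_ofReal]
  · rw [if_neg hr, if_neg hr, star_zero]

theorem cal_one (hR : RR R) : cal R (fun _ => 1) = 1 := by
  symm
  apply cal_unique hR (AW_const 1)
  rw [one_mul, cfc_hh hR]

theorem cal_id (hR : RR R) : cal R (fun r => (r : ℂ)) = R := by
  symm
  have hid : AW (fun r => (r : ℂ)) := by
    refine ⟨Complex.continuous_ofReal.continuousOn, 2, fun r hr => ?_⟩
    rw [Complex.norm_real, Real.norm_eq_abs, abs_of_pos hr.1]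
    exact hr.2.le
  apply cal_unique hR hid
  have hn := cab_normal hR
  conv_lhs => rw [← cfc_hh hR]
  have h1 : R * cfc (fun z : ℂ => ext (fun _ => 1) z.re) R =
      cfc (fun z : ℂ => z * ext (fun _ => 1) z.re) R := by
    rw [cfc_mul (fun z : ℂ => z) (fun z : ℂ => ext (fun _ => 1) z.re) R continuousOn_id
      (cab_cont (AW_const 1) _), cfc_id' ℂ R]
  rw [h1]
  apply cfc_congr
  intro z hz
  obtain ⟨h2, _, _⟩ := spec_RR hR z hz
  have h3 : z = (z.re : ℂ) := by
    apply Complex.ext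
    · rw [Complex.ofReal_re]
    · rw [Complex.ofReal_im, h2]
  show z * ext (fun _ => 1) z.re = ext (fun r => (r : ℂ)) z.re
  unfold ext
  by_cases hr : 0 < z.re ∧ z.re < 2
  · rw [if_pos hr, if_pos hr, one_mul]
    congr 1
  · rw [if_neg hr, if_neg hr, mul_zero]

end H52TT
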