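import Pool.Agent.H52.TT.CaB

/-!
Row CaC.  Conjugate linear intertwiners, and the reflection `R ↦ 2 - R`.

* `cfc_conj`: `E` conjugate linear bounded with `E R = (2 - R) E`.  For `f` continuous on the spectrum: `E (f(R) ξ) = f~(R) (E ξ)`, `f~(r) = conj (f (2 - r))`.  The set of `f` for which this holds
  contains constants (`conj c`), the identity function, and is closed under sums, products and uniform limits: use `ContinuousMap.induction_on_of_compact` (functions on the compact
  spectrum; `star id = id` on a real spectrum) or Weierstrass approximation by polynomials on `[0,2]` (`polynomialFunctions`), norms: `‖f(R)‖ ≤ sup |f|` (`norm_cfc_le`).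
* `cal_conj`: `E (cal w (h ξ)) = E (cfc (ext w) ξ) = cfc ((ext w)~) (E ξ) = cfc (ext w~) (E ξ) = cal w~ (h (E ξ)) = cal w~ (E (h ξ))`, `h = R (2 - R)`, `E h = (2 - R) R E = h E`;
  dense range of `h`.
* `cal_swap`: `2 - R` satisfies `RR`; `cfc f (2 - R) = cfc (fun z => f (2 - z)) R` (`cfc_comp'`-type lemma, or `cfc_comp_...`), `ext w (2 - r) = ext (w(2 - ·)) r`; `cal_unique`.
-/

open MeasureTheory Filter Topology H52BC

noncomputable section

namespace H52TT

variable {H : Type*} [NormedAddCommGroup H] [InnerProductSpace ℂ H] [CompleteSpace H]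
variable {R : H →L[ℂ] H} {w : ℝ → ℂ}

/-- The segment `[0, 2]` in the complex plane. -/
def cac_S : Set ℂ := Complex.ofReal '' Set.Icc (0 : ℝ) 2

theorem cac_S_compact : IsCompact cac_S :=
  (isCompact_Icc : IsCompact (Set.Icc (0 : ℝ) 2)).image Complex.continuous_ofReal

instance cac_S_inst : CompactSpace cac_S := isCompact_iff_compactSpace.mp cac_S_compact

/-- The projection to the segment. -/
def cac_pi (r : ℝ) : cac_S :=
  ⟨((Set.projIcc (0 : ℝ) 2 (by norm_num) r : ℝ) : ℂ),
    ⟨_, (Set.projIcc (0 : ℝ) 2 (by norm_num) r).2, rfl⟩⟩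

theorem cac_pi_cont : Continuous cac_pi := by
  apply Continuous.subtype_mk
  exact Complex.continuous_ofReal.comp (continuous_subtype_val.comp continuous_projIcc)

theorem cac_pi_val (r : ℝ) (h0 : 0 ≤ r) (h2 : r ≤ 2) : (cac_pi r : ℂ) = (r : ℂ) := by
  have h : Set.projIcc (0 : ℝ) 2 (by norm_num) r = ⟨r, h0, h2⟩ :=
    Set.projIcc_of_mem _ ⟨h0, h2⟩
  change ((Set.projIcc (0 : ℝ) 2 (by norm_num) r : ℝ) : ℂ) = (r : ℂ)
  rw [h]

theorem cac_normal (hR : RR R) : IsStarNormal R :=
  (show IsSelfAdjoint R from hR.sa).isStarNormal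

theorem cac_eq_re (hR : RR R) (z : ℂ) (hz : z ∈ spectrum ℂ R) : ((z.re : ℝ) : ℂ) = z := by
  apply Complex.ext
  · simp
  · simp [(spec_RR hR z hz).1]

theorem cac_two_sub (hR : RR R) : cfc (fun z : ℂ => 2 - z) R = (2 : ℂ) • 1 - R := by
  have := cac_normal hR
  rw [cfc_sub (fun _ : ℂ => (2 : ℂ)) (fun z : ℂ => z) R, cfc_const (2 : ℂ) R, cfc_id' ℂ R,
    Algebra.algebraMap_eq_smul_one]

theorem cac_re (hR : RR R) : cfc (fun z : ℂ => ((z.re : ℝ) : ℂ)) R = R := by
  have := cac_normal hR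
  have h : cfc (fun z : ℂ => ((z.re : ℝ) : ℂ)) R = cfc (fun z : ℂ => z) R :=
    cfc_congr (fun z hz => cac_eq_re hR z hz)
  rw [h, cfc_id' ℂ R]

/-- The two maps of the proof. -/
def cac_L (R : H →L[ℂ] H) (g : C(cac_S, ℂ)) : H →L[ℂ] H :=
  cfc (fun z : ℂ => g (cac_pi z.re)) R

/-- The two maps of the proof. -/
def cac_M (R : H →L[ℂ] H) (g : C(cac_S, ℂ)) : H →L[ℂ] H :=
  cfc (fun z : ℂ => (starRingEnd ℂ) (g (cac_pi (2 - z.re)))) R

theorem cac_cont1 (g : C(cac_S, ℂ)) : Continuous (fun z : ℂ => g (cac_pi z.re)) :=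
  g.continuous.comp (cac_pi_cont.comp Complex.continuous_re)

theorem cac_cont2 (g : C(cac_S, ℂ)) :
    Continuous (fun z : ℂ => (starRingEnd ℂ) (g (cac_pi (2 - z.re)))) :=
  Complex.continuous_conj.comp (g.continuous.comp
    (cac_pi_cont.comp (continuous_const.sub Complex.continuous_re)))

theorem cac_L_cont (hR : RR R) : Continuous (cac_L R) := by
  have := cac_normal hR
  apply LipschitzWith.continuous (K := 1)
  apply LipschitzWith.of_dist_le_mul
  intro g1 g2
  rw [NNReal.coe_one, one_mul, dist_eq_norm, dist_eq_norm]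
  unfold cac_L
  rw [← cfc_sub (fun z : ℂ => g1 (cac_pi z.re)) (fun z : ℂ => g2 (cac_pi z.re)) R
    (cac_cont1 g1).continuousOn (cac_cont1 g2).continuousOn]
  apply norm_cfc_le (norm_nonneg _)
  intro z _
  exact (g1 - g2).norm_coe_le_norm _

theorem cac_M_cont (hR : RR R) : Continuous (cac_M R) := by
  have := cac_normal hR
  apply LipschitzWith.continuous (K := 1)
  apply LipschitzWith.of_dist_le_mul
  intro g1 g2
  rw [NNReal.coe_one, one_mul, dist_eq_norm, dist_eq_norm]
  unfold cac_M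
  rw [← cfc_sub (fun z : ℂ => (starRingEnd ℂ) (g1 (cac_pi (2 - z.re))))
    (fun z : ℂ => (starRingEnd ℂ) (g2 (cac_pi (2 - z.re)))) R
    (cac_cont2 g1).continuousOn (cac_cont2 g2).continuousOn]
  apply norm_cfc_le (norm_nonneg _)
  intro z _
  rw [← map_sub, RCLike.norm_conj]
  exact (g1 - g2).norm_coe_le_norm _

theorem cac_ind (hR : RR R) (E : H →L⋆[ℂ] H) (hE : ∀ ξ, E (R ξ) = (2 : ℂ) • E ξ - R (E ξ))
    (g : C(cac_S, ℂ)) : ∀ ξ, E (cac_L R g ξ) = cac_M R g (E ξ) := by
  have hn := cac_normal hR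
  have hLid : ∀ g : C(cac_S, ℂ), (∀ x : cac_S, g x = ((x : ℂ).re : ℂ)) →
      ∀ ξ, E (cac_L R g ξ) = cac_M R g (E ξ) := by
    intro g hg ξ
    have h1 : cac_L R g = R := by
      unfold cac_L
      have h : cfc (fun z : ℂ => g (cac_pi z.re)) R =
          cfc (fun z : ℂ => ((z.re : ℝ) : ℂ)) R := by
        apply cfc_congr
        intro z hz
        obtain ⟨_, h0, h2⟩ := spec_RR hR z hz
        change g (cac_pi z.re) = _
        rw [hg, cac_pi_val z.re h0 h2, Complex.ofReal_re]
      rw [h, cac_re hR]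
    have h2 : cac_M R g = (2 : ℂ) • 1 - R := by
      unfold cac_M
      have h : cfc (fun z : ℂ => (starRingEnd ℂ) (g (cac_pi (2 - z.re)))) R =
          cfc (fun z : ℂ => 2 - z) R := by
        apply cfc_congr
        intro z hz
        obtain ⟨_, h0, h2⟩ := spec_RR hR z hz
        change (starRingEnd ℂ) (g (cac_pi (2 - z.re))) = 2 - z
        rw [hg, cac_pi_val (2 - z.re) (by linarith) (by linarith), Complex.ofReal_re,
          Complex.conj_ofReal]
        conv_rhs => rw [← cac_eq_re hR z hz]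
        push_cast
        ring
      rw [h, cac_two_sub hR]
    rw [h1, h2, hE ξ]
    rfl
  induction g using ContinuousMap.induction_on_of_compact with
  | const c =>
    intro ξ
    have h1 : cac_L R (ContinuousMap.const cac_S c) = c • 1 := by
      unfold cac_L
      simp only [ContinuousMap.const_apply]
      rw [cfc_const c R, Algebra.algebraMap_eq_smul_one]
    have h2 : cac_M R (ContinuousMap.const cac_S c) = (starRingEnd ℂ) c • 1 := by
      unfold cac_M
      simp only [ContinuousMap.const_apply]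
      rw [cfc_const ((starRingEnd ℂ) c) R, Algebra.algebraMap_eq_smul_one]
    rw [h1, h2]
    change E (c • ξ) = (starRingEnd ℂ) c • E ξ
    exact map_smulₛₗ E c ξ
  | id =>
    apply hLid
    rintro ⟨x, r, hr, rfl⟩
    simp
  | star_id =>
    apply hLid
    rintro ⟨x, r, hr, rfl⟩
    simp
  | add f g hf hg =>
    intro ξ
    have h1 : cac_L R (f + g) = cac_L R f + cac_L R g := by
      unfold cac_L
      rw [← cfc_add R (fun z : ℂ => f (cac_pi z.re)) (fun z : ℂ => g (cac_pi z.re))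
        (cac_cont1 f).continuousOn (cac_cont1 g).continuousOn]
      rfl
    have h2 : cac_M R (f + g) = cac_M R f + cac_M R g := by
      unfold cac_M
      rw [← cfc_add R (fun z : ℂ => (starRingEnd ℂ) (f (cac_pi (2 - z.re))))
        (fun z : ℂ => (starRingEnd ℂ) (g (cac_pi (2 - z.re))))
        (cac_cont2 f).continuousOn (cac_cont2 g).continuousOn]
      congr 1
      funext z
      simp
    rw [h1, h2]
    change E (cac_L R f ξ + cac_L R g ξ) = cac_M R f (E ξ) + cac_M R g (E ξ)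
    rw [map_add, hf, hg]
  | mul f g hf hg =>
    intro ξ
    have h1 : cac_L R (f * g) = cac_L R f * cac_L R g := by
      unfold cac_L
      rw [← cfc_mul (fun z : ℂ => f (cac_pi z.re)) (fun z : ℂ => g (cac_pi z.re)) R
        (cac_cont1 f).continuousOn (cac_cont1 g).continuousOn]
      rfl
    have h2 : cac_M R (f * g) = cac_M R f * cac_M R g := by
      unfold cac_M
      rw [← cfc_mul (fun z : ℂ => (starRingEnd ℂ) (f (cac_pi (2 - z.re))))
        (fun z : ℂ => (starRingEnd ℂ) (g (cac_pi (2 - z.re)))) R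
        (cac_cont2 f).continuousOn (cac_cont2 g).continuousOn]
      congr 1
      funext z
      simp
    rw [h1, h2]
    change E (cac_L R f (cac_L R g ξ)) = cac_M R f (cac_M R g (E ξ))
    rw [hf, hg]
  | frequently f h =>
    intro ξ
    have hc : IsClosed {g : C(cac_S, ℂ) | E (cac_L R g ξ) = cac_M R g (E ξ)} := by
      apply isClosed_eq
      · exact E.continuous.comp ((cac_L_cont hR).clm_apply continuous_const)
      · exact (cac_M_cont hR).clm_apply continuous_const
    exact (h.mono (fun g hg => hg ξ)).mem_of_closed hc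

theorem cfc_conj (hR : RR R) (E : H →L⋆[ℂ] H) (hE : ∀ ξ, E (R ξ) = (2 : ℂ) • E ξ - R (E ξ))
    (f : ℝ → ℂ) (hf : Continuous f) (ξ : H) :
    E (cfc (fun z : ℂ => f z.re) R ξ) =
      cfc (fun z : ℂ => (starRingEnd ℂ) (f (2 - z.re))) R (E ξ) := by
  let g : C(cac_S, ℂ) := ⟨fun x => f (x : ℂ).re,
    hf.comp (Complex.continuous_re.comp continuous_subtype_val)⟩
  have h := cac_ind hR E hE g ξ
  have h1 : cac_L R g = cfc (fun z : ℂ => f z.re) R := by
    unfold cac_L
    apply cfc_congr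
    intro z hz
    obtain ⟨_, h0, h2⟩ := spec_RR hR z hz
    change f (cac_pi z.re : ℂ).re = f z.re
    rw [cac_pi_val z.re h0 h2, Complex.ofReal_re]
  have h2 : cac_M R g = cfc (fun z : ℂ => (starRingEnd ℂ) (f (2 - z.re))) R := by
    unfold cac_M
    apply cfc_congr
    intro z hz
    obtain ⟨_, h0, h2⟩ := spec_RR hR z hz
    change (starRingEnd ℂ) (f (cac_pi (2 - z.re) : ℂ).re) = _
    rw [cac_pi_val (2 - z.re) (by linarith) (by linarith), Complex.ofReal_re]
  rwa [h1, h2] at h

theorem cac_ext (w : ℝ → ℂ) (r : ℝ) :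
    ext (fun s => w (2 - s)) r = ext w (2 - r) := by
  unfold ext
  by_cases h : 0 < r ∧ r < 2
  · rw [if_pos h, if_pos ⟨by linarith, by linarith⟩]
    rw [show (2 - r) * (2 - (2 - r)) = r * (2 - r) by ring]
  · rw [if_neg h, if_neg]
    rintro ⟨h1, h2⟩
    exact h ⟨by linarith, by linarith⟩

theorem cac_ext_conj (w : ℝ → ℂ) (r : ℝ) :
    ext (fun s => (starRingEnd ℂ) (w s)) r = (starRingEnd ℂ) (ext w r) := by
  unfold ext
  split_ifs
  · rw [map_mul, Complex.conj_ofReal]
  · rw [map_zero]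

theorem cal_conj (hR : RR R) (hw : AW w) (E : H →L⋆[ℂ] H)
    (hE : ∀ ξ, E (R ξ) = (2 : ℂ) • E ξ - R (E ξ)) (ξ : H) :
    E (cal R w ξ) = cal R (fun r => (starRingEnd ℂ) (w (2 - r))) (E ξ) := by
  have hw' : AW (fun r => (starRingEnd ℂ) (w (2 - r))) := hw.refl.conj
  have hd := dense_hR hR
  have key : (fun ξ => E (cal R w ξ)) =
      fun ξ => cal R (fun r => (starRingEnd ℂ) (w (2 - r))) (E ξ) := by
    apply hd.equalizer
    · exact E.continuous.comp (cal R w).continuous
    · exact (cal R _).continuous.comp E.continuous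
    · funext η
      change E (cal R w ((R * ((2 : ℂ) • 1 - R)) η)) =
        cal R (fun r => (starRingEnd ℂ) (w (2 - r))) (E ((R * ((2 : ℂ) • 1 - R)) η))
      have h1 : cal R w ((R * ((2 : ℂ) • 1 - R)) η) = cfc (fun z : ℂ => ext w z.re) R η := by
        rw [← cal_spec hR hw]
        rfl
      have h2 : E ((R * ((2 : ℂ) • 1 - R)) η) = (R * ((2 : ℂ) • 1 - R)) (E η) := by
        change E (R ((2 : ℂ) • η - R η)) = R ((2 : ℂ) • E η - R (E η))
        have h3 : E ((2 : ℂ) • η - R η) = R (E η) := by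
          rw [map_sub, hE, map_smulₛₗ E, Complex.conj_ofNat, sub_sub_cancel]
        rw [hE, h3, map_sub, map_smul]
      rw [h1, h2, cfc_conj hR E hE (ext w) (ext_cont hw)]
      have h4 : cal R (fun r => (starRingEnd ℂ) (w (2 - r))) ((R * ((2 : ℂ) • 1 - R)) (E η)) =
          cfc (fun z : ℂ => ext (fun r => (starRingEnd ℂ) (w (2 - r))) z.re) R (E η) := by
        rw [← cal_spec hR hw']
        rfl
      rw [h4]
      congr 2
      funext z
      rw [cac_ext_conj (fun r => w (2 - r)), cac_ext]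
  exact congrFun key ξ

theorem RR.swap (hR : RR R) : RR ((2 : ℂ) • 1 - R) := by
  have h0 : ∀ ξ : H, ((2 : ℂ) • (1 : H →L[ℂ] H) - R) ξ = (2 : ℂ) • ξ - R ξ := fun ξ => rfl
  have h1 : ∀ ξ : H, (inner ℂ ξ ((2 : ℂ) • ξ - R ξ)).re =
      2 * ‖ξ‖ ^ 2 - (inner ℂ ξ (R ξ)).re := by
    intro ξ
    rw [inner_sub_right, inner_smul_right, inner_self_eq_norm_sq_to_K, Complex.sub_re]
    congr 1
    have h2 : ((2 : ℂ) * ((‖ξ‖ : ℝ) : ℂ) ^ 2) = ((2 * ‖ξ‖ ^ 2 : ℝ) : ℂ) := by push_cast; ring
    exact (congrArg Complex.re h2).trans (Complex.ofReal_re _)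
  refine ⟨?_, fun ξ => ?_, fun ξ => ?_, fun ξ h => ?_, fun ξ h => ?_⟩
  · rw [star_sub, star_smul, star_one, hR.sa]
    congr 2
    simp
  · rw [h0, h1]
    have := hR.le ξ
    linarith
  · rw [h0, h1]
    have := hR.pos ξ
    linarith
  · rw [h0] at h
    exact hR.inj' ξ (sub_eq_zero.1 h).symm
  · rw [h0] at h
    apply hR.inj ξ
    have h2 : R ξ = (2 : ℂ) • ξ - ((2 : ℂ) • ξ - R ξ) := by abel
    rw [h2, h, sub_self]

theorem cal_swap (hR : RR R) (hw : AW w) :
    cal ((2 : ℂ) • 1 - R) w = cal R (fun r => w (2 - r)) := by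
  have hn := cac_normal hR
  apply cal_unique hR hw.refl
  have h1 := cal_spec hR.swap hw
  have h2 : ((2 : ℂ) • 1 - R) * ((2 : ℂ) • 1 - ((2 : ℂ) • 1 - R)) =
      R * ((2 : ℂ) • 1 - R) := by
    rw [sub_sub_cancel, sub_mul, mul_sub]
    simp
  rw [h2] at h1
  rw [h1]
  have h3 : cfc (fun z : ℂ => ext w (2 - z).re) R =
      cfc (fun z : ℂ => ext w z.re) (cfc (fun z : ℂ => 2 - z) R) :=
    cfc_comp' (fun z : ℂ => ext w z.re) (fun z : ℂ => 2 - z) R
      ((ext_cont hw).comp Complex.continuous_re).continuousOn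
      (continuous_const.sub continuous_id).continuousOn hn
  rw [cac_two_sub hR] at h3
  rw [← h3]
  congr 1
  funext z
  rw [cac_ext]
  simp

end H52TT
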