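import Pool.Agent.H52.TT.CaB

/-!
Row CaD.  Families.

* `cal_cont` (strong continuity).  Let `h = R (2 - R)`.  For `ξ = h η`: `cal (w z) ξ = cfc (ext (w z)) η` and `z ↦ ext (w z)` is continuous into sup norm over `[0,2]`: given `z0 ∈ S`, `ε`: for `r` near
  `0` or `2`: `|ext (w z) r - ext (w z0) r| ≤ 2 C r (2 - r) ≤ ε`; on the compact `[δ, 2-δ]`: joint continuity gives uniform convergence (tube lemma / `IsCompact.uniformContinuousOn...`,
  `tendstoUniformlyOn` on compacts from `ContinuousOn` of the uncurried function).  General `ξ`: density and `‖cal (w z)‖ ≤ C` (3 ε; uniform limit of continuous functions on `S`).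
* `cal_diff` (norm differentiability in an open set).  For `z0 ∈ S`, ball of radius `2δ` in `S`: for fixed `r` the function `z ↦ w z r` is holomorphic and bounded by `C` on the ball; Cauchy estimates:
  `|∂_z w(z0, r)| ≤ C/δ` and `|w(z0 + u, r) - w(z0, r) - u ∂_z w(z0, r)| ≤ (2 C/δ²) |u|²` for `|u| < δ/2`, UNIFORMLY in `r` (e.g. from the power series or twice Cauchy integral formula /
  `Complex.norm_deriv_le_of_forall_mem_sphere_norm_le` applied to `∂_z w` and the mean value inequality).  `w' = ∂_z w(z0, ·)` is continuous in `r` (uniform limit of the continuous functions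
  `(w(z0 + u, r) - w(z0, r))/u`), so `AW w'`.  Hence `‖cal (w (z0+u)) - cal (w z0) - u • cal w'‖ ≤ (2C/δ²)|u|²` (`cal_add`, `cal_smul`, `cal_norm`): `HasDerivAt`.
-/

open MeasureTheory Filter Topology H52BC

noncomputable section

namespace H52TT

variable {H : Type*} [NormedAddCommGroup H] [InnerProductSpace ℂ H] [CompleteSpace H]
variable {R : H →L[ℂ] H}

theorem cad_sub (hR : RR R) {v w : ℝ → ℂ} (hv : AW v) (hw : AW w) :
    cal R v - cal R w = cal R (fun r => v r - w r) := by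
  have h1 := cal_add hR hv (AW.smul (-1) hw)
  rw [← cal_smul hR hw (-1)] at h1
  have e : (fun r => v r + (-1 : ℂ) * w r) = fun r => v r - w r := by
    funext r; ring
  rw [e] at h1
  rw [← h1]
  simp [sub_eq_add_neg]

theorem cad_AWsub {v w : ℝ → ℂ} (hv : AW v) (hw : AW w) : AW (fun r => v r - w r) := by
  have h := AW.add hv (AW.smul (-1) hw)
  have e : (fun r => v r + (-1 : ℂ) * w r) = fun r => v r - w r := by
    funext r; ring
  rw [e] at h
  exact h

theorem cad_AW (S : Set ℂ) (w : ℂ → ℝ → ℂ) (C : ℝ)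
    (hC : ∀ z ∈ S, ∀ r ∈ Set.Ioo (0 : ℝ) 2, ‖w z r‖ ≤ C)
    (hw : ContinuousOn (fun p : ℂ × ℝ => w p.1 p.2) (S ×ˢ Set.Ioo 0 2)) (z : ℂ) (hz : z ∈ S) :
    AW (w z) := by
  refine ⟨?_, C, hC z hz⟩
  have h1 : ContinuousOn (fun r : ℝ => ((z, r) : ℂ × ℝ)) (Set.Ioo 0 2) := by fun_prop
  have h2 : Set.MapsTo (fun r : ℝ => ((z, r) : ℂ × ℝ)) (Set.Ioo 0 2) (S ×ˢ Set.Ioo 0 2) :=
    fun r hr => ⟨hz, hr⟩
  exact hw.comp h1 h2

/-- operator applied to the range of `R (2 - R)` -/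
theorem cad_range (hR : RR R) {u : ℝ → ℂ} (hu : AW u) (ε : ℝ) (hε : 0 ≤ ε)
    (h : ∀ r ∈ Set.Ioo (0 : ℝ) 2, ‖u r‖ * (r * (2 - r)) ≤ ε) (η : H) :
    ‖cal R u ((R * ((2 : ℂ) • 1 - R)) η)‖ ≤ ε * ‖η‖ := by
  have e : cal R u ((R * ((2 : ℂ) • 1 - R)) η) = (cfc (fun z : ℂ => ext u z.re) R) η := by
    rw [← cal_spec hR hu]
    rfl
  rw [e]
  have h2 : ‖cfc (fun z : ℂ => ext u z.re) R‖ ≤ ε := by
    refine norm_cfc_le hε (fun z _ => ?_)
    unfold ext
    split_ifs with h3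
    · rw [norm_mul, Complex.norm_real, Real.norm_of_nonneg (by nlinarith [h3.1, h3.2])]
      exact h z.re h3
    · rw [norm_zero]; exact hε
  exact (ContinuousLinearMap.le_opNorm _ _).trans (mul_le_mul_of_nonneg_right h2 (norm_nonneg η))

theorem cal_cont (hR : RR R) (S : Set ℂ) (w : ℂ → ℝ → ℂ) (C : ℝ)
    (hC : ∀ z ∈ S, ∀ r ∈ Set.Ioo (0 : ℝ) 2, ‖w z r‖ ≤ C)
    (hw : ContinuousOn (fun p : ℂ × ℝ => w p.1 p.2) (S ×ˢ Set.Ioo 0 2)) (ξ : H) :
    ContinuousOn (fun z => cal R (w z) ξ) S := by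
  intro z0 hz0
  have hC0 : 0 ≤ C := (norm_nonneg _).trans (hC z0 hz0 1 ⟨by norm_num, by norm_num⟩)
  have hA := cad_AW S w C hC hw
  -- uniform smallness
  have key : ∀ ε : ℝ, 0 < ε → ∀ᶠ z in 𝓝[S] z0, ∀ r ∈ Set.Ioo (0 : ℝ) 2,
      ‖w z r - w z0 r‖ * (r * (2 - r)) ≤ ε := by
    intro ε hε
    obtain ⟨δ, hδ0, hδ1, hδε⟩ : ∃ δ : ℝ, 0 < δ ∧ δ < 1 ∧ 2 * C * (2 * δ) ≤ ε := by
      refine ⟨min (1 / 2) (ε / (4 * C + 1)), by positivity, ?_, ?_⟩
      · exact lt_of_le_of_lt (min_le_left _ _) (by norm_num)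
      · have h1 : min (1 / 2) (ε / (4 * C + 1)) ≤ ε / (4 * C + 1) := min_le_right _ _
        have h2 : (4 * C + 1) * (ε / (4 * C + 1)) = ε := by
          field_simp
        have h3 : 0 ≤ ε / (4 * C + 1) := by positivity
        nlinarith
    have hcont : ContinuousOn (Function.uncurry w) (S ×ˢ Set.Icc δ (2 - δ)) := by
      refine hw.mono ?_
      rintro ⟨z, r⟩ ⟨h1, h2⟩
      exact ⟨h1, ⟨by linarith [h2.1], by linarith [h2.2]⟩⟩
    obtain ⟨v, hv, hv2⟩ := IsCompact.mem_uniformity_of_prod (isCompact_Icc (a := δ) (b := 2 - δ))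
      hcont hz0 (Metric.dist_mem_uniformity hε)
    filter_upwards [hv, self_mem_nhdsWithin] with z hz hzS r hr
    have hr2 : 0 ≤ r * (2 - r) := by nlinarith [hr.1, hr.2]
    by_cases h1 : δ ≤ r ∧ r ≤ 2 - δ
    · have h2 : dist (w z r) (w z0 r) < ε := hv2 z hz r h1
      rw [dist_eq_norm] at h2
      have h3 : r * (2 - r) ≤ 1 := by nlinarith [sq_nonneg (r - 1)]
      calc ‖w z r - w z0 r‖ * (r * (2 - r)) ≤ ‖w z r - w z0 r‖ * 1 :=
            mul_le_mul_of_nonneg_left h3 (norm_nonneg _)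
        _ ≤ ε := by linarith
    · have h2 : ‖w z r - w z0 r‖ ≤ 2 * C := by
        refine (norm_sub_le _ _).trans ?_
        linarith [hC z hzS r hr, hC z0 hz0 r hr]
      have h3 : r * (2 - r) ≤ 2 * δ := by
        have hr' := hr.1
        have hr'' := hr.2
        by_cases h4 : δ ≤ r
        · have h5 : 2 - δ < r := by
            by_contra h6
            exact h1 ⟨h4, not_lt.mp h6⟩
          nlinarith
        · push Not at h4
          nlinarith
      calc ‖w z r - w z0 r‖ * (r * (2 - r)) ≤ (2 * C) * (2 * δ) :=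
            mul_le_mul h2 h3 hr2 (by linarith)
        _ ≤ ε := hδε
  -- the three epsilon argument
  rw [ContinuousWithinAt, Metric.tendsto_nhds]
  intro ε hε
  obtain ⟨η, hη⟩ : ∃ η : H, ‖ξ - (R * ((2 : ℂ) • 1 - R)) η‖ < ε / (2 * (2 * C + 1)) := by
    have hd := dense_hR hR
    obtain ⟨η, hη⟩ := hd.exists_dist_lt ξ (ε := ε / (2 * (2 * C + 1))) (by positivity)
    exact ⟨η, by rw [dist_eq_norm] at hη; exact hη⟩
  have hε2 : 0 < ε / (2 * (‖η‖ + 1)) := by positivity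
  filter_upwards [key _ hε2, self_mem_nhdsWithin] with z hz hzS
  rw [dist_eq_norm]
  have e1 : cal R (w z) ξ - cal R (w z0) ξ = cal R (fun r => w z r - w z0 r) ξ := by
    rw [← cad_sub hR (hA z hzS) (hA z0 hz0)]
    rfl
  rw [e1]
  have hAW := cad_AWsub (hA z hzS) (hA z0 hz0)
  have e2 : cal R (fun r => w z r - w z0 r) ξ =
      cal R (fun r => w z r - w z0 r) (ξ - (R * ((2 : ℂ) • 1 - R)) η) +
      cal R (fun r => w z r - w z0 r) ((R * ((2 : ℂ) • 1 - R)) η) := by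
    rw [← map_add, sub_add_cancel]
  rw [e2]
  have h1 : ‖cal R (fun r => w z r - w z0 r)‖ ≤ 2 * C := by
    refine cal_norm hR hAW (2 * C) (by linarith) (fun r hr => ?_)
    refine (norm_sub_le _ _).trans ?_
    linarith [hC z hzS r hr, hC z0 hz0 r hr]
  have h2 : ‖cal R (fun r => w z r - w z0 r) (ξ - (R * ((2 : ℂ) • 1 - R)) η)‖ < ε / 2 := by
    have h3 := ContinuousLinearMap.le_opNorm (cal R (fun r => w z r - w z0 r))
      (ξ - (R * ((2 : ℂ) • 1 - R)) η)
    have h4 : ‖cal R (fun r => w z r - w z0 r)‖ * ‖ξ - (R * ((2 : ℂ) • 1 - R)) η‖ ≤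
        (2 * C) * (ε / (2 * (2 * C + 1))) :=
      mul_le_mul h1 hη.le (norm_nonneg _) (by linarith)
    have h5 : (2 * C) * (ε / (2 * (2 * C + 1))) < ε / 2 := by
      have h6 : (2 * C + 1) * (ε / (2 * (2 * C + 1))) = ε / 2 := by
        field_simp
      have h7 : 0 < ε / (2 * (2 * C + 1)) := by positivity
      nlinarith
    linarith
  have h3 : ‖cal R (fun r => w z r - w z0 r) ((R * ((2 : ℂ) • 1 - R)) η)‖ ≤ ε / 2 := by
    have h4 := cad_range hR hAW (ε / (2 * (‖η‖ + 1))) hε2.le hz η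
    have h5 : ε / (2 * (‖η‖ + 1)) * ‖η‖ ≤ ε / 2 := by
      have h6 : ε / (2 * (‖η‖ + 1)) * (‖η‖ + 1) = ε / 2 := by
        field_simp
      nlinarith
    linarith
  exact lt_of_le_of_lt (norm_add_le _ _) (by linarith)

/-- second order Taylor estimate -/
theorem cad_taylor (f : ℂ → ℂ) (z0 : ℂ) (ρ C : ℝ) (hρ : 0 < ρ) (hC : 0 ≤ C)
    (hd : DifferentiableOn ℂ f (Metric.ball z0 ρ)) (hb : ∀ z ∈ Metric.ball z0 ρ, ‖f z‖ ≤ C) :
    ‖deriv f z0‖ ≤ (2 * C + 1) / ρ ∧ ∀ z ∈ Metric.ball z0 ρ,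
      ‖f z - f z0 - (z - z0) * deriv f z0‖ ≤ ((2 * ((2 * C + 1) / ρ) + 1) / ρ) * ‖z - z0‖ ^ 2 := by
  have hz0 : z0 ∈ Metric.ball z0 ρ := Metric.mem_ball_self hρ
  have hm : Set.MapsTo f (Metric.ball z0 ρ) (Metric.ball (f z0) (2 * C + 1)) := by
    intro z hz
    rw [Metric.mem_ball, dist_eq_norm]
    have := norm_sub_le (f z) (f z0)
    linarith [hb z hz, hb z0 hz0]
  have hg : ∀ z ∈ Metric.ball z0 ρ, ‖dslope f z0 z‖ ≤ (2 * C + 1) / ρ := fun z hz =>
    Complex.norm_dslope_le_div_of_mapsTo_ball hd (fun y hy => Metric.ball_subset_closedBall (hm hy)) hz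
  have hgd : DifferentiableOn ℂ (dslope f z0) (Metric.ball z0 ρ) :=
    (Complex.differentiableOn_dslope (Metric.ball_mem_nhds z0 hρ)).mpr hd
  refine ⟨?_, fun z hz => ?_⟩
  · have := hg z0 hz0
    rwa [dslope_same] at this
  · have hm2 : Set.MapsTo (dslope f z0) (Metric.ball z0 ρ)
        (Metric.ball (dslope f z0 z0) (2 * ((2 * C + 1) / ρ) + 1)) := by
      intro y hy
      rw [Metric.mem_ball, dist_eq_norm]
      have := norm_sub_le (dslope f z0 y) (dslope f z0 z0)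
      linarith [hg y hy, hg z0 hz0]
    have h1 := Complex.dist_le_div_mul_dist_of_mapsTo_ball hgd
      (fun y hy => Metric.ball_subset_closedBall (hm2 hy)) hz
    rw [dist_eq_norm, dist_eq_norm, dslope_same] at h1
    have h2 : f z - f z0 - (z - z0) * deriv f z0 =
        (z - z0) * (dslope f z0 z - deriv f z0) := by
      have h3 := sub_smul_dslope f z0 z
      rw [smul_eq_mul] at h3
      rw [mul_sub, h3]
    rw [h2, norm_mul, sq]
    calc ‖z - z0‖ * ‖dslope f z0 z - deriv f z0‖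
        ≤ ‖z - z0‖ * ((2 * ((2 * C + 1) / ρ) + 1) / ρ * ‖z - z0‖) :=
          mul_le_mul_of_nonneg_left h1 (norm_nonneg _)
      _ = _ := by ring

theorem cal_diff (hR : RR R) (S : Set ℂ) (hS : IsOpen S) (w : ℂ → ℝ → ℂ) (C : ℝ)
    (hC : ∀ z ∈ S, ∀ r ∈ Set.Ioo (0 : ℝ) 2, ‖w z r‖ ≤ C)
    (hw : ContinuousOn (fun p : ℂ × ℝ => w p.1 p.2) (S ×ˢ Set.Ioo 0 2))
    (hd : ∀ r ∈ Set.Ioo (0 : ℝ) 2, DifferentiableOn ℂ (fun z => w z r) S) :
    DifferentiableOn ℂ (fun z => cal R (w z)) S := by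
  intro z0 hz0
  have hC0 : 0 ≤ C := (norm_nonneg _).trans (hC z0 hz0 1 ⟨by norm_num, by norm_num⟩)
  have hA := cad_AW S w C hC hw
  obtain ⟨ρ, hρ, hball⟩ := Metric.isOpen_iff.mp hS z0 hz0
  set K : ℝ := (2 * ((2 * C + 1) / ρ) + 1) / ρ with hK
  have hK0 : 0 ≤ K := by rw [hK]; positivity
  have ht : ∀ r ∈ Set.Ioo (0 : ℝ) 2, ‖deriv (fun z => w z r) z0‖ ≤ (2 * C + 1) / ρ ∧
      ∀ z ∈ Metric.ball z0 ρ, ‖w z r - w z0 r - (z - z0) * deriv (fun z => w z r) z0‖ ≤
        K * ‖z - z0‖ ^ 2 := fun r hr =>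
    cad_taylor (fun z => w z r) z0 ρ C hρ hC0 ((hd r hr).mono hball)
      (fun z hz => hC z (hball hz) r hr)
  set w' : ℝ → ℂ := fun r => deriv (fun z => w z r) z0 with hw'
  have hAw' : AW w' := by
    refine ⟨?_, (2 * C + 1) / ρ, fun r hr => (ht r hr).1⟩
    refine continuousOn_of_uniform_approx_of_continuousOn (fun u hu => ?_)
    obtain ⟨ε, hε, hu2⟩ := Metric.mem_uniformity_dist.mp hu
    obtain ⟨t, ht0, htρ, htε⟩ : ∃ t : ℝ, 0 < t ∧ t < ρ ∧ K * t < ε := by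
      refine ⟨min (ρ / 2) (ε / (K + 1)), by positivity, ?_, ?_⟩
      · exact lt_of_le_of_lt (min_le_left _ _) (by linarith)
      · have h1 : min (ρ / 2) (ε / (K + 1)) ≤ ε / (K + 1) := min_le_right _ _
        have h2 : (K + 1) * (ε / (K + 1)) = ε := by field_simp
        have h3 : 0 < ε / (K + 1) := by positivity
        nlinarith
    have htb : z0 + (t : ℂ) ∈ Metric.ball z0 ρ := by
      rw [Metric.mem_ball, dist_eq_norm, add_sub_cancel_left, Complex.norm_real,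
        Real.norm_of_nonneg ht0.le]
      exact htρ
    have htc : (t : ℂ) ≠ 0 := by exact_mod_cast ht0.ne'
    refine ⟨fun r => (w (z0 + t) r - w z0 r) / t, ?_, fun r hr => hu2 ?_⟩
    · exact ((hA _ (hball htb)).1.sub (hA z0 hz0).1).div_const _
    · rw [dist_eq_norm]
      have h1 := (ht r hr).2 (z0 + t) htb
      rw [add_sub_cancel_left] at h1
      have h2 : w' r - (w (z0 + t) r - w z0 r) / t =
          -((w (z0 + t) r - w z0 r - t * w' r) / t) := by
        field_simp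
        ring
      rw [h2, norm_neg, norm_div]
      have h3 : ‖(t : ℂ)‖ = t := by rw [Complex.norm_real, Real.norm_of_nonneg ht0.le]
      rw [h3] at h1 ⊢
      rw [div_lt_iff₀ ht0]
      calc ‖w (z0 + t) r - w z0 r - t * w' r‖ ≤ K * t ^ 2 := h1
        _ = (K * t) * t := by ring
        _ < ε * t := mul_lt_mul_of_pos_right htε ht0
  have hmain : ∀ z ∈ Metric.ball z0 ρ,
      ‖cal R (w z) - cal R (w z0) - (z - z0) • cal R w'‖ ≤ K * ‖z - z0‖ ^ 2 := by
    intro z hz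
    have h1 := cad_AWsub (hA z (hball hz)) (hA z0 hz0)
    rw [cad_sub hR (hA z (hball hz)) (hA z0 hz0), cal_smul hR hAw' (z - z0),
      cad_sub hR h1 (AW.smul (z - z0) hAw')]
    exact cal_norm hR (cad_AWsub h1 (AW.smul (z - z0) hAw')) _ (by positivity)
      (fun r hr => (ht r hr).2 z hz)
  have hder : HasDerivAt (fun z => cal R (w z)) (cal R w') z0 := by
    rw [hasDerivAt_iff_isLittleO]
    refine Asymptotics.IsBigO.trans_isLittleO (g := fun z : ℂ => ‖z - z0‖ ^ 2) ?_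
      (Asymptotics.isLittleO_pow_sub_sub z0 (by norm_num))
    refine Asymptotics.IsBigO.of_bound K ?_
    filter_upwards [Metric.ball_mem_nhds z0 hρ] with z hz
    rw [norm_pow, norm_norm]
    exact hmain z hz
  exact hder.differentiableAt.differentiableWithinAt

end H52TT
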