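import Pool.Agent.H52.TT.CaB

/-!
Row CaE.  Eigenvectors: `R ζ = ζ` implies `w(R) ζ = w(1) ζ`.

`h = R (2 - R)`, `h ζ = R (2 ζ - ζ) = ζ`.  So `cal R w ζ = cal R w (h ζ) = cfc (ext w) ζ` (`cal_spec`).  It remains: for continuous `f`: `cfc f R ζ = f 1 • ζ`:
the set of such `f` is closed under constants, identity, sums, products, uniform limits (`ContinuousMap.induction_on_of_compact` on the spectrum; note `1 ∈ spectrum` if `ζ ≠ 0`), or by
approximation: replace `f` by `f - f 1`, split `f = f·min(1,|r-1|/δ) + f·(1 - min(1,|r-1|/δ))`: the second part is uniformly small, the first is `(r - 1) g(r)` with `g` continuous, and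
`cfc ((r-1) g) ζ = cfc g (R ζ - ζ) = 0`.   `ext w 1 = w 1`.
-/

open MeasureTheory Filter Topology H52BC

noncomputable section

namespace H52TT

variable {H : Type*} [NormedAddCommGroup H] [InnerProductSpace ℂ H] [CompleteSpace H]
variable {R : H →L[ℂ] H} {w : ℝ → ℂ}

open scoped ContinuousFunctionalCalculus in
private lemma CaE_hom (hR : RR R) (hn : IsStarNormal R) (ζ : H) (hζ : R ζ = ζ)
    (h1 : (1 : ℂ) ∈ spectrum ℂ R) (f : C(spectrum ℂ R, ℂ)) :
    cfcHom hn f ζ = f ⟨1, h1⟩ • ζ := by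
  induction f using ContinuousMap.induction_on_of_compact with
  | const r =>
    have h2 : (ContinuousMap.const (spectrum ℂ R) r) = algebraMap ℂ C(spectrum ℂ R, ℂ) r := rfl
    rw [h2, AlgHomClass.commutes, Algebra.algebraMap_eq_smul_one]
    simp
  | id =>
    rw [cfcHom_id hn, hζ]
    simp
  | star_id =>
    rw [map_star, cfcHom_id hn, hR.sa, hζ]
    simp
  | add f g hf hg =>
    rw [map_add, add_apply, hf, hg, ContinuousMap.add_apply, add_smul]
  | mul f g hf hg =>
    rw [map_mul, mul_apply_eq_comp, hg, map_smul, hf, ContinuousMap.mul_apply,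
      smul_smul, mul_comm]
  | frequently f h =>
    refine h.mem_of_closed (isClosed_eq ?_ ?_)
    · exact (ContinuousLinearMap.apply ℂ H ζ).continuous.comp (cfcHom_continuous hn)
    · exact (continuous_eval_const _).smul continuous_const

private lemma CaE_cfc (hR : RR R) (f : ℂ → ℂ) (hf : Continuous f) (ζ : H) (hζ : R ζ = ζ) :
    cfc f R ζ = f 1 • ζ := by
  by_cases h0 : ζ = 0
  · rw [h0, map_zero, smul_zero]
  have hn : IsStarNormal R := IsSelfAdjoint.isStarNormal hR.sa
  have h1 : (1 : ℂ) ∈ spectrum ℂ R := by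
    rw [spectrum.mem_iff]
    intro hu
    obtain ⟨u, hu⟩ := hu
    apply h0
    have h2 : (u : H →L[ℂ] H) ζ = 0 := by
      rw [hu]
      simp [hζ]
    have h3 : ((↑(u⁻¹) : H →L[ℂ] H) * (u : H →L[ℂ] H)) ζ = 0 := by
      rw [mul_apply_eq_comp, h2, map_zero]
    rw [Units.inv_mul] at h3
    simpa using h3
  rw [cfc_apply f R hn hf.continuousOn]
  exact CaE_hom hR hn ζ hζ h1 _

theorem cal_eig (hR : RR R) (hw : AW w) (ζ : H) (hζ : R ζ = ζ) : cal R w ζ = w 1 • ζ := by
  have h1 : (R * ((2 : ℂ) • 1 - R)) ζ = ζ := by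
    simp only [mul_apply_eq_comp, sub_apply, smul_apply, one_apply_eq_self, hζ,
      map_sub, map_smul]
    rw [two_smul, add_sub_cancel_right]
  have h2 : (cal R w * (R * ((2 : ℂ) • 1 - R))) ζ = cal R w ζ := by
    rw [mul_apply_eq_comp, h1]
  rw [← h2, cal_spec hR hw, CaE_cfc hR (fun z : ℂ => ext w z.re) ((ext_cont hw).comp Complex.continuous_re) ζ hζ]
  congr 1
  unfold ext
  norm_num

end H52TT
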