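import Pool.Agent.H52.TT.CaA

/-!
Row CaS.  The functional calculus `cal R w`: existence, norm, uniqueness.

* `spec_RR`: `R` is self-adjoint and `0 ≤ R ≤ 2` in the Loewner order (`ContinuousLinearMap.IsPositive`, `ContinuousLinearMap.nonneg_iff_isPositive`), so the spectrum is in `[0,2]`
  (`IsSelfAdjoint.mem_spectrum_eq_re`, `spectrum_nonneg_of_nonneg`, applied to `R` and `2 - R`; `spectrum.sub_singleton...`).
* `ext_cont`: at `0` and `2`: `|ext w r| ≤ C |r (2 - r)| → 0`.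
* `cfc_hh`: `cfc (fun z => ext (fun _ => 1) z.re) R = R * (2 • 1 - R)`: on the spectrum `ext 1 r = r (2 - r)` (`cfc_congr`), then `cfc_mul`, `cfc_sub`, `cfc_id`, `cfc_const`.
* `cfc_ext_le`: `‖cfc (ext w) ξ‖² = re ⟪ξ, cfc (|ext w|²) ξ⟫ ≤ C² re ⟪ξ, cfc (|ext 1|²) ξ⟫ = C² ‖R (2 - R) ξ‖²` (`cfc_star`, `cfc_mul`, `cfc_mono` for the real valued
  functions, Loewner order).
* `cal_spec`, `cal_norm`: `douglas` with `A = cfc (ext w)`, `B = R (2 - R)` (`dense_hR`); `cal` is `choose`, uniqueness by `eq_of_dense`.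
-/

open MeasureTheory Filter Topology H52BC

noncomputable section

namespace H52TT

variable {H : Type*} [NormedAddCommGroup H] [InnerProductSpace ℂ H] [CompleteSpace H]
variable {R : H →L[ℂ] H} {w : ℝ → ℂ}

open scoped ComplexOrder in
private lemma CaS_nonneg (T : H →L[ℂ] H) (hT : star T = T)
    (hp : ∀ ξ, 0 ≤ (inner ℂ ξ (T ξ)).re) : ∀ z ∈ spectrum ℂ T, z.im = 0 ∧ 0 ≤ z.re := by
  intro z hz
  have h1 : (0 : H →L[ℂ] H) ≤ T := by
    rw [ContinuousLinearMap.nonneg_iff_isPositive]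
    refine (ContinuousLinearMap.isPositive_def' ).2 ⟨hT, fun x => ?_⟩
    have h2 := hp x
    rw [ContinuousLinearMap.reApplyInnerSelf_apply]
    rw [inner_re_symm]
    exact h2
  have h2 := spectrum_nonneg_of_nonneg h1 hz
  rw [Complex.nonneg_iff] at h2
  exact ⟨h2.2.symm, h2.1⟩

theorem spec_RR (hR : RR R) : ∀ z ∈ spectrum ℂ R, z.im = 0 ∧ 0 ≤ z.re ∧ z.re ≤ 2 := by
  intro z hz
  obtain ⟨h1, h2⟩ := CaS_nonneg R hR.sa hR.pos z hz
  refine ⟨h1, h2, ?_⟩
  have h3 : star ((2 : ℂ) • (1 : H →L[ℂ] H) - R) = (2 : ℂ) • 1 - R := by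
    rw [star_sub, star_smul, hR.sa, star_one]
    simp
  have h4 : ∀ ξ, 0 ≤ (inner ℂ ξ (((2 : ℂ) • (1 : H →L[ℂ] H) - R) ξ)).re := by
    intro ξ
    have := hR.le ξ
    simp only [sub_apply, smul_apply,
      one_apply_eq_self, inner_sub_right, inner_smul_right, Complex.sub_re,
      inner_self_eq_norm_sq_to_K]
    simp only [Complex.coe_algebraMap, Complex.mul_re, Complex.re_ofNat, Complex.im_ofNat, zero_mul, sub_zero]
    norm_cast
    linarith
  have h5 : (2 : ℂ) - z ∈ spectrum ℂ ((2 : ℂ) • (1 : H →L[ℂ] H) - R) := by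
    have h6 := spectrum.singleton_sub_eq R (2 : ℂ)
    rw [Algebra.algebraMap_eq_smul_one] at h6
    rw [← h6]
    exact ⟨2, rfl, z, hz, rfl⟩
  have h7 := (CaS_nonneg _ h3 h4 _ h5).2
  simp at h7
  exact h7

private lemma CaS_ext_bd (C : ℝ) (hC : 0 ≤ C)
    (h : ∀ r ∈ Set.Ioo (0 : ℝ) 2, ‖w r‖ ≤ C) (r : ℝ) :
    ‖ext w r‖ ≤ C * max 0 (r * (2 - r)) := by
  unfold ext
  split_ifs with hr
  · rw [norm_mul, Complex.norm_real, Real.norm_eq_abs]
    have h1 : 0 ≤ r * (2 - r) := mul_nonneg hr.1.le (by linarith [hr.2])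
    rw [abs_of_nonneg h1, max_eq_right h1]
    exact mul_le_mul_of_nonneg_right (h r hr) h1
  · rw [norm_zero]
    exact mul_nonneg hC (le_max_left _ _)

theorem ext_cont (hw : AW w) : Continuous (ext w) := by
  obtain ⟨hc, C0, hC0⟩ := hw
  set C := max C0 0 with hCdef
  have hC : 0 ≤ C := le_max_right _ _
  have hb : ∀ r ∈ Set.Ioo (0 : ℝ) 2, ‖w r‖ ≤ C := fun r hr => (hC0 r hr).trans (le_max_left _ _)
  rw [continuous_iff_continuousAt]
  intro r
  by_cases hr : 0 < r ∧ r < 2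
  · have h1 : ContinuousAt w r := hc.continuousAt (Ioo_mem_nhds hr.1 hr.2)
    have h2 : ContinuousAt (fun r : ℝ => w r * ((r * (2 - r) : ℝ) : ℂ)) r := by
      refine h1.mul ?_
      exact (Complex.continuous_ofReal.comp (by fun_prop)).continuousAt
    refine h2.congr ?_
    filter_upwards [Ioo_mem_nhds hr.1 hr.2] with s hs
    unfold ext
    rw [if_pos ⟨hs.1, hs.2⟩]
  · have h0 : ext w r = 0 := by
      unfold ext
      rw [if_neg hr]
    have h3 : r * (2 - r) ≤ 0 := by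
      by_contra hcon
      push Not at hcon
      apply hr
      by_contra h4
      rw [not_and_or, not_lt, not_lt] at h4
      rcases h4 with h4 | h4
      · nlinarith
      · nlinarith
    unfold ContinuousAt
    rw [h0]
    refine squeeze_zero_norm (fun s => CaS_ext_bd C hC hb s) ?_
    have h5 : Continuous (fun s : ℝ => C * max 0 (s * (2 - s))) := by fun_prop
    have h6 := h5.tendsto r
    simp only [max_eq_left h3, mul_zero] at h6
    exact h6

theorem AW_const (c : ℂ) : AW (fun _ => c) :=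
  ⟨continuousOn_const, ‖c‖, fun _ _ => le_rfl⟩

private lemma CaS_cont (hw : AW w) : Continuous (fun z : ℂ => ext w z.re) :=
  (ext_cont hw).comp Complex.continuous_re

theorem cfc_hh (hR : RR R) :
    cfc (fun z : ℂ => ext (fun _ => 1) z.re) R = R * ((2 : ℂ) • 1 - R) := by
  have hn : IsStarNormal R := IsSelfAdjoint.isStarNormal hR.sa
  have h1 : cfc (fun z : ℂ => ext (fun _ => 1) z.re) R = cfc (fun z : ℂ => z * (2 - z)) R := by
    refine cfc_congr ?_
    intro z hz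
    obtain ⟨h1, h2, h3⟩ := spec_RR hR z hz
    have hz' : z = (z.re : ℂ) := Complex.ext rfl (by simp [h1])
    simp only
    unfold ext
    split_ifs with h
    · rw [one_mul]
      conv_rhs => rw [hz']
      push_cast
      ring
    · have h4 : z.re = 0 ∨ z.re = 2 := by
        by_contra hcon
        rw [not_or] at hcon
        exact h ⟨lt_of_le_of_ne h2 (Ne.symm hcon.1), lt_of_le_of_ne h3 hcon.2⟩
      rcases h4 with h4 | h4
      · rw [hz', h4]
        simp
      · rw [hz', h4]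
        simp
  rw [h1, cfc_mul (fun z : ℂ => z) (fun z : ℂ => 2 - z) R (by fun_prop) (by fun_prop),
    cfc_sub (fun _ : ℂ => (2 : ℂ)) (fun z : ℂ => z) R (by fun_prop) (by fun_prop),
    cfc_const (2 : ℂ) R, cfc_id' ℂ R, Algebra.algebraMap_eq_smul_one]

theorem cfc_ext_le (hR : RR R) (hw : AW w) (C : ℝ) (hC : 0 ≤ C)
    (h : ∀ r ∈ Set.Ioo (0 : ℝ) 2, ‖w r‖ ≤ C) (ξ : H) :
    ‖cfc (fun z : ℂ => ext w z.re) R ξ‖ ≤ C * ‖(R * ((2 : ℂ) • 1 - R)) ξ‖ := by
  have hn : IsStarNormal R := IsSelfAdjoint.isStarNormal hR.sa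
  rw [← cfc_hh hR]
  have hf : Continuous (fun z : ℂ => ext w z.re) := CaS_cont hw
  have hg : Continuous (fun z : ℂ => ext (fun _ => 1) z.re) := CaS_cont (AW_const 1)
  set f : ℂ → ℂ := fun z : ℂ => ext w z.re with hfdef
  set g : ℂ → ℂ := fun z : ℂ => ext (fun _ => 1) z.re with hgdef
  have hle : ∀ z, ‖f z‖ ≤ C * ‖g z‖ := by
    intro z
    simp only [hfdef, hgdef]
    unfold ext
    split_ifs with hr
    · rw [norm_mul, norm_mul, norm_one, one_mul]
      exact mul_le_mul_of_nonneg_right (h _ hr) (norm_nonneg _)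
    · simp
  set k : ℂ → ℂ := fun z => ((Real.sqrt ((C * ‖g z‖) ^ 2 - ‖f z‖ ^ 2) : ℝ) : ℂ) with hkdef
  have hk : Continuous k := by
    simp only [hkdef]
    fun_prop
  have hkk : ∀ z, star (k z) * k z = (C : ℂ) ^ 2 * (star (g z) * g z) - star (f z) * f z := by
    intro z
    have h1 : 0 ≤ (C * ‖g z‖) ^ 2 - ‖f z‖ ^ 2 := by
      have := pow_le_pow_left₀ (norm_nonneg _) (hle z) 2
      linarith
    have h2 : star (k z) = k z := by
      simp only [hkdef]
      exact Complex.conj_ofReal _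
    rw [h2]
    simp only [hkdef]
    rw [← Complex.ofReal_mul, Real.mul_self_sqrt h1]
    have h3 : ∀ u : ℂ, star u * u = ((‖u‖ ^ 2 : ℝ) : ℂ) := by
      intro u
      rw [Complex.star_def, ← Complex.normSq_eq_conj_mul_self, Complex.normSq_eq_norm_sq]
    rw [h3, h3]
    push_cast
    ring
  have e1 : star (cfc k R) * cfc k R =
      ((C : ℂ) ^ 2) • (star (cfc g R) * cfc g R) - star (cfc f R) * cfc f R := by
    rw [← cfc_star, ← cfc_star, ← cfc_star,
      ← cfc_mul (fun z => star (k z)) k R (by fun_prop) (by fun_prop),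
      ← cfc_mul (fun z => star (g z)) g R (by fun_prop) (by fun_prop),
      ← cfc_mul (fun z => star (f z)) f R (by fun_prop) (by fun_prop),
      ← cfc_smul ((C : ℂ) ^ 2) (fun z => star (g z) * g z) R (by fun_prop),
      ← cfc_sub (fun z => (C : ℂ) ^ 2 • (star (g z) * g z)) (fun z => star (f z) * f z) R
        (by fun_prop) (by fun_prop)]
    congr 1
    funext z
    rw [hkk z, smul_eq_mul]
  have key : ∀ T : H →L[ℂ] H, (inner ℂ ((star T * T) ξ) ξ).re = ‖T ξ‖ ^ 2 := by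
    intro T
    have := ContinuousLinearMap.apply_norm_sq_eq_inner_adjoint_left T ξ
    rw [this]
    rfl
  have e2 : ‖cfc k R ξ‖ ^ 2 = C ^ 2 * ‖cfc g R ξ‖ ^ 2 - ‖cfc f R ξ‖ ^ 2 := by
    rw [← key (cfc k R), e1, ← key (cfc g R), ← key (cfc f R)]
    simp only [sub_apply, smul_apply, inner_sub_left,
      inner_smul_left, Complex.sub_re]
    congr 1
    rw [map_pow, Complex.conj_ofReal, ← Complex.ofReal_pow, Complex.re_ofReal_mul]
  have e3 : ‖cfc f R ξ‖ ^ 2 ≤ (C * ‖cfc g R ξ‖) ^ 2 := by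
    have := sq_nonneg ‖cfc k R ξ‖
    nlinarith
  exact le_of_sq_le_sq e3 (mul_nonneg hC (norm_nonneg _))

private lemma CaS_ex (hR : RR R) (hw : AW w) (C : ℝ) (hC : 0 ≤ C)
    (h : ∀ r ∈ Set.Ioo (0 : ℝ) 2, ‖w r‖ ≤ C) :
    ∃ X : H →L[ℂ] H, X * (R * ((2 : ℂ) • 1 - R)) = cfc (fun z : ℂ => ext w z.re) R ∧ ‖X‖ ≤ C :=
  douglas _ _ C hC (cfc_ext_le hR hw C hC h) (dense_hR hR)

theorem cal_spec (hR : RR R) (hw : AW w) :
    cal R w * (R * ((2 : ℂ) • 1 - R)) = cfc (fun z : ℂ => ext w z.re) R := by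
  obtain ⟨C0, hC0⟩ := hw.2
  obtain ⟨X, hX, -⟩ := CaS_ex hR hw (max C0 0) (le_max_right _ _)
    (fun r hr => (hC0 r hr).trans (le_max_left _ _))
  have hex : ∃ X : H →L[ℂ] H,
      X * (R * ((2 : ℂ) • 1 - R)) = cfc (fun z : ℂ => ext w z.re) R := ⟨X, hX⟩
  unfold cal
  rw [dif_pos hex]
  exact hex.choose_spec

theorem cal_unique (hR : RR R) (hw : AW w) (X : H →L[ℂ] H)
    (h : X * (R * ((2 : ℂ) • 1 - R)) = cfc (fun z : ℂ => ext w z.re) R) : X = cal R w :=
  eq_of_dense (dense_hR hR) (h.trans (cal_spec hR hw).symm)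

theorem cal_norm (hR : RR R) (hw : AW w) (C : ℝ) (hC : 0 ≤ C)
    (h : ∀ r ∈ Set.Ioo (0 : ℝ) 2, ‖w r‖ ≤ C) : ‖cal R w‖ ≤ C := by
  obtain ⟨X, hX, hn⟩ := CaS_ex hR hw C hC h
  rw [← cal_unique hR hw X hX]
  exact hn

end H52TT
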