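import Pool.Agent.H52.BC.Tech
import Mathlib.Analysis.InnerProductSpace.ProdL2

/-!
Row DnP.  If `ζ` is cyclic for `M` and `⟪η, x ζ⟫` is real for all `x = x* ∈ M`, then `η` is in the closure of `{y ζ : y = y* ∈ M'}`.

Proof (bounded version of the graph argument).  By linearity `⟪η, x ζ⟫ = ⟪ζ, x η⟫` for all `x ∈ M` (for `x = x*`: `⟪η, xζ⟫ = conj ⟪η, x ζ⟫ = ⟪x ζ, η⟫ = ⟪ζ, x η⟫`; `x = a + i b`).
For `ε > 0` let `K2 = WithLp 2 (H × H)` and `G` the closure of the subspace `{(x ζ, √ε x η) : x ∈ M}` (a complex submodule, invariant under `a ⊕ a`, `a ∈ M`), `e` the orthogonal projection onto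
`G`; matrix entries `e₁₁, e₁₂, e₂₁, e₂₂ ∈ B(H)`: they commute with `M` (`e` commutes with `a ⊕ a` because `G` is invariant under `a ⊕ a` and `star a ⊕ star a`), so they are in `M'`;
`star e₁₂ = e₂₁`, `‖e_ij‖ ≤ 1`.
(1) `(x ζ, √ε x η) ∈ G`: `e₁₁ x ζ + √ε e₁₂ x η = x ζ`, `e₂₁ x ζ + √ε e₂₂ x η = √ε x η`.
(2) `(-√ε x η, x ζ) ⟂ G`: `⟪-√ε x η, z ζ⟫ + ⟪x ζ, √ε z η⟫ = √ε (-⟪η, x* z ζ⟫ + ⟪ζ, x* z η⟫) = 0`.  So `-√ε e₁₁ x η + e₁₂ x ζ = 0`, `-√ε e₂₁ x η + e₂₂ x ζ = 0`.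
Put `y_ε = ε^{-1/2} e₂₁ ∈ M'`.  By (1) with `x = 1`: `y_ε ζ = η - e₂₂ η`.  By (2) with `x = 1`: `(star y_ε) ζ = ε^{-1/2} e₁₂ ζ = e₁₁ η`.
As `ε → 0`: `e₁₁ → 1`, `e₂₂ → 0` strongly: on `x ζ`: `‖(1 - e₁₁) x ζ‖ ≤ √ε ‖x η‖` by (1), `‖e₂₂ x ζ‖ ≤ √ε ‖x η‖` by (2); `M ζ` is dense and the `e_ii` are contractions.
So `y_ε ζ → η`, `(star y_ε) ζ → η` and `((y_ε + star y_ε)/2) ζ → η`.
(You may avoid `WithLp 2 (H × H)` by any other means; e.g. sequences `ε = 1/(n+1)²`.)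
-/

open MeasureTheory Filter Topology H52BC

noncomputable section

namespace H52TT

variable {H : Type*} [NormedAddCommGroup H] [InnerProductSpace ℂ H] [CompleteSpace H]
variable {M : VonNeumannAlgebra H} {ζ : H}

/-- embedding in the first coordinate -/
def dnp_inl : H →L[ℂ] WithLp 2 (H × H) :=
  ((WithLp.prodContinuousLinearEquiv 2 ℂ H H).symm : (H × H) →L[ℂ] WithLp 2 (H × H)) ∘L
    ContinuousLinearMap.inl ℂ H H

/-- embedding in the second coordinate -/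
def dnp_inr : H →L[ℂ] WithLp 2 (H × H) :=
  ((WithLp.prodContinuousLinearEquiv 2 ℂ H H).symm : (H × H) →L[ℂ] WithLp 2 (H × H)) ∘L
    ContinuousLinearMap.inr ℂ H H

omit [CompleteSpace H] in
theorem dnp_inl_apply (ξ : H) : (dnp_inl ξ : WithLp 2 (H × H)) = WithLp.toLp 2 (ξ, (0 : H)) := rfl

omit [CompleteSpace H] in
theorem dnp_inr_apply (ξ : H) : (dnp_inr ξ : WithLp 2 (H × H)) = WithLp.toLp 2 ((0 : H), ξ) := rfl

omit [CompleteSpace H] in
theorem dnp_inl_norm (ξ : H) : ‖(dnp_inl ξ : WithLp 2 (H × H))‖ = ‖ξ‖ :=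
  WithLp.norm_toLp_fst 2 H H ξ

omit [CompleteSpace H] in
theorem dnp_inr_norm (ξ : H) : ‖(dnp_inr ξ : WithLp 2 (H × H))‖ = ‖ξ‖ :=
  WithLp.norm_toLp_snd 2 H H ξ

/-- the diagonal action -/
def dnp_T (a : H →L[ℂ] H) : WithLp 2 (H × H) →L[ℂ] WithLp 2 (H × H) :=
  ((WithLp.prodContinuousLinearEquiv 2 ℂ H H).symm : (H × H) →L[ℂ] WithLp 2 (H × H)) ∘L
    (a.prodMap a) ∘L
      ((WithLp.prodContinuousLinearEquiv 2 ℂ H H) : WithLp 2 (H × H) →L[ℂ] (H × H))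

omit [CompleteSpace H] in
theorem dnp_T_apply (a : H →L[ℂ] H) (v : WithLp 2 (H × H)) :
    dnp_T a v = WithLp.toLp 2 (a v.fst, a v.snd) := rfl

/-- the graph -/
def dnp_G (M : VonNeumannAlgebra H) (ζ η : H) (δ : ℂ) : Submodule ℂ (WithLp 2 (H × H)) where
  carrier := {v | ∃ x ∈ M, v = WithLp.toLp 2 (x ζ, δ • x η)}
  add_mem' := by
    rintro _ _ ⟨x, hx, rfl⟩ ⟨y, hy, rfl⟩
    refine ⟨x + y, add_mem hx hy, ?_⟩
    rw [← WithLp.toLp_add, Prod.mk_add_mk]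
    simp only [add_apply, smul_add]
  zero_mem' := ⟨0, zero_mem M, by simp; rfl⟩
  smul_mem' := by
    rintro c _ ⟨x, hx, rfl⟩
    refine ⟨c • x, M.toStarSubalgebra.smul_mem hx c, ?_⟩
    rw [← WithLp.toLp_smul, Prod.smul_mk]
    simp only [smul_apply, smul_comm c δ]

theorem dnp_T_mem (η : H) (δ : ℂ) (a : H →L[ℂ] H) (ha : a ∈ M) (v : WithLp 2 (H × H))
    (hv : v ∈ (dnp_G M ζ η δ).topologicalClosure) :
    dnp_T a v ∈ (dnp_G M ζ η δ).topologicalClosure := by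
  have hv' : v ∈ closure (dnp_G M ζ η δ : Set (WithLp 2 (H × H))) := hv
  have : dnp_T a v ∈ closure (dnp_G M ζ η δ : Set (WithLp 2 (H × H))) := by
    refine map_mem_closure (dnp_T a).continuous hv' ?_
    rintro _ ⟨x, hx, rfl⟩
    refine ⟨a * x, mul_mem ha hx, ?_⟩
    rw [dnp_T_apply]
    simp only [WithLp.toLp_fst, WithLp.toLp_snd, map_smul]
    rfl
  exact this

theorem dnp_T_orth (η : H) (δ : ℂ) (a : H →L[ℂ] H) (ha : a ∈ M) (v : WithLp 2 (H × H))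
    (hv : v ∈ ((dnp_G M ζ η δ).topologicalClosure)ᗮ) :
    dnp_T a v ∈ ((dnp_G M ζ η δ).topologicalClosure)ᗮ := by
  rw [Submodule.mem_orthogonal] at hv ⊢
  intro u hu
  have h1 := hv _ (dnp_T_mem η δ (star a) (star_mem ha) u hu)
  rw [dnp_T_apply] at h1 ⊢
  rw [WithLp.prod_inner_apply] at h1 ⊢
  rw [← h1]
  show inner ℂ u.fst (a v.fst) + inner ℂ u.snd (a v.snd) =
    inner ℂ ((star a) u.fst) v.fst + inner ℂ ((star a) u.snd) v.snd
  rw [ContinuousLinearMap.star_eq_adjoint, ContinuousLinearMap.adjoint_inner_left,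
    ContinuousLinearMap.adjoint_inner_left]

/-- the projection -/
def dnp_E (M : VonNeumannAlgebra H) (ζ η : H) (δ : ℂ) :
    WithLp 2 (H × H) →L[ℂ] WithLp 2 (H × H) :=
  (dnp_G M ζ η δ).topologicalClosure.starProjection

theorem dnp_comm (η : H) (δ : ℂ) (a : H →L[ℂ] H) (ha : a ∈ M) (v : WithLp 2 (H × H)) :
    dnp_E M ζ η δ (dnp_T a v) = dnp_T a (dnp_E M ζ η δ v) := by
  refine Submodule.eq_starProjection_of_mem_orthogonal
    (dnp_T_mem η δ a ha _ (Submodule.starProjection_apply_mem _ _)) ?_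
  rw [← map_sub]
  exact dnp_T_orth η δ a ha _ (Submodule.sub_starProjection_mem_orthogonal _)

theorem dnp_E_norm (η : H) (δ : ℂ) (v : WithLp 2 (H × H)) : ‖dnp_E M ζ η δ v‖ ≤ ‖v‖ :=
  Submodule.norm_starProjection_apply_le _ v

theorem dnp_E_inner (η : H) (δ : ℂ) (u v : WithLp 2 (H × H)) :
    inner ℂ (dnp_E M ζ η δ u) v = inner ℂ u (dnp_E M ζ η δ v) :=
  Submodule.inner_starProjection_left_eq_right _ u v

/-- the operator `e₂₁` (without scaling) -/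
def dnp_Y (M : VonNeumannAlgebra H) (ζ η : H) (δ : ℂ) : H →L[ℂ] H :=
  (WithLp.sndL 2 ℂ H H) ∘L (dnp_E M ζ η δ) ∘L dnp_inl

theorem dnp_Y_apply (η : H) (δ : ℂ) (ξ : H) :
    dnp_Y M ζ η δ ξ = (dnp_E M ζ η δ (dnp_inl ξ)).snd := rfl

/-- the operator `e₁₂` (without scaling) -/
def dnp_Z (M : VonNeumannAlgebra H) (ζ η : H) (δ : ℂ) : H →L[ℂ] H :=
  (WithLp.fstL 2 ℂ H H) ∘L (dnp_E M ζ η δ) ∘L dnp_inr

theorem dnp_Z_apply (η : H) (δ : ℂ) (ξ : H) :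
    dnp_Z M ζ η δ ξ = (dnp_E M ζ η δ (dnp_inr ξ)).fst := rfl

theorem dnp_adj (η : H) (δ : ℂ) : star (dnp_Y M ζ η δ) = dnp_Z M ζ η δ := by
  rw [ContinuousLinearMap.star_eq_adjoint, eq_comm, ContinuousLinearMap.eq_adjoint_iff]
  intro ξ ν
  have h1 : inner ℂ (dnp_Z M ζ η δ ξ) ν =
      inner ℂ (dnp_E M ζ η δ (dnp_inr ξ)) (dnp_inl ν) := by
    rw [WithLp.prod_inner_apply, dnp_Z_apply, dnp_inl_apply]
    show _ = inner ℂ (dnp_E M ζ η δ (dnp_inr ξ)).fst ν +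
      inner ℂ (dnp_E M ζ η δ (dnp_inr ξ)).snd (0 : H)
    rw [inner_zero_right, add_zero]
  have h2 : inner ℂ ξ (dnp_Y M ζ η δ ν) =
      inner ℂ (dnp_inr ξ) (dnp_E M ζ η δ (dnp_inl ν)) := by
    rw [WithLp.prod_inner_apply, dnp_Y_apply, dnp_inr_apply]
    show _ = inner ℂ (0 : H) (dnp_E M ζ η δ (dnp_inl ν)).fst +
      inner ℂ ξ (dnp_E M ζ η δ (dnp_inl ν)).snd
    rw [inner_zero_left, zero_add]
  rw [h1, h2, dnp_E_inner]

theorem dnp_Y_mem (η : H) (δ : ℂ) : dnp_Y M ζ η δ ∈ M.commutant := by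
  rw [VonNeumannAlgebra.mem_commutant_iff]
  intro a ha
  ext ξ
  rw [mul_apply_eq_comp, mul_apply_eq_comp, dnp_Y_apply, dnp_Y_apply]
  have h1 : (dnp_inl (a ξ) : WithLp 2 (H × H)) = dnp_T a (dnp_inl ξ) := by
    rw [dnp_T_apply, dnp_inl_apply, dnp_inl_apply]
    simp only [WithLp.toLp_fst, WithLp.toLp_snd, map_zero]
  rw [h1, dnp_comm η δ a ha, dnp_T_apply]
  rfl

theorem dnp_sym (η : H) (hη : ∀ x ∈ M, star x = x → (inner ℂ η (x ζ)).im = 0)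
    (x : H →L[ℂ] H) (hx : x ∈ M) : inner ℂ η (x ζ) = inner ℂ ζ (x η) := by
  have sa : ∀ a ∈ M, star a = a → inner ℂ η (a ζ) = inner ℂ ζ (a η) := by
    intro a ha hs
    have h1 : (starRingEnd ℂ) (inner ℂ η (a ζ)) = inner ℂ η (a ζ) := by
      rw [Complex.conj_eq_iff_im]
      exact hη a ha hs
    rw [← h1, inner_conj_symm]
    calc inner ℂ (a ζ) η = inner ℂ ζ ((star a) η) :=
          (ContinuousLinearMap.adjoint_inner_right a ζ η).symm
      _ = inner ℂ ζ (a η) := by rw [hs]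
  have ha : ((1 / 2 : ℂ) • (x + star x)) ∈ M :=
    M.toStarSubalgebra.smul_mem (add_mem hx (star_mem hx)) _
  have hb : ((-(Complex.I / 2) : ℂ) • (x - star x)) ∈ M :=
    M.toStarSubalgebra.smul_mem (sub_mem hx (star_mem hx)) _
  have sa1 : star ((1 / 2 : ℂ) • (x + star x)) = (1 / 2 : ℂ) • (x + star x) := by
    rw [star_smul, star_add, star_star, add_comm (star x) x]
    congr 1
    simp
  have sb1 : star ((-(Complex.I / 2) : ℂ) • (x - star x)) =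
      (-(Complex.I / 2) : ℂ) • (x - star x) := by
    rw [star_smul, star_sub, star_star]
    have : star (-(Complex.I / 2) : ℂ) = Complex.I / 2 := by
      simp [Complex.conj_I]
      ring
    rw [this]
    module
  have hxx : x = (1 / 2 : ℂ) • (x + star x) +
      Complex.I • ((-(Complex.I / 2) : ℂ) • (x - star x)) := by
    rw [smul_smul]
    have : Complex.I * (-(Complex.I / 2)) = 1 / 2 := by
      have := Complex.I_mul_I
      linear_combination (-1 / 2 : ℂ) * this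
    rw [this]
    module
  have e1 := sa _ ha sa1
  have e2 := sa _ hb sb1
  have e3 : ∀ ν : H, x ν = ((1 / 2 : ℂ) • (x + star x)) ν +
      Complex.I • (((-(Complex.I / 2) : ℂ) • (x - star x)) ν) := fun ν =>
    congrArg (fun A : H →L[ℂ] H => A ν) hxx
  rw [e3 ζ, e3 η, inner_add_right, inner_add_right, e1,
    inner_smul_right _ _ Complex.I, inner_smul_right _ _ Complex.I, e2]

theorem dnp_rel1 (η : H) (δ : ℂ) (x : H →L[ℂ] H) (hx : x ∈ M) :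
    dnp_E M ζ η δ (dnp_inl (x ζ)) + δ • dnp_E M ζ η δ (dnp_inr (x η)) =
      WithLp.toLp 2 (x ζ, δ • x η) := by
  rw [← map_smul, ← map_add, ← map_smul]
  have h1 : (dnp_inl (x ζ) : WithLp 2 (H × H)) + dnp_inr (δ • x η) =
      WithLp.toLp 2 (x ζ, δ • x η) := by
    rw [dnp_inl_apply, dnp_inr_apply, ← WithLp.toLp_add, Prod.mk_add_mk, add_zero, zero_add]
  rw [h1]
  refine Submodule.starProjection_eq_self_iff.2 ?_
  exact (dnp_G M ζ η δ).le_topologicalClosure ⟨x, hx, rfl⟩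

theorem dnp_rel2 (η : H) (hη : ∀ x ∈ M, star x = x → (inner ℂ η (x ζ)).im = 0) (δ : ℝ)
    (x : H →L[ℂ] H) (hx : x ∈ M) :
    dnp_E M ζ η δ (dnp_inr (x ζ)) = (δ : ℂ) • dnp_E M ζ η δ (dnp_inl (x η)) := by
  rw [← sub_eq_zero, ← map_smul, ← map_sub, ← map_smul]
  have h1 : (dnp_inr (x ζ) : WithLp 2 (H × H)) - dnp_inl ((δ : ℂ) • x η) =
      WithLp.toLp 2 (-((δ : ℂ) • x η), x ζ) := by
    rw [dnp_inl_apply, dnp_inr_apply, ← WithLp.toLp_sub, Prod.mk_sub_mk, sub_zero, zero_sub]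
  rw [h1]
  refine (Submodule.starProjection_apply_eq_zero_iff _).2 ?_
  rw [Submodule.orthogonal_closure, Submodule.mem_orthogonal]
  rintro _ ⟨z, hz, rfl⟩
  rw [WithLp.prod_inner_apply]
  show inner ℂ (z ζ) (-((δ : ℂ) • x η)) + inner ℂ ((δ : ℂ) • z η) (x ζ) = 0
  rw [inner_neg_right, inner_smul_right, inner_smul_left, Complex.conj_ofReal]
  have h2 := dnp_sym η hη (star z * x) (mul_mem (star_mem hz) hx)
  have h3 : inner ℂ η ((star z * x) ζ) = inner ℂ (z η) (x ζ) :=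
    ContinuousLinearMap.adjoint_inner_right z η (x ζ)
  have h4 : inner ℂ ζ ((star z * x) η) = inner ℂ (z ζ) (x η) :=
    ContinuousLinearMap.adjoint_inner_right z ζ (x η)
  rw [← h3, ← h4, h2]
  ring

theorem dens_commutant (hcyc : Dense {ξ : H | ∃ x ∈ M, ξ = x ζ}) (η : H)
    (hη : ∀ x ∈ M, star x = x → (inner ℂ η (x ζ)).im = 0) :
    η ∈ closure {ξ : H | ∃ y ∈ M.commutant, star y = y ∧ ξ = y ζ} := by
  rw [Metric.mem_closure_iff]
  intro ε hε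
  obtain ⟨_, hxη, ⟨x, hx, rfl⟩⟩ := Metric.dense_iff.1 hcyc η (ε / 4) (by positivity)
  rw [Metric.mem_ball, dist_comm, dist_eq_norm] at hxη
  have hN : 0 < ‖x η‖ + 1 := by positivity
  set δ : ℝ := ε / (4 * (‖x η‖ + 1)) with hδ
  have hδ0 : 0 < δ := by positivity
  have hδc : (δ : ℂ) ≠ 0 := by exact_mod_cast hδ0.ne'
  have hδx : δ * ‖x η‖ ≤ ε / 4 := by
    rw [hδ, div_mul_eq_mul_div, div_le_iff₀ (by positivity)]
    nlinarith
  -- the operators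
  have hY := dnp_Y_mem (M := M) (ζ := ζ) η (δ : ℂ)
  have hadj := dnp_adj (M := M) (ζ := ζ) η (δ : ℂ)
  have hr1 := dnp_rel1 (M := M) (ζ := ζ) η (δ : ℂ) 1 (one_mem M)
  have hr2 := dnp_rel2 (M := M) (ζ := ζ) η hη δ 1 (one_mem M)
  rw [one_apply_eq_self, one_apply_eq_self] at hr1 hr2
  have hs1 := dnp_rel1 (M := M) (ζ := ζ) η (δ : ℂ) x hx
  have hs2 := dnp_rel2 (M := M) (ζ := ζ) η hη δ x hx
  set P : WithLp 2 (H × H) →L[ℂ] WithLp 2 (H × H) := dnp_E M ζ η (δ : ℂ) with hP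
  have hPn : ∀ v, ‖P v‖ ≤ ‖v‖ := fun v => dnp_E_norm η (δ : ℂ) v
  have hiδ : ((δ : ℂ))⁻¹ * (δ : ℂ) = 1 := inv_mul_cancel₀ hδc
  -- the values of the two operators
  have v1 : ((δ : ℂ))⁻¹ • dnp_Y M ζ η (δ : ℂ) ζ = η - (P (dnp_inr η)).snd := by
    have h1 : (P (dnp_inl ζ)).snd + (δ : ℂ) • (P (dnp_inr η)).snd = (δ : ℂ) • η :=
      congrArg WithLp.snd hr1
    rw [dnp_Y_apply, eq_sub_of_add_eq h1, ← smul_sub, smul_smul, hiδ, one_smul]
  have v2 : ((δ : ℂ))⁻¹ • dnp_Z M ζ η (δ : ℂ) ζ = (P (dnp_inl η)).fst := by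
    have h1 : (P (dnp_inr ζ)).fst = (δ : ℂ) • (P (dnp_inl η)).fst := congrArg WithLp.fst hr2
    rw [dnp_Z_apply, h1, smul_smul, hiδ, one_smul]
  have b1 : ‖(P (dnp_inr η)).snd‖ ≤ ε / 2 := by
    calc ‖(P (dnp_inr η)).snd‖ ≤ ‖P (dnp_inr η)‖ := WithLp.norm_snd_le _ _
      _ = ‖P (dnp_inr (η - x ζ)) + (δ : ℂ) • P (dnp_inl (x η))‖ := by
          rw [← hs2, ← map_add, ← map_add, sub_add_cancel]
      _ ≤ ‖η - x ζ‖ + δ * ‖x η‖ := by
          refine (norm_add_le _ _).trans ?_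
          rw [norm_smul, Complex.norm_real, Real.norm_eq_abs, abs_of_pos hδ0]
          have h1 := hPn (dnp_inr (η - x ζ))
          have h2 := hPn (dnp_inl (x η))
          rw [dnp_inr_norm] at h1
          rw [dnp_inl_norm] at h2
          gcongr
      _ ≤ ε / 2 := by linarith
  have b2 : ‖(P (dnp_inl η)).fst - η‖ ≤ 3 * ε / 4 := by
    have h0 : (P (dnp_inl (x ζ))).fst + (δ : ℂ) • (P (dnp_inr (x η))).fst = x ζ :=
      congrArg WithLp.fst hs1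
    have h1 : (P (dnp_inl η)).fst = (P (dnp_inl (η - x ζ))).fst + (P (dnp_inl (x ζ))).fst := by
      have : P (dnp_inl η) = P (dnp_inl (η - x ζ)) + P (dnp_inl (x ζ)) := by
        rw [← map_add, ← map_add, sub_add_cancel]
      exact congrArg WithLp.fst this
    have h2 : (P (dnp_inl η)).fst - η = (P (dnp_inl (η - x ζ))).fst -
        (δ : ℂ) • (P (dnp_inr (x η))).fst - (η - x ζ) := by
      rw [h1, eq_sub_of_add_eq h0]
      abel
    rw [h2]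
    refine (norm_sub_le _ _).trans ?_
    have h3 : ‖(P (dnp_inl (η - x ζ))).fst‖ ≤ ‖η - x ζ‖ :=
      ((WithLp.norm_fst_le _ _).trans (hPn _)).trans (dnp_inl_norm _).le
    have h4 : ‖(P (dnp_inr (x η))).fst‖ ≤ ‖x η‖ :=
      ((WithLp.norm_fst_le _ _).trans (hPn _)).trans (dnp_inr_norm _).le
    have h5 : ‖(δ : ℂ) • (P (dnp_inr (x η))).fst‖ ≤ δ * ‖x η‖ := by
      rw [norm_smul, Complex.norm_real, Real.norm_eq_abs, abs_of_pos hδ0]
      gcongr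
    have h6 := norm_sub_le ((P (dnp_inl (η - x ζ))).fst) ((δ : ℂ) • (P (dnp_inr (x η))).fst)
    linarith
  refine ⟨_, ⟨((1 / 2 : ℂ)) • (((δ : ℂ))⁻¹ • dnp_Y M ζ η (δ : ℂ) +
    ((δ : ℂ))⁻¹ • dnp_Z M ζ η (δ : ℂ)), ?_, ?_, rfl⟩, ?_⟩
  · rw [← hadj]
    exact M.commutant.toStarSubalgebra.smul_mem (add_mem
      (M.commutant.toStarSubalgebra.smul_mem hY _)
      (M.commutant.toStarSubalgebra.smul_mem (star_mem hY) _)) _
  · rw [← hadj, star_smul, star_add, star_smul, star_smul, star_star, add_comm]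
    simp
  · rw [dist_comm, dist_eq_norm]
    simp only [smul_apply, add_apply]
    rw [v1, v2]
    have h1 : (1 / 2 : ℂ) • (η - (P (dnp_inr η)).snd + (P (dnp_inl η)).fst) - η =
        (1 / 2 : ℂ) • (((P (dnp_inl η)).fst - η) - (P (dnp_inr η)).snd) := by
      module
    rw [h1, norm_smul]
    have h2 := norm_sub_le ((P (dnp_inl η)).fst - η) ((P (dnp_inr η)).snd)
    have h3 : ‖(1 / 2 : ℂ)‖ = 1 / 2 := by norm_num
    rw [h3]
    linarith

end H52TT
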