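import Pool.Agent.H52.TT.JdA

/-!
Row GrA.  The vectors `(R α, D α)` are in the closure of `{(z ζ, z* ζ) : z ∈ M}`.

With `J` from `exists_JData` the set `G = {(z ζ, J (z* ζ)) : z ∈ M}` is a complex subspace of `H × H` (use `WithLp 2 (H × H)`), and the claim is `(R α, T α) ∈ closure G`, `T α = J (D α)`, `T = cal R (pw ½ ½)`.
`closure G = Gᗮᗮ`; let `(u, v) ⟂ G`: `⟪u, z ζ⟫ + ⟪v, J (z* ζ)⟫ = 0`.  For `z = z*`: `⟪v, J z ζ⟫ = ⟪z ζ, J v⟫` (`inner_J'` of H52BC), so `⟪u, k⟫ + ⟪k, J v⟫ = 0` for `k = z ζ` and, by `dens` and continuity,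
for all `k ∈ K = {k : (2 - R) k = D k}`.  Real part: `re ⟪u + J v, k⟫ = 0`; imaginary part: `im ⟪u - J v, k⟫ = 0`, i.e. `re ⟪i (u - J v), k⟫ = 0`.  With `P = (R + D)/2` (real projection onto `K`, see header
of RnC): `P (u + J v) = 0` and `P (i (u - J v)) = 0`, i.e. `R (u + Jv) + D (u + Jv) = 0` and `R (u - Jv) - D (u - Jv) = 0` (`R` linear, `D` conjugate linear).  Sum: `R u + D (J v) = 0`, and `D (J v) = T (J (J v)) = T v`
(`TJ`).  So `⟪(u,v), (Rα, Tα)⟫ = ⟪R u + T v, α⟫ = 0`.  Hence `(Rα, Tα) ∈ closure G`: sequences `z n` (`mem_closure_iff_seq_limit`), and `star (z n) ζ = J (J (..)) → J (T α) = D α` (`JT`).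
-/

open MeasureTheory Filter Topology H52BC

noncomputable section

namespace H52TT

variable {H : Type*} [NormedAddCommGroup H] [InnerProductSpace ℂ H] [CompleteSpace H]
variable {M : VonNeumannAlgebra H} {ζ : H} {R : H →L[ℂ] H} {D : H →L⋆[ℂ] H}

private theorem gra_re_inner_i (a b : H) :
    (inner ℂ (Complex.I • a) b).re = (inner ℂ a b).im := by
  rw [inner_smul_left]
  simp

private theorem gra_eq_zero (w : H) (h : ∀ ξ : H, (inner ℂ w ξ).re = 0) : w = 0 := by
  have h1 := h w
  rw [inner_self_eq_norm_sq_to_K] at h1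
  have h2 : ‖w‖ ^ 2 = 0 := by exact_mod_cast h1
  exact norm_eq_zero.1 (pow_eq_zero_iff (two_ne_zero) |>.1 h2)

private theorem gra_perp (h : RvD M ζ R D) (w : H)
    (hw : ∀ x ∈ M, star x = x → (inner ℂ w (x ζ)).re = 0) : R w + D w = 0 := by
  -- `w` is orthogonal to `K`
  have hK : ∀ k : H, (2 : ℂ) • k - R k = D k → (inner ℂ w k).re = 0 := by
    intro k hk
    have hcl := h.dens k hk
    have hclosed : IsClosed {k : H | (inner ℂ w k).re = 0} :=
      isClosed_eq (Complex.continuous_re.comp (continuous_const.inner continuous_id))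
        continuous_const
    have hsub : {η : H | ∃ x ∈ M, star x = x ∧ η = x ζ} ⊆ {k : H | (inner ℂ w k).re = 0} := by
      rintro _ ⟨x, hx, hxs, rfl⟩
      exact hw x hx hxs
    exact (hclosed.closure_subset_iff.2 hsub) hcl
  refine gra_eq_zero _ fun ξ => ?_
  have hk : (2 : ℂ) • (R ξ + D ξ) - R (R ξ + D ξ) = D (R ξ + D ξ) := by
    rw [map_add D, h.DR, h.DD, map_add R, map_sub R, map_smul R, smul_add]
    abel
  have h1 := hK _ hk
  have hR : inner ℂ w (R ξ) = inner ℂ (R w) ξ := by
    conv_rhs => rw [← h.sa, ContinuousLinearMap.star_eq_adjoint,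
      ContinuousLinearMap.adjoint_inner_left]
  have hD : (inner ℂ w (D ξ)).re = (inner ℂ (D w) ξ).re := by
    rw [← h.D_sym ξ w, ← inner_conj_symm, Complex.conj_re]
  rw [inner_add_right, Complex.add_re, hR, hD, ← Complex.add_re, ← inner_add_left] at h1
  exact h1

omit [CompleteSpace H] in
private theorem gra_closure {E : Type*} [NormedAddCommGroup E] [InnerProductSpace ℂ E]
    [CompleteSpace E] (S : Set E) (h0 : (0 : E) ∈ S) (ha : ∀ x ∈ S, ∀ y ∈ S, x + y ∈ S)
    (hs : ∀ (c : ℝ), ∀ x ∈ S, c • x ∈ S) (v : E)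
    (hv : ∀ w : E, (∀ s ∈ S, (inner ℂ w s).re = 0) → (inner ℂ w v).re = 0) :
    v ∈ closure S := by
  let _ : InnerProductSpace ℝ E := InnerProductSpace.complexToReal
  let K : Submodule ℝ E :=
    { carrier := S
      add_mem' := fun {x y} hx hy => ha x hx y hy
      zero_mem' := h0
      smul_mem' := fun c x hx => hs c x hx }
  have hmem : v ∈ Kᗮᗮ := by
    rw [Submodule.mem_orthogonal]
    intro w hw
    rw [Submodule.mem_orthogonal'] at hw
    exact hv w fun s hs => hw s hs
  rw [Submodule.orthogonal_orthogonal_eq_closure] at hmem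
  exact hmem

theorem graph_dense (h : RvD M ζ R D) (α : H) :
    ∃ z : ℕ → H →L[ℂ] H, (∀ n, z n ∈ M) ∧ Tendsto (fun n => z n ζ) atTop (𝓝 (R α)) ∧
      Tendsto (fun n => star (z n) ζ) atTop (𝓝 (D α)) := by
  have hcl : WithLp.toLp 2 (R α, D α) ∈
      closure {p : WithLp 2 (H × H) | ∃ x ∈ M, p = WithLp.toLp 2 (x ζ, star x ζ)} := by
    refine gra_closure _ ?_ ?_ ?_ _ ?_
    · exact ⟨0, zero_mem _, by simp; rfl⟩
    · rintro _ ⟨x, hx, rfl⟩ _ ⟨y, hy, rfl⟩
      refine ⟨x + y, add_mem hx hy, ?_⟩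
      rw [← WithLp.toLp_add, Prod.mk_add_mk]
      simp
    · rintro c _ ⟨x, hx, rfl⟩
      refine ⟨(c : ℂ) • x, M.smul_mem hx _, ?_⟩
      rw [← WithLp.toLp_smul, Prod.smul_mk, star_smul]
      simp
    intro w hw
    have hw' : ∀ x ∈ M, (inner ℂ w.fst (x ζ)).re + (inner ℂ w.snd (star x ζ)).re = 0 := by
      intro x hx
      have := hw _ ⟨x, hx, rfl⟩
      rwa [WithLp.prod_inner_apply, Complex.add_re] at this
    have h1 : R (w.fst + w.snd) + D (w.fst + w.snd) = 0 := by
      refine gra_perp h _ fun x hx hxs => ?_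
      have := hw' x hx
      rw [hxs] at this
      rw [inner_add_left, Complex.add_re]
      exact this
    have h2 : R (Complex.I • (w.fst - w.snd)) + D (Complex.I • (w.fst - w.snd)) = 0 := by
      refine gra_perp h _ fun x hx hxs => ?_
      have := hw' (Complex.I • x) (M.smul_mem hx _)
      rw [star_smul, hxs, smul_apply, smul_apply,
        inner_smul_right, inner_smul_right] at this
      rw [gra_re_inner_i, inner_sub_left, Complex.sub_im]
      simp at this
      linarith
    have h3 : R (w.fst - w.snd) - D (w.fst - w.snd) = 0 := by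
      rw [map_smul R, map_smulₛₗ D, Complex.conj_I, neg_smul, ← sub_eq_add_neg, ← smul_sub] at h2
      exact (smul_eq_zero.1 h2).resolve_left Complex.I_ne_zero
    have h4 : R w.fst + D w.snd = 0 := by
      have h5 : (2 : ℂ) • (R w.fst + D w.snd) = 0 := by
        have h6 : (R (w.fst + w.snd) + D (w.fst + w.snd)) +
            (R (w.fst - w.snd) - D (w.fst - w.snd)) = (2 : ℂ) • (R w.fst + D w.snd) := by
          rw [map_add, map_add, map_sub, map_sub, two_smul]
          abel
        rw [← h6, h1, h3, add_zero]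
      exact (smul_eq_zero.1 h5).resolve_left two_ne_zero
    rw [WithLp.prod_inner_apply, Complex.add_re]
    change (inner ℂ w.fst (R α)).re + (inner ℂ w.snd (D α)).re = 0
    have hR : inner ℂ w.fst (R α) = inner ℂ (R w.fst) α := by
      conv_rhs => rw [← h.sa, ContinuousLinearMap.star_eq_adjoint,
        ContinuousLinearMap.adjoint_inner_left]
    have hD : (inner ℂ w.snd (D α)).re = (inner ℂ (D w.snd) α).re := by
      rw [← h.D_sym α w.snd, ← inner_conj_symm, Complex.conj_re]
    rw [hR, hD, ← Complex.add_re, ← inner_add_left, h4, inner_zero_left, Complex.zero_re]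
  obtain ⟨p, hp, hlim⟩ := mem_closure_iff_seq_limit.1 hcl
  choose z hz hpz using hp
  refine ⟨z, hz, ?_, ?_⟩
  · have h1 := ((WithLp.prod_continuous_ofLp 2 H H).tendsto _).comp hlim
    have h2 := (continuous_fst.tendsto _).comp h1
    refine h2.congr fun n => ?_
    simp only [Function.comp_apply, hpz n]
  · have h1 := ((WithLp.prod_continuous_ofLp 2 H H).tendsto _).comp hlim
    have h2 := (continuous_snd.tendsto _).comp h1
    refine h2.congr fun n => ?_
    simp only [Function.comp_apply, hpz n]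

end H52TT
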