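import Pool.Agent.H52.TT.RnD
import Pool.Agent.H52.TT.GrA
import Pool.Agent.H52.TT.CaA

/-!
Row OpI.  The operator identity `D y D = λ (2 - R) x R + λ̄ R x (2 - R)`.

(II) For `a, v ∈ M'`: take `z, w ∈ M` from `R_range`: `z ζ = R a ζ`, `z* ζ = D a ζ`, `w ζ = R v ζ`, `w* ζ = D v ζ`.  `rn_form`: `⟪y R a ζ, R v ζ⟫ = λ B + λ̄ C`, `B = ⟪z x ζ, w ζ⟫`, `C = ⟪z ζ, w x ζ⟫`.
`B = ⟪z x ζ, R v ζ⟫ = ⟪R z x ζ, v ζ⟫ = ⟪2 z x ζ - D (x z* ζ), v ζ⟫` (`memM` for `z x`, `star (z x) = x z*`) `= 2 ⟪z x ζ, v ζ⟫ - ⟪D v ζ, x z* ζ⟫` (`D_sym`) and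
`⟪z x ζ, v ζ⟫ = ⟪x ζ, z* v ζ⟫ = ⟪x ζ, v z* ζ⟫ = ⟪v* x ζ, z* ζ⟫ = ⟪x v* ζ, z* ζ⟫ = ⟪v* ζ, x z* ζ⟫` (`x = x*`, `v ∈ M'`).  So `B = ⟪2 v* ζ - D v ζ, x D a ζ⟫`; by symmetry
`C = conj ⟪w x ζ, z ζ⟫ = ⟪x D v ζ, 2 a* ζ - D a ζ⟫`.  So
`⟪y R a ζ, R v ζ⟫ = λ ⟪2 v* ζ - D v ζ, x D a ζ⟫ + λ̄ ⟪x D v ζ, 2 a* ζ - D a ζ⟫`   (a, v ∈ M').
(III) `graph_dense` for the commutant (`RvD.swap`): for `α`: `a_n ∈ M'`, `a_n ζ → (2 - R) α`, `a_n* ζ → D α`; same for `β`, `v_n`.  Limit (all terms are jointly continuous):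
`⟪y R(2-R) α, R (2-R) β⟫ = λ ⟪2 D β - D (2-R) β, x D (2-R) α⟫ + λ̄ ⟪x D (2-R) β, 2 D α - D (2-R) α⟫`, with `D (2 - R) = R D`, `2 D - D (2-R) = D R = (2-R) D`, `R (2-R) = D D`.  Put `u = D α`, `v = D β`:
`⟪y D u, D v⟫ = λ ⟪(2-R) v, x R u⟫ + λ̄ ⟪x R v, (2-R) u⟫` for `u, v` in the range of `D`, which is dense (`D D = R (2-R)`, `dense_hR`), so for all `u, v`.  Finally `⟪y D u, D v⟫ = conj ⟪D v, y D u⟫ = conj ⟪D (y D u), v⟫
= ⟪v, D (y (D u))⟫` (`D_sym`), `⟪(2-R) v, x R u⟫ = ⟪v, (2-R) x R u⟫`, `⟪x R v, (2-R) u⟫ = ⟪v, R x (2-R) u⟫`.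
-/

open MeasureTheory Filter Topology H52BC

noncomputable section

namespace H52TT

variable {H : Type*} [NormedAddCommGroup H] [InnerProductSpace ℂ H] [CompleteSpace H]
variable {M : VonNeumannAlgebra H} {ζ : H} {R : H →L[ℂ] H} {D : H →L⋆[ℂ] H}

theorem OpI_c2 : (starRingEnd ℂ) (2 : ℂ) = 2 := map_ofNat _ 2

theorem OpI_star_apply (z : H →L[ℂ] H) (u v : H) : inner ℂ (z u) v = inner ℂ u (star z v) := by
  rw [ContinuousLinearMap.star_eq_adjoint, ContinuousLinearMap.adjoint_inner_right]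

theorem OpI_R_sym (hR : star R = R) (u v : H) : inner ℂ (R u) v = inner ℂ u (R v) := by
  have := OpI_star_apply R u v
  rw [hR] at this
  exact this

theorem OpI_comm {v x : H →L[ℂ] H} (hv : v ∈ M.commutant) (hx : x ∈ M) (u : H) :
    x (v u) = v (x u) := by
  have h1 : x * v = v * x := by
    rw [VonNeumannAlgebra.mem_commutant_iff] at hv
    exact hv x hx
  have := congrArg (fun T : H →L[ℂ] H => T u) h1
  simpa using this

/-- `⟪z x ζ, v ζ⟫ = ⟪v* ζ, x z* ζ⟫` -/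
theorem OpI_move (z x v : H →L[ℂ] H) (hz : z ∈ M) (hxM : x ∈ M) (hxs : star x = x)
    (hv : v ∈ M.commutant) :
    inner ℂ (z (x ζ)) (v ζ) = inner ℂ (star v ζ) (x (star z ζ)) := by
  have hzs : star z ∈ M := star_mem hz
  have hvs : star v ∈ M.commutant := star_mem hv
  rw [OpI_star_apply z, OpI_comm hv hzs]
  have e : inner ℂ (x ζ) (v (star z ζ)) = inner ℂ (star v (x ζ)) (star z ζ) := by
    rw [OpI_star_apply (star v), star_star]
  rw [e, ← OpI_comm hvs hxM, OpI_star_apply x, hxs]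

/-- `B = ⟪2 v* ζ - D v ζ, x D a ζ⟫` -/
theorem OpI_B (h : RvD M ζ R D) (z x v a : H →L[ℂ] H) (hz : z ∈ M) (hxM : x ∈ M)
    (hxs : star x = x) (hv : v ∈ M.commutant) (hz2 : star z ζ = D (a ζ)) :
    inner ℂ (z (x ζ)) (R (v ζ)) = inner ℂ ((2 : ℂ) • star v ζ - D (v ζ)) (x (D (a ζ))) := by
  have hR : star R = R := h.sa
  have hm := h.memM (z * x) (mul_mem hz hxM)
  rw [star_mul, hxs] at hm
  have hm' : R (z (x ζ)) = (2 : ℂ) • z (x ζ) - D (x (star z ζ)) := by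
    have : (2 : ℂ) • z (x ζ) - R (z (x ζ)) = D (x (star z ζ)) := hm
    rw [← this]; abel
  rw [← OpI_R_sym hR, hm', inner_sub_left, inner_smul_left, OpI_move z x v hz hxM hxs hv,
    h.D_sym (x (star z ζ)) (v ζ), hz2, inner_sub_left, inner_smul_left]

theorem form_II (h : RvD M ζ R D) (hsep : ∀ x ∈ M, x ζ = 0 → x = 0) (x y : H →L[ℂ] H)
    (hxM : x ∈ M) (hxs : star x = x) (hy : y ∈ M.commutant) (θ : ℝ)
    (hx : ∀ z ∈ M, inner ℂ (y ζ) (z ζ) =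
      lam θ * inner ℂ (x ζ) (z ζ) + (starRingEnd ℂ) (lam θ) * inner ℂ (star z ζ) (x ζ))
    (a v : H →L[ℂ] H) (ha : a ∈ M.commutant) (hv : v ∈ M.commutant) :
    inner ℂ (y (R (a ζ))) (R (v ζ)) =
      lam θ * inner ℂ ((2 : ℂ) • star v ζ - D (v ζ)) (x (D (a ζ))) +
      (starRingEnd ℂ) (lam θ) * inner ℂ (x (D (v ζ))) ((2 : ℂ) • star a ζ - D (a ζ)) := by
  obtain ⟨z, hz, hz1, hz2⟩ := R_range h hsep a ha
  obtain ⟨w, hw, hw1, hw2⟩ := R_range h hsep v hv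
  have hf := rn_form x y hy θ hx z w hz hw
  rw [hz1, hw1] at hf
  rw [hf, OpI_B h z x v a hz hxM hxs hv hz2]
  have hC := OpI_B h w x a v hw hxM hxs ha hw2
  have hC' : inner ℂ (R (a ζ)) (w (x ζ)) =
      inner ℂ (x (D (v ζ))) ((2 : ℂ) • star a ζ - D (a ζ)) := by
    rw [← inner_conj_symm, hC, inner_conj_symm]
  rw [hC']

theorem op_identity (h : RvD M ζ R D) (hsep : ∀ x ∈ M, x ζ = 0 → x = 0) (x y : H →L[ℂ] H)
    (hxM : x ∈ M) (hxs : star x = x) (hy : y ∈ M.commutant) (θ : ℝ)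
    (hx : ∀ z ∈ M, inner ℂ (y ζ) (z ζ) =
      lam θ * inner ℂ (x ζ) (z ζ) + (starRingEnd ℂ) (lam θ) * inner ℂ (star z ζ) (x ζ))
    (u : H) : D (y (D u)) = lam θ • ((2 : ℂ) • x (R u) - R (x (R u))) +
      (starRingEnd ℂ) (lam θ) • R (x ((2 : ℂ) • u - R u)) := by
  have hR : star R = R := h.sa
  -- the limit form
  have hIII : ∀ α β : H, inner ℂ (y (R ((2 : ℂ) • α - R α))) (R ((2 : ℂ) • β - R β)) =
      lam θ * inner ℂ ((2 : ℂ) • D β - D ((2 : ℂ) • β - R β)) (x (D ((2 : ℂ) • α - R α))) +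
      (starRingEnd ℂ) (lam θ) * inner ℂ (x (D ((2 : ℂ) • β - R β)))
        ((2 : ℂ) • D α - D ((2 : ℂ) • α - R α)) := by
    intro α β
    have hs := h.swap
    obtain ⟨a, ha, ha1, ha2⟩ := graph_dense hs α
    obtain ⟨v, hv, hv1, hv2⟩ := graph_dense hs β
    have hRα : ((2 : ℂ) • 1 - R : H →L[ℂ] H) α = (2 : ℂ) • α - R α := by simp
    have hRβ : ((2 : ℂ) • 1 - R : H →L[ℂ] H) β = (2 : ℂ) • β - R β := by simp
    rw [hRα] at ha1
    rw [hRβ] at hv1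
    have hL : Tendsto (fun n => inner ℂ (y (R (a n ζ))) (R (v n ζ))) atTop
        (𝓝 (inner ℂ (y (R ((2 : ℂ) • α - R α))) (R ((2 : ℂ) • β - R β)))) :=
      Filter.Tendsto.inner ((y.continuous.tendsto _).comp ((R.continuous.tendsto _).comp ha1))
        ((R.continuous.tendsto _).comp hv1)
    have hD1 : Tendsto (fun n => D (a n ζ)) atTop (𝓝 (D ((2 : ℂ) • α - R α))) :=
      (D.continuous.tendsto _).comp ha1
    have hD2 : Tendsto (fun n => D (v n ζ)) atTop (𝓝 (D ((2 : ℂ) • β - R β))) :=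
      (D.continuous.tendsto _).comp hv1
    have hx1 : Tendsto (fun n => x (D (a n ζ))) atTop (𝓝 (x (D ((2 : ℂ) • α - R α)))) :=
      (x.continuous.tendsto _).comp hD1
    have hx2 : Tendsto (fun n => x (D (v n ζ))) atTop (𝓝 (x (D ((2 : ℂ) • β - R β)))) :=
      (x.continuous.tendsto _).comp hD2
    have hs1 : Tendsto (fun n => (2 : ℂ) • star (a n) ζ - D (a n ζ)) atTop
        (𝓝 ((2 : ℂ) • D α - D ((2 : ℂ) • α - R α))) := (ha2.const_smul (2 : ℂ)).sub hD1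
    have hs2 : Tendsto (fun n => (2 : ℂ) • star (v n) ζ - D (v n ζ)) atTop
        (𝓝 ((2 : ℂ) • D β - D ((2 : ℂ) • β - R β))) := (hv2.const_smul (2 : ℂ)).sub hD2
    have hRt := ((hs2.inner hx1 (𝕜 := ℂ)).const_mul (lam θ)).add
      ((hx2.inner hs1 (𝕜 := ℂ)).const_mul ((starRingEnd ℂ) (lam θ)))
    refine tendsto_nhds_unique hL (hRt.congr fun n => ?_)
    exact (form_II h hsep x y hxM hxs hy θ hx (a n) (v n) (ha n) (hv n)).symm
  -- rewrite with `D`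
  have hDsub : ∀ ξ, D ((2 : ℂ) • ξ - R ξ) = R (D ξ) := by
    intro ξ
    rw [map_sub, h.DR, map_smulₛₗ, OpI_c2]
    abel
  have hIV : ∀ α β : H, inner ℂ (y (D (D α))) (D (D β)) =
      lam θ * inner ℂ ((2 : ℂ) • D β - R (D β)) (x (R (D α))) +
      (starRingEnd ℂ) (lam θ) * inner ℂ (x (R (D β))) ((2 : ℂ) • D α - R (D α)) := by
    intro α β
    have := hIII α β
    rw [hDsub, hDsub] at this
    rw [h.DD, h.DD]
    exact this
  -- density of the range of `D`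
  have hDd : DenseRange D := by
    have h0 : DenseRange (R * ((2 : ℂ) • 1 - R) : H →L[ℂ] H) := dense_hR h.toRR
    refine h0.mono ?_
    rintro _ ⟨ξ, rfl⟩
    refine ⟨D ξ, ?_⟩
    rw [h.DD]
    simp
  have hV : ∀ u v : H, inner ℂ (y (D u)) (D v) =
      lam θ * inner ℂ ((2 : ℂ) • v - R v) (x (R u)) +
      (starRingEnd ℂ) (lam θ) * inner ℂ (x (R v)) ((2 : ℂ) • u - R u) := by
    intro u v
    have h1 : ∀ α, ∀ v, inner ℂ (y (D (D α))) (D v) =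
        lam θ * inner ℂ ((2 : ℂ) • v - R v) (x (R (D α))) +
        (starRingEnd ℂ) (lam θ) * inner ℂ (x (R v)) ((2 : ℂ) • D α - R (D α)) := by
      intro α
      have hc1 : Continuous fun v => inner ℂ (y (D (D α))) (D v) := by fun_prop
      have hc2 : Continuous fun v => lam θ * inner ℂ ((2 : ℂ) • v - R v) (x (R (D α))) +
        (starRingEnd ℂ) (lam θ) * inner ℂ (x (R v)) ((2 : ℂ) • D α - R (D α)) := by fun_prop
      exact fun v => congrFun (hDd.equalizer hc1 hc2 (funext fun β => hIV α β)) v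
    have hc1 : Continuous fun u => inner ℂ (y (D u)) (D v) := by fun_prop
    have hc2 : Continuous fun u => lam θ * inner ℂ ((2 : ℂ) • v - R v) (x (R u)) +
        (starRingEnd ℂ) (lam θ) * inner ℂ (x (R v)) ((2 : ℂ) • u - R u) := by fun_prop
    exact congrFun (hDd.equalizer hc1 hc2 (funext fun α => h1 α v)) u
  refine ext_inner_left ℂ fun v => ?_
  have h2 := hV u v
  have h3 : inner ℂ (y (D u)) (D v) = inner ℂ v (D (y (D u))) := by
    rw [← inner_conj_symm, ← h.D_sym (y (D u)) v, inner_conj_symm]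
  rw [← h3, h2, inner_add_right, inner_smul_right, inner_smul_right]
  have h4 : inner ℂ ((2 : ℂ) • v - R v) (x (R u)) =
      inner ℂ v ((2 : ℂ) • x (R u) - R (x (R u))) := by
    rw [inner_sub_left, inner_sub_right, inner_smul_left, inner_smul_right, OpI_R_sym hR, OpI_c2]
  have h5 : inner ℂ (x (R v)) ((2 : ℂ) • u - R u) =
      inner ℂ v (R (x ((2 : ℂ) • u - R u))) := by
    rw [OpI_star_apply x, hxs, OpI_R_sym hR]
  rw [h4, h5]

end H52TT
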