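import Pool.Agent.H52.TT.CaC
import Pool.Agent.H52.TT.CaD
import Pool.Agent.H52.TT.CaE

/-!
Row PwA.  Powers `pw a b r = (2 - r)^a r^b = exp (a log (2 - r) + b log r)` on `(0,2)`, `Re a, Re b ≥ 0`.

`‖pw a b r‖ = exp (Re a log (2-r) + Re b log r) ≤ exp ((Re a + Re b) log 2)` since `log (2 - r), log r ≤ log 2` on `(0,2)`.  Everything else follows from CaB, CaC (cal_conj: `conj (pw a b (2 - r)) =
pw (conj b) (conj a) r`; cal_swap: `pw a b (2 - r) = pw b a r`), CaE (`pw a b 1 = 1` as `log 1 = 0`), CaD.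
`cal R (pw 0 1) = R` since `exp (log r) = r` on `(0,2)` (`cal_congr`, `cal_id`), `cal R (pw 1 0) = 2 - R`.
-/

open MeasureTheory Filter Topology H52BC

noncomputable section

namespace H52TT

variable {H : Type*} [NormedAddCommGroup H] [InnerProductSpace ℂ H] [CompleteSpace H]
variable {R : H →L[ℂ] H} {a b c d : ℂ}

theorem PwA_re (a b : ℂ) (r : ℝ) :
    (a * (Real.log (2 - r) : ℂ) + b * (Real.log r : ℂ)).re =
      a.re * Real.log (2 - r) + b.re * Real.log r := by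
  simp [Complex.add_re, Complex.mul_re, Complex.ofReal_re, Complex.ofReal_im]

theorem pw_bound (ha : 0 ≤ a.re) (hb : 0 ≤ b.re) (r : ℝ) (hr : r ∈ Set.Ioo (0 : ℝ) 2) :
    ‖pw a b r‖ ≤ Real.exp ((a.re + b.re) * Real.log 2) := by
  unfold pw
  rw [Complex.norm_exp, PwA_re, Real.exp_le_exp]
  have h1 : Real.log (2 - r) ≤ Real.log 2 :=
    Real.log_le_log (by linarith [hr.2]) (by linarith [hr.1])
  have h2 : Real.log r ≤ Real.log 2 := Real.log_le_log hr.1 (by linarith [hr.2])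
  nlinarith [mul_le_mul_of_nonneg_left h1 ha, mul_le_mul_of_nonneg_left h2 hb]

theorem PwA_contLog : ContinuousOn (fun r : ℝ => (Real.log r : ℂ)) (Set.Ioo 0 2) := by
  intro r hr
  exact (Complex.continuous_ofReal.continuousAt.comp
    (Real.continuousAt_log (ne_of_gt hr.1))).continuousWithinAt

theorem PwA_contLog' : ContinuousOn (fun r : ℝ => (Real.log (2 - r) : ℂ)) (Set.Ioo 0 2) := by
  intro r hr
  have h1 : ContinuousAt (fun r : ℝ => 2 - r) r := by fun_prop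
  have h2 : ContinuousAt Real.log (2 - r) :=
    Real.continuousAt_log (ne_of_gt (by linarith [hr.2]))
  exact (Complex.continuous_ofReal.continuousAt.comp
    (ContinuousAt.comp (f := fun r : ℝ => 2 - r) h2 h1)).continuousWithinAt

theorem AW_pw (ha : 0 ≤ a.re) (hb : 0 ≤ b.re) : AW (pw a b) := by
  refine ⟨?_, _, fun r hr => pw_bound ha hb r hr⟩
  unfold pw
  exact Complex.continuous_exp.comp_continuousOn
    ((continuousOn_const.mul PwA_contLog').add (continuousOn_const.mul PwA_contLog))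

theorem cal_pw_norm (hR : RR R) (ha : 0 ≤ a.re) (hb : 0 ≤ b.re) :
    ‖cal R (pw a b)‖ ≤ Real.exp ((a.re + b.re) * Real.log 2) :=
  cal_norm hR (AW_pw ha hb) _ (Real.exp_pos _).le (fun r hr => pw_bound ha hb r hr)

theorem PwA_mul (a b c d : ℂ) (r : ℝ) : pw a b r * pw c d r = pw (a + c) (b + d) r := by
  unfold pw
  rw [← Complex.exp_add]
  congr 1
  ring

theorem cal_pw_mul (hR : RR R) (ha : 0 ≤ a.re) (hb : 0 ≤ b.re) (hc : 0 ≤ c.re) (hd : 0 ≤ d.re) :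
    cal R (pw a b) * cal R (pw c d) = cal R (pw (a + c) (b + d)) := by
  rw [cal_mul hR (AW_pw ha hb) (AW_pw hc hd)]
  exact cal_congr fun r _ => PwA_mul a b c d r

theorem PwA_conj (a b : ℂ) (r : ℝ) :
    (starRingEnd ℂ) (pw a b r) = pw ((starRingEnd ℂ) a) ((starRingEnd ℂ) b) r := by
  unfold pw
  rw [← Complex.exp_conj, map_add, map_mul, map_mul, Complex.conj_ofReal, Complex.conj_ofReal]

theorem cal_pw_star (hR : RR R) (ha : 0 ≤ a.re) (hb : 0 ≤ b.re) :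
    star (cal R (pw a b)) = cal R (pw ((starRingEnd ℂ) a) ((starRingEnd ℂ) b)) := by
  rw [cal_star hR (AW_pw ha hb)]
  exact cal_congr fun r _ => PwA_conj a b r

theorem cal_pw_zero (hR : RR R) : cal R (pw 0 0) = 1 := by
  rw [← cal_one hR]
  exact cal_congr fun r _ => by simp [pw]

theorem PwA_id (r : ℝ) (hr : r ∈ Set.Ioo (0 : ℝ) 2) : pw 0 1 r = (r : ℂ) := by
  unfold pw
  rw [zero_mul, zero_add, one_mul, ← Complex.ofReal_exp, Real.exp_log hr.1]

theorem PwA_id' (r : ℝ) (hr : r ∈ Set.Ioo (0 : ℝ) 2) : pw 1 0 r = 2 * 1 + (-1) * (r : ℂ) := by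
  unfold pw
  rw [zero_mul, add_zero, one_mul, ← Complex.ofReal_exp, Real.exp_log (by linarith [hr.2])]
  push_cast
  ring

theorem cal_pw_R (hR : RR R) : cal R (pw 0 1) = R := by
  have h : cal R (pw 0 1) = cal R (fun r => (r : ℂ)) := cal_congr PwA_id
  rw [h, cal_id hR]

theorem PwA_AWid : AW (fun r => (r : ℂ)) := by
  refine ⟨Complex.continuous_ofReal.continuousOn, 2, fun r hr => ?_⟩
  rw [Complex.norm_real, Real.norm_eq_abs, abs_of_pos hr.1]
  exact hr.2.le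

theorem cal_pw_R' (hR : RR R) : cal R (pw 1 0) = (2 : ℂ) • 1 - R := by
  have h : cal R (pw 1 0) = cal R (fun r : ℝ => (2 : ℂ) * 1 + (-1) * (r : ℂ)) :=
    cal_congr PwA_id'
  rw [h]
  have h1 := cal_add hR (AW.smul (2 : ℂ) (AW_const 1)) (AW.smul (-1 : ℂ) PwA_AWid)
  rw [← h1, ← cal_smul hR (AW_const 1) 2, ← cal_smul hR PwA_AWid (-1), cal_one hR, cal_id hR]
  simp [sub_eq_add_neg]

theorem PwA_swap (a b : ℂ) (r : ℝ) : pw a b (2 - r) = pw b a r := by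
  unfold pw
  rw [sub_sub_cancel, add_comm]

theorem cal_pw_conj (hR : RR R) (ha : 0 ≤ a.re) (hb : 0 ≤ b.re) (E : H →L⋆[ℂ] H)
    (hE : ∀ ξ, E (R ξ) = (2 : ℂ) • E ξ - R (E ξ)) (ξ : H) :
    E (cal R (pw a b) ξ) = cal R (pw ((starRingEnd ℂ) b) ((starRingEnd ℂ) a)) (E ξ) := by
  rw [cal_conj hR (AW_pw ha hb) E hE ξ]
  congr 1
  exact cal_congr fun r _ => by rw [PwA_swap, PwA_conj]

theorem cal_pw_swap (hR : RR R) (ha : 0 ≤ a.re) (hb : 0 ≤ b.re) :
    cal ((2 : ℂ) • 1 - R) (pw a b) = cal R (pw b a) := by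
  rw [cal_swap hR (AW_pw ha hb)]
  exact cal_congr fun r _ => PwA_swap a b r

theorem cal_pw_eig (hR : RR R) (ha : 0 ≤ a.re) (hb : 0 ≤ b.re) (ζ : H) (hζ : R ζ = ζ) :
    cal R (pw a b) ζ = ζ := by
  rw [cal_eig hR (AW_pw ha hb) ζ hζ]
  have : pw a b 1 = 1 := by
    unfold pw
    norm_num
  rw [this, one_smul]

theorem PwA_bd (S : Set ℂ) (f g : ℂ → ℂ) (K : ℝ)
    (h : ∀ z ∈ S, 0 ≤ (f z).re ∧ 0 ≤ (g z).re ∧ (f z).re + (g z).re ≤ K) :
    ∀ z ∈ S, ∀ r ∈ Set.Ioo (0 : ℝ) 2, ‖pw (f z) (g z) r‖ ≤ Real.exp (K * Real.log 2) := by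
  intro z hz r hr
  obtain ⟨h1, h2, h3⟩ := h z hz
  refine (pw_bound h1 h2 r hr).trans (Real.exp_le_exp.2 ?_)
  exact mul_le_mul_of_nonneg_right h3 (Real.log_nonneg (by norm_num))

theorem PwA_joint (S : Set ℂ) (f g : ℂ → ℂ) (hf : ContinuousOn f S) (hg : ContinuousOn g S) :
    ContinuousOn (fun p : ℂ × ℝ => pw (f p.1) (g p.1) p.2) (S ×ˢ Set.Ioo 0 2) := by
  unfold pw
  have hm1 : Set.MapsTo (fun p : ℂ × ℝ => p.1) (S ×ˢ Set.Ioo (0 : ℝ) 2) S := fun p hp => hp.1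
  have hm2 : Set.MapsTo (fun p : ℂ × ℝ => p.2) (S ×ˢ Set.Ioo (0 : ℝ) 2) (Set.Ioo (0 : ℝ) 2) :=
    fun p hp => hp.2
  exact Complex.continuous_exp.comp_continuousOn
    (((hf.comp continuousOn_fst hm1).mul (PwA_contLog'.comp continuousOn_snd hm2)).add
      ((hg.comp continuousOn_fst hm1).mul (PwA_contLog.comp continuousOn_snd hm2)))

theorem cal_pw_cont (hR : RR R) (S : Set ℂ) (f g : ℂ → ℂ) (hf : ContinuousOn f S)
    (hg : ContinuousOn g S) (K : ℝ)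
    (h : ∀ z ∈ S, 0 ≤ (f z).re ∧ 0 ≤ (g z).re ∧ (f z).re + (g z).re ≤ K) (ξ : H) :
    ContinuousOn (fun z => cal R (pw (f z) (g z)) ξ) S :=
  cal_cont hR S (fun z => pw (f z) (g z)) _ (PwA_bd S f g K h) (PwA_joint S f g hf hg) ξ

theorem cal_pw_diff (hR : RR R) (S : Set ℂ) (hS : IsOpen S) (f g : ℂ → ℂ)
    (hf : DifferentiableOn ℂ f S) (hg : DifferentiableOn ℂ g S) (K : ℝ)
    (h : ∀ z ∈ S, 0 ≤ (f z).re ∧ 0 ≤ (g z).re ∧ (f z).re + (g z).re ≤ K) :
    DifferentiableOn ℂ (fun z => cal R (pw (f z) (g z))) S := by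
  refine cal_diff hR S hS (fun z => pw (f z) (g z)) _ (PwA_bd S f g K h)
    (PwA_joint S f g hf.continuousOn hg.continuousOn) ?_
  intro r _
  unfold pw
  exact ((hf.mul_const _).add (hg.mul_const _)).cexp

theorem PwA_re0 (t : ℝ) : 0 ≤ (Complex.I * t : ℂ).re := by simp

theorem PwA_re0' (t : ℝ) : 0 ≤ (-(Complex.I * t) : ℂ).re := by simp

theorem UT_zero (hR : RR R) : UT R 0 = 1 := by
  unfold UT
  rw [← cal_pw_zero hR]
  simp

theorem UT_add (hR : RR R) (s t : ℝ) : UT R (s + t) = UT R s * UT R t := by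
  unfold UT
  rw [cal_pw_mul hR (PwA_re0 s) (PwA_re0' s) (PwA_re0 t) (PwA_re0' t)]
  congr 2
  · push_cast
    ring
  · push_cast
    ring

theorem UT_star (hR : RR R) (t : ℝ) : star (UT R t) = UT R (-t) := by
  unfold UT
  rw [cal_pw_star hR (PwA_re0 t) (PwA_re0' t)]
  congr 2
  · simp
  · simp

theorem UT_cont (hR : RR R) (ξ : H) : Continuous fun t => UT R t ξ := by
  have h1 : ContinuousOn (fun z : ℂ => cal R (pw (Complex.I * z) (-(Complex.I * z))) ξ)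
      {z : ℂ | z.im = 0} := by
    refine cal_pw_cont hR _ (fun z => Complex.I * z) (fun z => -(Complex.I * z))
      (by fun_prop) (by fun_prop) 0 ?_ ξ
    intro z hz
    have hz' : z.im = 0 := hz
    simp [hz']
  have h2 : Continuous fun t : ℝ => (t : ℂ) := Complex.continuous_ofReal
  exact h1.comp_continuous h2 (fun t => by simp)

theorem UT_fix (hR : RR R) (t : ℝ) (ζ : H) (hζ : R ζ = ζ) : UT R t ζ = ζ :=
  cal_pw_eig hR (PwA_re0 t) (PwA_re0' t) ζ hζ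

theorem UT_swap (hR : RR R) (t : ℝ) : UT ((2 : ℂ) • 1 - R) t = UT R (-t) := by
  unfold UT
  rw [cal_pw_swap hR (PwA_re0 t) (PwA_re0' t)]
  congr 2
  · simp
  · simp

theorem UT_norm (hR : RR R) (t : ℝ) (ξ : H) : ‖UT R t ξ‖ = ‖ξ‖ := by
  have h1 : star (UT R t) * UT R t = 1 := by
    rw [UT_star hR, ← UT_add hR, neg_add_cancel, UT_zero hR]
  have h2 : inner ℂ (UT R t ξ) (UT R t ξ) = inner ℂ ξ ξ := by
    rw [← ContinuousLinearMap.adjoint_inner_right, ← ContinuousLinearMap.star_eq_adjoint]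
    have h3 : star (UT R t) (UT R t ξ) = (star (UT R t) * UT R t) ξ := rfl
    rw [h3, h1]
    rfl
  rw [inner_self_eq_norm_sq_to_K, inner_self_eq_norm_sq_to_K] at h2
  have h3 : ‖UT R t ξ‖ ^ 2 = ‖ξ‖ ^ 2 := by exact_mod_cast h2
  exact (sq_eq_sq₀ (norm_nonneg _) (norm_nonneg _)).1 h3

theorem UT_pw_comm (hR : RR R) (ha : 0 ≤ a.re) (hb : 0 ≤ b.re) (t : ℝ) :
    UT R t * cal R (pw a b) = cal R (pw a b) * UT R t := by
  unfold UT
  rw [cal_pw_mul hR (PwA_re0 t) (PwA_re0' t) ha hb, cal_pw_mul hR ha hb (PwA_re0 t) (PwA_re0' t),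
    add_comm a, add_comm b]

end H52TT
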