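import Pool.Agent.H52.BC.FmN
import Pool.Agent.H52.BC.Tech

/-!
Row RnA.  Two facts for the Radon - Nikodym theorem.

* `abs_bound`.  `z = z* ∈ M`, `f_n(s) = s/(|s| + 1/n)`, `u = f_n(z)` (real continuous functional calculus `cfc f_n z`), `u = u*`, `‖u‖ ≤ 1`, `u ∈ M` (an operator in `M'` commutes with `z`, so with
  `cfc f_n z`: `Commute.cfc_real`-type lemma; `M = M''`), `u z = g_n(z)`, `g_n(s) = s²/(|s| + 1/n) ≥ 0`.  `⟪u ζ, z ζ⟫ = ⟪ζ, u z ζ⟫` is real.  Let `v = cfc (fun s => √|s|) z`.  `|s| - g_n(s) ≤ 1/n` so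
  `‖v ζ‖² = ⟪ζ, |z| ζ⟫ ≤ re ⟪u ζ, z ζ⟫ + ‖ζ‖²/n`; and `‖z - v f_n(z) v‖ ≤ 1/n` (`s - |s| s/(|s|+1/n) = s/(n(|s|+1/n))`), so for `y ∈ M'` (commutes with `v`):
  `|⟪y ζ, z ζ⟫| ≤ |⟪y ζ, v u v ζ⟫| + ‖y‖ ‖ζ‖²/n = |⟪y v ζ, u v ζ⟫| + .. ≤ ‖y‖ ‖v ζ‖² + ‖y‖‖ζ‖²/n ≤ ‖y‖ re ⟪uζ, zζ⟫ + 2 ‖y‖ ‖ζ‖²/n ≤ ‖y‖ re ⟪u ζ, z ζ⟫ + e` for `n` large.
* `ball_closed`.  Let `x_n = x_n* ∈ M`, `‖x_n‖ ≤ c`, `x_n ζ → ξ`.  For `y ∈ M'`: `x_n y ζ = y x_n ζ` converges, `M' ζ` is dense (`hden`), so `x_n` converges strongly (`strong_limit` with `D = M' ζ`) to some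
  `x`; `x = x*` (`strong_star`), `x ∈ M = M''` (`strong_mem` or directly), `‖x‖ ≤ c`, `x ζ = ξ`.
-/

open MeasureTheory Filter Topology H52BC

noncomputable section

namespace H52TT

variable {H : Type*} [NormedAddCommGroup H] [InnerProductSpace ℂ H] [CompleteSpace H]
variable {M : VonNeumannAlgebra H} {ζ : H}

omit [CompleteSpace H] in
theorem rna_inner_self_le [CompleteSpace H] (r : H →L[ℂ] H) (a b : H) (c : ℝ) (hr : ‖r‖ ≤ c) :
    ‖inner ℂ a (r b)‖ ≤ c * (‖a‖ * ‖b‖) := by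
  calc ‖inner ℂ a (r b)‖ ≤ ‖a‖ * ‖r b‖ := norm_inner_le_norm _ _
    _ ≤ ‖a‖ * (‖r‖ * ‖b‖) := mul_le_mul_of_nonneg_left (r.le_opNorm b) (norm_nonneg _)
    _ = ‖r‖ * (‖a‖ * ‖b‖) := by ring
    _ ≤ c * (‖a‖ * ‖b‖) := mul_le_mul_of_nonneg_right hr (by positivity)

theorem rna_move (A : H →L[ℂ] H) (hA : star A = A) (a b : H) :
    inner ℂ (A a) b = inner ℂ a (A b) := by
  have h := ContinuousLinearMap.adjoint_inner_left A b a
  rw [← ContinuousLinearMap.star_eq_adjoint, hA] at h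
  exact h

theorem rna_mem (z : H →L[ℂ] H) (hz : z ∈ M) (g : ℝ → ℝ) : cfc g z ∈ M := by
  rw [← VonNeumannAlgebra.commutant_commutant M, VonNeumannAlgebra.mem_commutant_iff]
  intro b hb
  rw [VonNeumannAlgebra.mem_commutant_iff] at hb
  have h1 : Commute z b := hb z hz
  exact (h1.cfc_real g).symm

theorem abs_bound (z : H →L[ℂ] H) (hz : z ∈ M) (hzs : star z = z) (y : H →L[ℂ] H)
    (hy : y ∈ M.commutant) (e : ℝ) (he : 0 < e) :
    ∃ u ∈ M, star u = u ∧ ‖u‖ ≤ 1 ∧ (inner ℂ (u ζ) (z ζ)).im = 0 ∧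
      ‖inner ℂ (y ζ) (z ζ)‖ ≤ ‖y‖ * (inner ℂ (u ζ) (z ζ)).re + e := by
  obtain ⟨ε, hε, hεe⟩ : ∃ ε : ℝ, 0 < ε ∧ 2 * (‖y‖ * ‖ζ‖ ^ 2) * ε ≤ e := by
    refine ⟨e / (2 * (‖y‖ * ‖ζ‖ ^ 2) + 1), by positivity, ?_⟩
    rw [← mul_div_assoc, div_le_iff₀ (by positivity)]
    nlinarith [mul_nonneg (norm_nonneg y) (sq_nonneg ‖ζ‖)]
  have hza : IsSelfAdjoint z := hzs
  set f : ℝ → ℝ := fun s => s / (|s| + ε) with hfdef
  set g : ℝ → ℝ := fun s => f s * s with hgdef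
  set h : ℝ → ℝ := fun s => Real.sqrt |s| with hhdef
  have hpos : ∀ s : ℝ, 0 < |s| + ε := fun s => by positivity
  have hfc : Continuous f := by
    refine continuous_id.div (continuous_abs.add continuous_const) fun s => (hpos s).ne'
  have hgc : Continuous g := hfc.mul continuous_id
  have hhc : Continuous h := Real.continuous_sqrt.comp continuous_abs
  set u := cfc f z with hu
  set v := cfc h z with hv
  have hus : star u = u := (cfc_predicate f z : IsSelfAdjoint _)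
  have hvs : star v = v := (cfc_predicate h z : IsSelfAdjoint _)
  have hcz : cfc (fun s : ℝ => s) z = z := cfc_id' ℝ z
  have huz : u * z = cfc g z := by
    have h1 := cfc_mul f (fun s : ℝ => s) z hfc.continuousOn continuousOn_id
    rw [hcz] at h1
    exact h1.symm
  have hgs : star (cfc g z) = cfc g z := (cfc_predicate g z : IsSelfAdjoint _)
  have hvv : v * v = cfc (fun s : ℝ => |s|) z := by
    rw [hv, ← cfc_mul h h z hhc.continuousOn hhc.continuousOn]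
    congr 1
    funext s
    exact Real.mul_self_sqrt (abs_nonneg s)
  -- the operators of small norm
  set r1 := cfc (fun s : ℝ => |s| - g s) z with hr1
  set r2 := cfc (fun s : ℝ => s - h s * (f s * h s)) z with hr2
  have hr1n : ‖r1‖ ≤ ε := by
    refine norm_cfc_le hε.le fun s _ => ?_
    have e1 : |s| - g s = |s| * ε / (|s| + ε) := by
      rw [hgdef, hfdef]
      have h2 : s * s = |s| * |s| := (abs_mul_abs_self s).symm
      have h3 := (hpos s).ne'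
      field_simp
      nlinarith
    rw [e1, Real.norm_of_nonneg (by positivity), div_le_iff₀ (hpos s)]
    nlinarith [abs_nonneg s]
  have hr2n : ‖r2‖ ≤ ε := by
    refine norm_cfc_le hε.le fun s _ => ?_
    have e1 : s - h s * (f s * h s) = s * ε / (|s| + ε) := by
      have h2 : h s * h s = |s| := Real.mul_self_sqrt (abs_nonneg s)
      have h3 := (hpos s).ne'
      calc s - h s * (f s * h s) = s - f s * (h s * h s) := by ring
        _ = s - s / (|s| + ε) * |s| := by rw [h2]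
        _ = s * ε / (|s| + ε) := by
          field_simp
          ring
    rw [e1, norm_div, norm_mul, Real.norm_eq_abs, Real.norm_eq_abs, Real.norm_eq_abs,
      abs_of_pos hε, abs_of_pos (hpos s), div_le_iff₀ (hpos s)]
    nlinarith [abs_nonneg s]
  have hr1e : v * v = u * z + r1 := by
    rw [hvv, huz, hr1, ← cfc_add z (fun s => g s) (fun s => |s| - g s) hgc.continuousOn
      (continuous_abs.sub hgc).continuousOn]
    congr 1
    funext s
    ring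
  have hr2e : z = v * (u * v) + r2 := by
    have h1 : v * (u * v) = cfc (fun s : ℝ => h s * (f s * h s)) z := by
      rw [cfc_mul h (fun s => f s * h s) z hhc.continuousOn (hfc.mul hhc).continuousOn,
        cfc_mul f h z hfc.continuousOn hhc.continuousOn]
    rw [h1, hr2, ← cfc_add z (fun s => h s * (f s * h s)) (fun s => s - h s * (f s * h s))
      (hhc.mul (hfc.mul hhc)).continuousOn
      (continuous_id.sub (hhc.mul (hfc.mul hhc))).continuousOn]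
    conv_lhs => rw [← hcz]
    congr 1
    funext s
    ring
  have hvM : v ∈ M := rna_mem z hz h
  have hyv : v * y = y * v := (VonNeumannAlgebra.mem_commutant_iff.1 hy) v hvM
  have hun : ‖u‖ ≤ 1 := by
    refine norm_cfc_le zero_le_one fun s _ => ?_
    rw [hfdef]
    change ‖s / (|s| + ε)‖ ≤ 1
    rw [norm_div, Real.norm_eq_abs, Real.norm_eq_abs, abs_of_pos (hpos s), div_le_one (hpos s)]
    linarith
  have hinner : inner ℂ (u ζ) (z ζ) = inner ℂ ζ ((cfc g z) ζ) := by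
    rw [rna_move u hus, ← huz]
    rfl
  have hreal : (inner ℂ (u ζ) (z ζ)).im = 0 := by
    rw [hinner]
    have h1 : (starRingEnd ℂ) (inner ℂ ζ ((cfc g z) ζ)) = inner ℂ ζ ((cfc g z) ζ) := by
      rw [inner_conj_symm, rna_move _ hgs]
    exact Complex.conj_eq_iff_im.1 h1
  refine ⟨u, rna_mem z hz f, hus, hun, hreal, ?_⟩
  -- the norm of v ζ
  have hvn : ‖v ζ‖ ^ 2 ≤ (inner ℂ (u ζ) (z ζ)).re + ε * ‖ζ‖ ^ 2 := by
    have h1 : (inner ℂ (v ζ) (v ζ) : ℂ) = inner ℂ ζ ((cfc g z) ζ) + inner ℂ ζ (r1 ζ) := by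
      rw [rna_move v hvs, ← inner_add_right, ← huz]
      have h2 : (v * v) ζ = (u * z + r1) ζ := by rw [hr1e]
      exact congrArg (fun t => inner ℂ ζ t) h2
    have h3 : (inner ℂ (v ζ) (v ζ) : ℂ).re = ‖v ζ‖ ^ 2 := by
      rw [inner_self_eq_norm_sq_to_K]
      norm_cast
    rw [← h3, h1, Complex.add_re, hinner]
    have h4 : (inner ℂ ζ (r1 ζ) : ℂ).re ≤ ε * ‖ζ‖ ^ 2 := by
      calc (inner ℂ ζ (r1 ζ) : ℂ).re ≤ ‖(inner ℂ ζ (r1 ζ) : ℂ)‖ := Complex.re_le_norm _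
        _ ≤ ε * (‖ζ‖ * ‖ζ‖) := rna_inner_self_le r1 ζ ζ ε hr1n
        _ = ε * ‖ζ‖ ^ 2 := by ring
    linarith
  have hmain : ‖(inner ℂ (y ζ) (z ζ) : ℂ)‖ ≤ ‖y‖ * ‖v ζ‖ ^ 2 + ‖y‖ * ‖ζ‖ ^ 2 * ε := by
    have h1 : (inner ℂ (y ζ) (z ζ) : ℂ) =
        inner ℂ (y (v ζ)) (u (v ζ)) + inner ℂ (y ζ) (r2 ζ) := by
      have h2 : z ζ = v (u (v ζ)) + r2 ζ := by
        conv_lhs => rw [hr2e]
        rfl
      rw [h2, inner_add_right, ← rna_move v hvs]
      congr 2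
      exact DFunLike.congr_fun hyv ζ
    rw [h1]
    refine (norm_add_le _ _).trans (add_le_add ?_ ?_)
    · calc ‖(inner ℂ (y (v ζ)) (u (v ζ)) : ℂ)‖ ≤ ‖y (v ζ)‖ * ‖u (v ζ)‖ := norm_inner_le_norm _ _
        _ ≤ (‖y‖ * ‖v ζ‖) * (1 * ‖v ζ‖) := by
            refine mul_le_mul (y.le_opNorm _) ?_ (norm_nonneg _) (by positivity)
            exact (u.le_opNorm _).trans (mul_le_mul_of_nonneg_right hun (norm_nonneg _))
        _ = ‖y‖ * ‖v ζ‖ ^ 2 := by ring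
    · calc ‖(inner ℂ (y ζ) (r2 ζ) : ℂ)‖ ≤ ε * (‖y ζ‖ * ‖ζ‖) := rna_inner_self_le r2 _ _ ε hr2n
        _ ≤ ε * ((‖y‖ * ‖ζ‖) * ‖ζ‖) := by
            refine mul_le_mul_of_nonneg_left ?_ hε.le
            exact mul_le_mul_of_nonneg_right (y.le_opNorm _) (norm_nonneg _)
        _ = ‖y‖ * ‖ζ‖ ^ 2 * ε := by ring
  have h5 : ‖y‖ * ‖v ζ‖ ^ 2 ≤ ‖y‖ * ((inner ℂ (u ζ) (z ζ)).re + ε * ‖ζ‖ ^ 2) :=
    mul_le_mul_of_nonneg_left hvn (norm_nonneg _)
  nlinarith

theorem ball_closed (hden : Dense {ξ : H | ∃ y ∈ M.commutant, ξ = y ζ}) (c : ℝ) :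
    IsClosed {ξ : H | ∃ x ∈ M, star x = x ∧ ‖x‖ ≤ c ∧ ξ = x ζ} := by
  rw [← isSeqClosed_iff_isClosed]
  intro ξ p hξ hp
  choose X hXM hXs hXn hXe using hξ
  have hc0 : 0 ≤ c := (norm_nonneg _).trans (hXn 0)
  have hC : ∀ n η, ‖X n η‖ ≤ c * ‖η‖ := fun n η =>
    ((X n).le_opNorm η).trans (mul_le_mul_of_nonneg_right (hXn n) (norm_nonneg _))
  have hD : ∀ F : H, (∀ η ∈ {ξ : H | ∃ y ∈ M.commutant, ξ = y ζ}, inner ℂ η F = 0) → F = 0 := by
    intro F hF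
    have h1 : (fun η : H => (inner ℂ η F : ℂ)) = fun _ => 0 := by
      refine Continuous.ext_on hden (continuous_id.inner continuous_const) continuous_const ?_
      intro η hη
      exact hF η hη
    have h2 := congrFun h1 F
    exact inner_self_eq_zero.1 h2
  have hXζ : Tendsto (fun n => X n ζ) atTop (𝓝 p) := by
    have : (fun n => X n ζ) = ξ := by
      funext n
      exact (hXe n).symm
    rw [this]
    exact hp
  obtain ⟨T, hT⟩ := strong_limit X c hC {ξ : H | ∃ y ∈ M.commutant, ξ = y ζ} hD (by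
    rintro η ⟨y, hy, rfl⟩
    refine ⟨y p, ?_⟩
    have h1 : (fun n => X n (y ζ)) = fun n => y (X n ζ) := by
      funext n
      have h2 := (VonNeumannAlgebra.mem_commutant_iff.1 hy) (X n) (hXM n)
      exact DFunLike.congr_fun h2 ζ
    rw [h1]
    exact (y.continuous.tendsto _).comp hXζ)
  refine ⟨T, ?_, strong_star X T hXs hT, ?_, ?_⟩
  · have h1 := strong_mem (M : Set (H →L[ℂ] H)) (VonNeumannAlgebra.centralizer_centralizer M)
      X T hXM hT
    exact h1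
  · refine T.opNorm_le_bound hc0 fun η => ?_
    exact le_of_tendsto (hT η).norm (Eventually.of_forall fun n => hC n η)
  · exact tendsto_nhds_unique hXζ (hT ζ)

end H52TT
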