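import Pool.Agent.H52.TT.RnC

/-!
Row RnD.  Consequences of the Radon - Nikodym theorem.

* `rn_form`: `⟪y (z ζ), w ζ⟫ = ⟪z (y ζ), w ζ⟫ = ⟪y ζ, (star z * w) ζ⟫`; apply `radon_nikodym` to `star z * w`: `= λ ⟪x ζ, star z w ζ⟫ + λ̄ ⟪star w z ζ, x ζ⟫ = λ ⟪z x ζ, w ζ⟫ + λ̄ ⟪z ζ, w x ζ⟫`.
* `R_range`: for every `a ∈ M'` there is `z ∈ M` with `z ζ = R (a ζ)`, `star z ζ = D (a ζ)`.  For `a = a*`: `radon_nikodym` with `θ = 0` (`lam 0 = 1`): `re ⟪a ζ - 2 x ζ, z ζ⟫ = 0` for `z = z* ∈ M`; so with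
  `P = (R + D)/2` (real projection onto `K = closure M_sa ζ`, see the header of RnC): `P (a ζ) = 2 P (x ζ) = 2 x ζ`; `P (a ζ) = (R a ζ + D a ζ)/2 = R a ζ` (`memM'`), so `z = 2 x` works (`D a ζ = R a ζ`).
  In detail: `v := a ζ - 2 x ζ` has `re ⟪v, k⟫ = 0` for `k ∈ K`; `P v ∈ K` and `‖P v‖² = re ⟪v, P v⟫ = 0`.  General `a = a₁ + i a₂` : `z = z₁ + i z₂`, `star z = z₁ - i z₂`.
-/

open MeasureTheory Filter Topology H52BC

noncomputable section

namespace H52TT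

variable {H : Type*} [NormedAddCommGroup H] [InnerProductSpace ℂ H] [CompleteSpace H]
variable {M : VonNeumannAlgebra H} {ζ : H} {R : H →L[ℂ] H} {D : H →L⋆[ℂ] H}

private theorem RnD_star (T : H →L[ℂ] H) (a b : H) :
    inner ℂ (T a) b = (inner ℂ a (star T b) : ℂ) := by
  rw [ContinuousLinearMap.star_eq_adjoint, ContinuousLinearMap.adjoint_inner_right]

theorem rn_form (x y : H →L[ℂ] H) (hy : y ∈ M.commutant) (θ : ℝ)
    (hx : ∀ z ∈ M, inner ℂ (y ζ) (z ζ) =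
      lam θ * inner ℂ (x ζ) (z ζ) + (starRingEnd ℂ) (lam θ) * inner ℂ (star z ζ) (x ζ))
    (z w : H →L[ℂ] H) (hz : z ∈ M) (hw : w ∈ M) :
    inner ℂ (y (z ζ)) (w ζ) = lam θ * inner ℂ (z (x ζ)) (w ζ) +
      (starRingEnd ℂ) (lam θ) * inner ℂ (z ζ) (w (x ζ)) := by
  have hc : y (z ζ) = z (y ζ) := by
    have := (VonNeumannAlgebra.mem_commutant_iff.1 hy) z hz
    have h2 := congrArg (fun T : H →L[ℂ] H => T ζ) this
    simpa using h2.symm
  have hm : star z * w ∈ M := mul_mem (star_mem hz) hw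
  have h1 := hx (star z * w) hm
  rw [star_mul, star_star] at h1
  simp only [mul_apply_eq_comp] at h1
  rw [hc, RnD_star z (y ζ), h1, RnD_star z (x ζ)]
  congr 2
  have h3 := RnD_star (star w) (z ζ) (x ζ)
  rw [star_star] at h3
  exact h3

private theorem RnD_sa (h : RvD M ζ R D) (hsep : ∀ x ∈ M, x ζ = 0 → x = 0) (a : H →L[ℂ] H)
    (ha : a ∈ M.commutant) (hs : star a = a) :
    ∃ z ∈ M, star z = z ∧ z ζ = R (a ζ) ∧ z ζ = D (a ζ) := by
  obtain ⟨x, hx, hxs, hxx⟩ := rnc_exists h hsep a ha hs 1 (by norm_num)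
  rw [map_one, one_smul] at hxx
  have h1 := h.memM x hx
  rw [hxs] at h1
  rw [← h1] at hxx
  have h2 : (2 : ℂ) • x ζ = R (a ζ) := by
    rw [← hxx]
    abel
  refine ⟨(2 : ℂ) • x, M.smul_mem hx _, ?_, h2, ?_⟩
  · rw [star_smul, hxs]
    simp
  · have h3 := h.memM' a ha
    rw [hs] at h3
    rw [← h3]
    exact h2

theorem R_range (h : RvD M ζ R D) (hsep : ∀ x ∈ M, x ζ = 0 → x = 0) (a : H →L[ℂ] H)
    (ha : a ∈ M.commutant) : ∃ z ∈ M, z ζ = R (a ζ) ∧ star z ζ = D (a ζ) := by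
  set b : H →L[ℂ] H := (1 / 2 : ℂ) • (a + star a) with hb
  set c : H →L[ℂ] H := (-(Complex.I / 2) : ℂ) • (a - star a) with hc
  have hbM : b ∈ M.commutant := M.commutant.smul_mem (add_mem ha (star_mem ha)) _
  have hcM : c ∈ M.commutant := M.commutant.smul_mem (sub_mem ha (star_mem ha)) _
  have hbs : star b = b := by
    rw [hb, star_smul, star_add, star_star, add_comm (star a) a]
    simp
  have hcs : star c = c := by
    rw [hc, star_smul, star_sub, star_star, ← neg_sub a (star a), smul_neg, ← neg_smul]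
    congr 1
    simp
    ring
  have habc : a = b + Complex.I • c := by
    rw [hb, hc, smul_smul]
    have : Complex.I * -(Complex.I / 2) = 1 / 2 := by
      have := Complex.I_mul_I
      linear_combination (-1 / 2 : ℂ) * this
    rw [this]
    module
  clear_value b c
  obtain ⟨z, hz, hzs, hz1, hz2⟩ := RnD_sa h hsep b hbM hbs
  obtain ⟨w, hw, hws, hw1, hw2⟩ := RnD_sa h hsep c hcM hcs
  refine ⟨z + Complex.I • w, add_mem hz (M.smul_mem hw _), ?_, ?_⟩
  · rw [habc]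
    simp only [add_apply, smul_apply, map_add, map_smul]
    rw [hz1, hw1]
  · rw [habc, star_add, star_smul, hzs, hws]
    simp only [add_apply, smul_apply, map_add]
    rw [D.map_smulₛₗ, hz2, hw2]
    rfl

end H52TT
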