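import Mathlib

/-!
Row RpA.  Real orthogonal projection onto a closed real subspace `K` of a complex Hilbert space.

Nearest point (`exists_norm_eq_iInf_of_complete_convex` in the real Hilbert space `H`; the real inner product is `re ⟪·,·⟫`: `InnerProductSpace.rclikeToReal ℂ H` used as a local instance, or
`Submodule.starProjection` for the real submodule `K` with that local instance), or directly by the parallelogram law.
`P a` is the unique point of `K` with `re ⟪a - P a, k⟫ = 0` for all `k ∈ K`; additivity, real homogeneity, symmetry and `‖P a‖ ≤ ‖a‖` follow.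
-/

open Filter Topology

noncomputable section

namespace H52TT

variable {H : Type*} [NormedAddCommGroup H] [InnerProductSpace ℂ H] [CompleteSpace H]

theorem exists_real_proj (K : Set H) (h0 : (0 : H) ∈ K) (hadd : ∀ a ∈ K, ∀ b ∈ K, a + b ∈ K)
    (hsm : ∀ (c : ℝ), ∀ a ∈ K, (c : ℂ) • a ∈ K) (hcl : IsClosed K) :
    ∃ P : H → H, (∀ a b, P (a + b) = P a + P b) ∧ (∀ (c : ℝ) a, P ((c : ℂ) • a) = (c : ℂ) • P a) ∧
      (∀ a, P a ∈ K) ∧ (∀ a ∈ K, P a = a) ∧
      (∀ a b, (inner ℂ (P a) b).re = (inner ℂ a (P b)).re) ∧ (∀ a, ‖P a‖ ≤ ‖a‖) := by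
  let _ : InnerProductSpace ℝ H := InnerProductSpace.rclikeToReal ℂ H
  have hcs : ∀ (c : ℝ) (a : H), c • a = (c : ℂ) • a := fun c a => rfl
  let S : Submodule ℝ H :=
    { carrier := K
      zero_mem' := h0
      add_mem' := fun {a b} ha hb => hadd a ha b hb
      smul_mem' := fun c a ha => by
        rw [hcs]
        exact hsm c a ha }
  have hSK : ∀ a, a ∈ S ↔ a ∈ K := fun a => Iff.rfl
  have : CompleteSpace S := by
    have hc : IsClosed (S : Set H) := hcl
    exact hc.completeSpace_coe
  refine ⟨fun a => S.starProjection a, fun a b => map_add _ a b, fun c a => ?_, fun a => ?_,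
    fun a ha => ?_, fun a b => ?_, fun a => ?_⟩
  · have := map_smul S.starProjection c a
    rw [hcs, hcs] at this
    exact this
  · exact (hSK _).1 (S.starProjection_apply_mem a)
  · exact Submodule.starProjection_eq_self_iff.2 ((hSK a).2 ha)
  · exact Submodule.inner_starProjection_left_eq_right S a b
  · have := S.starProjection.le_of_opNorm_le (S.starProjection_norm_le) a
    rw [one_mul] at this
    exact this

end H52TT
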