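import Pool.Agent.H52.TT.Defs
import Pool.Agent.H52.TT.RpA
import Pool.Agent.H52.TT.DnP
import Pool.Agent.H52.BC.EdM

/-!
Row RvA.  Existence of the Rieffel - van Daele data.

`K` = closure of `{x ζ : x = x* ∈ M}` (closed real subspace), `P` from `exists_real_proj`, `Q ξ = i P (-i ξ)` (the real projection onto `i K`), `R ξ = P ξ + Q ξ`, `D ξ = P ξ - Q ξ`.
* `R` is complex linear: `R (i ξ) = P(iξ) + i P ξ = i (P ξ + i P(-i ξ)) = i R ξ`; `D` is conjugate linear: `D (i ξ) = P (i ξ) - i P ξ = -i (P ξ - i P (-iξ))`.  Bounded by `2`.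
* `re ⟪Q ξ, η⟫ = re ⟪ξ, Q η⟫`; so `re ⟪R ξ, η⟫ = re ⟪ξ, R η⟫`, replace `η` by `i η` for the imaginary part: `star R = R`.  Same for `D_sym`: both sides of `⟪Dξ, η⟫ = ⟪Dη, ξ⟫` are linear in
  `η` (conjugate linear `D` in the conjugate linear slot) and the real parts agree.
* `DD`: `(P - Q)(P - Q) = P + Q - P Q - Q P = R (2 - R)`.  `DR`: `(P - Q)(P + Q) = P + P Q - Q P - Q`, `(2 - P - Q)(P - Q) = P - Q + P Q - Q P`: equal.
* `pos`, `le`: `re ⟪ξ, R ξ⟫ = ‖P ξ‖² + ‖Q ξ‖²`, each `≤ ‖ξ‖²`.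
* `inj`: `R ξ = 0` gives `P ξ = Q ξ = 0`, so `re ⟪ξ, k⟫ = 0` and `re ⟪ξ, i k⟫ = 0` for `k ∈ K`: `⟪ξ, x ζ⟫ = 0` for `x = x*`, hence for all `x ∈ M`; `M ζ` is dense.
* `inj'`: `R ξ = 2 ξ` gives `re⟪ξ, Rξ⟫ = 2‖ξ‖²`, so `‖P ξ‖ = ‖Q ξ‖ = ‖ξ‖` and `P ξ = ξ = Q ξ`, `ξ ∈ K ∩ i K`.  For `y = y* ∈ M'`, `x = x* ∈ M`: `⟪x ζ, y ζ⟫ = ⟪ζ, x y ζ⟫` is real
  (`x y` self-adjoint), so `⟪k, y ζ⟫` is real on `K` and purely imaginary on `i K`: `⟪ξ, y ζ⟫ = 0` for all `y ∈ M'`; `M' ζ` is dense (`dense_commutant`).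
* `memM`: for `x = x*`: `x ζ ∈ K`, `P x ζ = x ζ`: `(2 - P - Q) x ζ = (P - Q) x ζ`.  General `x = a + i b`: `D` conjugate linear, `star x = a - i b`.
* `memM'`: for `y = y* ∈ M'`: `⟪x ζ, y ζ⟫` real, so `re ⟪i x ζ, y ζ⟫ = 0`: `Q y ζ = 0` and `R y ζ = P y ζ = D y ζ`.  General `y`: linearity.
* `dens`: `(2 - R) ξ = D ξ` means `2 ξ = 2 P ξ`, `ξ ∈ K`.  `dens'`: `R ξ = D ξ` means `Q ξ = 0`: `re ⟪ξ, i x ζ⟫ = 0` for `x = x*`, i.e. `im ⟪ξ, x ζ⟫ = 0`; `dens_commutant`.
-/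

open MeasureTheory Filter Topology H52BC

noncomputable section

namespace H52TT

variable {H : Type*} [NormedAddCommGroup H] [InnerProductSpace ℂ H] [CompleteSpace H]
variable {M : VonNeumannAlgebra H} {ζ : H}

theorem rva_mkR (f : H → H) (hadd : ∀ a b, f (a + b) = f a + f b)
    (hsm : ∀ (c : ℝ) a, f ((c : ℂ) • a) = (c : ℂ) • f a)
    (hI : ∀ a, f (Complex.I • a) = Complex.I • f a) (hn : ∀ a, ‖f a‖ ≤ 2 * ‖a‖) :
    ∃ R : H →L[ℂ] H, ∀ a, R a = f a := by
  refine ⟨LinearMap.mkContinuous { toFun := f, map_add' := hadd, map_smul' := ?_ } 2 hn,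
    fun a => rfl⟩
  intro c a
  have e : c • a = ((c.re : ℝ) : ℂ) • a + ((c.im : ℝ) : ℂ) • (Complex.I • a) := by
    rw [smul_smul, ← add_smul, Complex.re_add_im]
  rw [e, hadd, hsm, hsm, hI, smul_smul, ← add_smul, Complex.re_add_im]
  rfl

theorem rva_mkD (f : H → H) (hadd : ∀ a b, f (a + b) = f a + f b)
    (hsm : ∀ (c : ℝ) a, f ((c : ℂ) • a) = (c : ℂ) • f a)
    (hI : ∀ a, f (Complex.I • a) = -(Complex.I • f a)) (hn : ∀ a, ‖f a‖ ≤ 2 * ‖a‖) :
    ∃ R : H →L⋆[ℂ] H, ∀ a, R a = f a := by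
  refine ⟨LinearMap.mkContinuous { toFun := f, map_add' := hadd, map_smul' := ?_ } 2 hn,
    fun a => rfl⟩
  intro c a
  have e : c • a = ((c.re : ℝ) : ℂ) • a + ((c.im : ℝ) : ℂ) • (Complex.I • a) := by
    rw [smul_smul, ← add_smul, Complex.re_add_im]
  have e2 : (starRingEnd ℂ) c = (c.re : ℂ) - (c.im : ℂ) * Complex.I := by
    apply Complex.ext <;> simp
  rw [e, hadd, hsm, hsm, hI, smul_neg, smul_smul, ← sub_eq_add_neg, ← sub_smul, ← e2]

theorem rva_dec (N : VonNeumannAlgebra H) (x : H →L[ℂ] H) (hx : x ∈ N) :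
    ∃ a ∈ N, ∃ b ∈ N, star a = a ∧ star b = b ∧ x = a + Complex.I • b ∧
      star x = a - Complex.I • b := by
  have hs : ∀ (c : ℂ) (y : H →L[ℂ] H), y ∈ N → c • y ∈ N := fun c y hy =>
    N.toStarSubalgebra.smul_mem hy c
  refine ⟨(1 / 2 : ℂ) • (x + star x), hs _ _ (add_mem hx (star_mem hx)),
    (-(Complex.I / 2)) • (x - star x), hs _ _ (sub_mem hx (star_mem hx)), ?_, ?_, ?_, ?_⟩
  · rw [star_smul, star_add, star_star, add_comm (star x) x]
    congr 1
    simp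
  · rw [star_smul, star_sub, star_star]
    have e : star (-(Complex.I / 2)) = Complex.I / 2 := by
      apply Complex.ext <;> simp <;> norm_num
    rw [e, neg_smul, ← smul_neg, neg_sub]
  · rw [smul_smul]
    have e : Complex.I * -(Complex.I / 2) = 1 / 2 := by
      have := Complex.I_mul_I
      linear_combination (-1 / 2) * this
    rw [e, ← smul_add]
    have : x + star x + (x - star x) = (2 : ℂ) • x := by
      rw [two_smul]; abel
    rw [this, smul_smul]
    norm_num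
  · rw [smul_smul]
    have e : Complex.I * -(Complex.I / 2) = 1 / 2 := by
      have := Complex.I_mul_I
      linear_combination (-1 / 2) * this
    rw [e, ← smul_sub]
    have : x + star x - (x - star x) = (2 : ℂ) • star x := by
      rw [two_smul]; abel
    rw [this, smul_smul]
    norm_num

theorem rva_dense {S : Set H} (hS : Dense S) (ξ : H) (h : ∀ η ∈ S, inner ℂ ξ η = 0) :
    ξ = 0 := by
  have h1 : IsClosed {η : H | inner ℂ ξ η = 0} :=
    isClosed_eq (continuous_const.inner continuous_id) continuous_const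
  have h2 : (Set.univ : Set H) ⊆ {η : H | inner ℂ ξ η = 0} := by
    rw [← hS.closure_eq]
    exact h1.closure_subset_iff.2 h
  exact inner_self_eq_zero.1 (h2 (Set.mem_univ ξ))

theorem rva_real (x y : H →L[ℂ] H) (hx : star x = x) (hy : star y = y) (hc : x * y = y * x)
    (ζ : H) : (inner ℂ (x ζ) (y ζ)).im = 0 := by
  have h1 : inner ℂ (x ζ) (y ζ) = inner ℂ ζ (x (y ζ)) := by
    conv_lhs => rw [← hx]
    rw [ContinuousLinearMap.star_eq_adjoint, ContinuousLinearMap.adjoint_inner_left]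
  have h2 : inner ℂ (y ζ) (x ζ) = inner ℂ ζ (y (x ζ)) := by
    conv_lhs => rw [← hy]
    rw [ContinuousLinearMap.star_eq_adjoint, ContinuousLinearMap.adjoint_inner_left]
  have h3 : x (y ζ) = y (x ζ) := by
    have := congrArg (fun T : H →L[ℂ] H => T ζ) hc
    exact this
  have h4 : inner ℂ (y ζ) (x ζ) = inner ℂ (x ζ) (y ζ) := by rw [h1, h2, h3]
  have h5 := inner_conj_symm (𝕜 := ℂ) (x ζ) (y ζ)
  rw [h4] at h5
  exact Complex.conj_eq_iff_im.1 h5

theorem exists_RvD (hcyc : Dense {ξ : H | ∃ x ∈ M, ξ = x ζ})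
    (hsep : ∀ x ∈ M, x ζ = 0 → x = 0) :
    ∃ (R : H →L[ℂ] H) (D : H →L⋆[ℂ] H), RvD M ζ R D := by
  set S : Set H := {η : H | ∃ x ∈ M, star x = x ∧ η = x ζ} with hS
  have hMs : ∀ (c : ℂ) (y : H →L[ℂ] H), y ∈ M → c • y ∈ M := fun c y hy =>
    M.toStarSubalgebra.smul_mem hy c
  obtain ⟨P, Padd, Psm, PK, Pid, Psym, Pn⟩ := exists_real_proj (closure S)
    (subset_closure ⟨0, zero_mem _, star_zero _, by simp⟩)
    (fun a ha b hb => map_mem_closure₂ continuous_add ha hb (by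
      rintro _ ⟨x, hx, hx1, rfl⟩ _ ⟨y, hy, hy1, rfl⟩
      exact ⟨x + y, add_mem hx hy, by rw [star_add, hx1, hy1], by simp⟩))
    (fun c a ha => map_mem_closure (continuous_const_smul (c : ℂ)) ha (by
      rintro _ ⟨x, hx, hx1, rfl⟩
      refine ⟨(c : ℂ) • x, hMs _ _ hx, ?_, by simp⟩
      rw [star_smul, hx1]
      congr 1
      simp)) isClosed_closure
  have Pneg : ∀ a, P (-a) = -P a := by
    intro a
    have := Psm (-1) a
    simpa using this
  have Psub : ∀ a b, P (a - b) = P a - P b := by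
    intro a b
    rw [sub_eq_add_neg, Padd, Pneg, ← sub_eq_add_neg]
  have P0 : P 0 = 0 := by
    have := Psub 0 0
    simpa using this
  have PP : ∀ a, P (P a) = P a := fun a => Pid _ (PK a)
  set Q : H → H := fun ξ => Complex.I • P (-(Complex.I • ξ)) with hQ
  have hII : ∀ a : H, Complex.I • (Complex.I • a) = -a := by
    intro a
    rw [smul_smul, Complex.I_mul_I, neg_one_smul]
  have Qadd : ∀ a b, Q (a + b) = Q a + Q b := by
    intro a b
    simp only [hQ]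
    rw [smul_add, neg_add, Padd, smul_add]
  have Qneg : ∀ a, Q (-a) = -Q a := by
    intro a
    simp only [hQ]
    rw [smul_neg, Pneg (-(Complex.I • a)), smul_neg]
  have Qsub : ∀ a b, Q (a - b) = Q a - Q b := by
    intro a b
    rw [sub_eq_add_neg, Qadd, Qneg, ← sub_eq_add_neg]
  have Qsm : ∀ (c : ℝ) a, Q ((c : ℂ) • a) = (c : ℂ) • Q a := by
    intro c a
    simp only [hQ]
    rw [smul_comm Complex.I (c : ℂ) a, ← smul_neg, Psm, smul_comm]
  have Qn : ∀ a, ‖Q a‖ ≤ ‖a‖ := by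
    intro a
    simp only [hQ]
    rw [norm_smul, Complex.norm_I, one_mul]
    refine (Pn _).trans ?_
    rw [norm_neg, norm_smul, Complex.norm_I, one_mul]
  have QQ : ∀ a, Q (Q a) = Q a := by
    intro a
    simp only [hQ]
    rw [hII, neg_neg, PP]
  have Qsym : ∀ a b, (inner ℂ (Q a) b).re = (inner ℂ a (Q b)).re := by
    intro a b
    simp only [hQ]
    have e1 : inner ℂ (Complex.I • P (-(Complex.I • a))) b =
        inner ℂ (P (-(Complex.I • a))) (-(Complex.I • b)) := by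
      rw [inner_smul_left, inner_neg_right, inner_smul_right, Complex.conj_I]
      ring
    have e2 : inner ℂ a (Complex.I • P (-(Complex.I • b))) =
        inner ℂ (-(Complex.I • a)) (P (-(Complex.I • b))) := by
      rw [inner_neg_left, inner_smul_left, inner_smul_right, Complex.conj_I]
      ring
    rw [e1, e2, Psym]
  have QI : ∀ a, Q (Complex.I • a) = Complex.I • P a := by
    intro a
    simp only [hQ]
    rw [hII, neg_neg]
  have PI : ∀ a, P (Complex.I • a) = Complex.I • Q a := by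
    intro a
    simp only [hQ]
    rw [hII, Pneg, neg_neg]
  have hRex : ∃ R : H →L[ℂ] H, ∀ a, R a = P a + Q a := by
    apply rva_mkR
    · intro a b
      rw [Padd, Qadd]; abel
    · intro c a
      rw [Psm, Qsm, smul_add]
    · intro a
      rw [QI, PI, smul_add, add_comm]
    · intro a
      refine (norm_add_le _ _).trans ?_
      have h1 := Pn a
      have h2 := Qn a
      linarith
  have hDex : ∃ D : H →L⋆[ℂ] H, ∀ a, D a = P a - Q a := by
    apply rva_mkD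
    · intro a b
      rw [Padd, Qadd]; abel
    · intro c a
      rw [Psm, Qsm, smul_sub]
    · intro a
      rw [QI, PI, smul_sub, neg_sub]
    · intro a
      refine (norm_sub_le _ _).trans ?_
      have h1 := Pn a
      have h2 := Qn a
      linarith
  obtain ⟨R, hR⟩ := hRex
  obtain ⟨D, hD⟩ := hDex
  have imI : ∀ a b : H, (inner ℂ a b).im = -(inner ℂ a (Complex.I • b)).re := by
    intro a b
    rw [inner_smul_right]
    simp
  have resym : ∀ a b : H, (inner ℂ a b).re = (inner ℂ b a).re := by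
    intro a b
    rw [← inner_conj_symm (𝕜 := ℂ) a b, Complex.conj_re]
  have nP : ∀ a, (inner ℂ a (P a)).re = ‖P a‖ ^ 2 := by
    intro a
    rw [← PP a, ← Psym, PP, ← inner_self_eq_norm_sq (𝕜 := ℂ) (P a)]
    rfl
  have nQ : ∀ a, (inner ℂ a (Q a)).re = ‖Q a‖ ^ 2 := by
    intro a
    rw [← QQ a, ← Qsym, QQ, ← inner_self_eq_norm_sq (𝕜 := ℂ) (Q a)]
    rfl
  have nR : ∀ a, (inner ℂ a (R a)).re = ‖P a‖ ^ 2 + ‖Q a‖ ^ 2 := by
    intro a
    rw [hR, inner_add_right, Complex.add_re, nP, nQ]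
  have Rre : ∀ a b, (inner ℂ (R a) b).re = (inner ℂ a (R b)).re := by
    intro a b
    rw [hR, hR, inner_add_left, inner_add_right, Complex.add_re, Complex.add_re, Psym, Qsym]
  have Dre : ∀ a b, (inner ℂ (D a) b).re = (inner ℂ a (D b)).re := by
    intro a b
    rw [hD, hD, inner_sub_left, inner_sub_right, Complex.sub_re, Complex.sub_re, Psym, Qsym]
  have DI : ∀ a, D (Complex.I • a) = -(Complex.I • D a) := by
    intro a
    rw [hD, hD, QI, PI, smul_sub, neg_sub]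
  -- elements of K
  have Kre : ∀ ξ, P ξ = 0 → ∀ k ∈ closure S, (inner ℂ ξ k).re = 0 := by
    intro ξ h k hk
    rw [← Pid k hk, ← Psym, h, inner_zero_left, Complex.zero_re]
  have Kim : ∀ ξ, Q ξ = 0 → ∀ k ∈ closure S, (inner ℂ ξ k).im = 0 := by
    intro ξ h k hk
    have e : Q (Complex.I • k) = Complex.I • k := by rw [QI, Pid k hk]
    rw [imI, ← e, ← Qsym, h, inner_zero_left, Complex.zero_re, neg_zero]
  have Kcom : ∀ y ∈ M.commutant, star y = y → ∀ k ∈ closure S, (inner ℂ k (y ζ)).im = 0 := by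
    intro y hy hy1 k hk
    have h1 : IsClosed {k : H | (inner ℂ k (y ζ)).im = 0} :=
      isClosed_eq (Complex.continuous_im.comp (continuous_id.inner continuous_const))
        continuous_const
    refine (h1.closure_subset_iff.2 ?_) hk
    rintro _ ⟨x, hx, hx1, rfl⟩
    exact rva_real x y hx1 hy1 ((VonNeumannAlgebra.mem_commutant_iff.1 hy) x hx) ζ
  have SK : ∀ x ∈ M, star x = x → x ζ ∈ closure S := fun x hx hx1 =>
    subset_closure ⟨x, hx, hx1, rfl⟩
  refine ⟨R, D, ⟨⟨?_, ?_, ?_, ?_, ?_⟩, ?_, ?_, ?_, ?_, ?_, ?_, ?_⟩⟩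
  · have h : IsSelfAdjoint R := by
      rw [ContinuousLinearMap.isSelfAdjoint_iff_isSymmetric]
      intro a b
      show inner ℂ (R a) b = inner ℂ a (R b)
      apply Complex.ext
      · exact Rre a b
      · rw [imI, imI, Rre, map_smul]
    exact h
  · intro ξ
    rw [nR]
    positivity
  · intro ξ
    rw [nR]
    have h1 := Pn ξ
    have h2 := Qn ξ
    have h3 : ‖P ξ‖ ^ 2 ≤ ‖ξ‖ ^ 2 := pow_le_pow_left₀ (norm_nonneg _) h1 2
    have h4 : ‖Q ξ‖ ^ 2 ≤ ‖ξ‖ ^ 2 := pow_le_pow_left₀ (norm_nonneg _) h2 2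
    linarith
  · intro ξ hξ
    have h1 := nR ξ
    rw [hξ, inner_zero_right, Complex.zero_re] at h1
    have h2 : ‖P ξ‖ ^ 2 = 0 := by nlinarith [sq_nonneg ‖P ξ‖, sq_nonneg ‖Q ξ‖]
    have h3 : ‖Q ξ‖ ^ 2 = 0 := by nlinarith [sq_nonneg ‖P ξ‖, sq_nonneg ‖Q ξ‖]
    have h4 : P ξ = 0 := norm_eq_zero.1 (pow_eq_zero_iff (two_ne_zero)|>.1 h2)
    have h5 : Q ξ = 0 := norm_eq_zero.1 (pow_eq_zero_iff (two_ne_zero)|>.1 h3)
    have h6 : ∀ k ∈ closure S, inner ℂ ξ k = 0 := fun k hk =>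
      Complex.ext (Kre ξ h4 k hk) (Kim ξ h5 k hk)
    refine rva_dense hcyc ξ ?_
    rintro _ ⟨x, hx, rfl⟩
    obtain ⟨a, ha, b, hb, ha1, hb1, e, -⟩ := rva_dec M x hx
    rw [e]
    show inner ℂ ξ (a ζ + Complex.I • b ζ) = 0
    rw [inner_add_right, inner_smul_right, h6 _ (SK a ha ha1), h6 _ (SK b hb hb1)]
    simp
  · intro ξ hξ
    have h1 := nR ξ
    have h2 : (inner ℂ ξ (R ξ)).re = 2 * ‖ξ‖ ^ 2 := by
      rw [hξ, inner_smul_right, ← inner_self_eq_norm_sq (𝕜 := ℂ) ξ]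
      simp
    rw [h2] at h1
    have h3 : ‖P ξ‖ ^ 2 ≤ ‖ξ‖ ^ 2 := pow_le_pow_left₀ (norm_nonneg _) (Pn ξ) 2
    have h4 : ‖Q ξ‖ ^ 2 ≤ ‖ξ‖ ^ 2 := pow_le_pow_left₀ (norm_nonneg _) (Qn ξ) 2
    have h5 : ‖P ξ‖ ^ 2 = ‖ξ‖ ^ 2 := by linarith
    have h6 : ‖Q ξ‖ ^ 2 = ‖ξ‖ ^ 2 := by linarith
    have key : ∀ v : H, (inner ℂ ξ v).re = ‖v‖ ^ 2 → ‖v‖ ^ 2 = ‖ξ‖ ^ 2 → v = ξ := by
      intro v hv1 hv2
      have h7 := norm_sub_sq (𝕜 := ℂ) ξ v
      have h8 : RCLike.re (inner ℂ ξ v) = ‖v‖ ^ 2 := hv1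
      rw [h8] at h7
      have h9 : ‖ξ - v‖ ^ 2 = 0 := by linarith
      have h10 : ξ - v = 0 := norm_eq_zero.1 (pow_eq_zero_iff (two_ne_zero)|>.1 h9)
      exact (sub_eq_zero.1 h10).symm
    have hPξ : P ξ = ξ := key _ (nP ξ) h5
    have hQξ : Q ξ = ξ := key _ (nQ ξ) h6
    have k1 : ξ ∈ closure S := hPξ ▸ PK ξ
    have k2 : -(Complex.I • ξ) ∈ closure S := by
      have e : P (-(Complex.I • ξ)) = -(Complex.I • ξ) := by
        rw [Pneg, PI, hQξ]
      exact e ▸ PK _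
    refine rva_dense (dense_commutant hsep) ξ ?_
    have h7 : ∀ y ∈ M.commutant, star y = y → inner ℂ ξ (y ζ) = 0 := by
      intro y hy hy1
      have h8 := Kcom y hy hy1 _ k1
      have h9 := Kcom y hy hy1 _ k2
      rw [inner_neg_left, inner_smul_left, Complex.conj_I] at h9
      apply Complex.ext
      · simpa using h9
      · exact h8
    rintro _ ⟨y, hy, rfl⟩
    obtain ⟨a, ha, b, hb, ha1, hb1, e, -⟩ := rva_dec M.commutant y hy
    rw [e]
    show inner ℂ ξ (a ζ + Complex.I • b ζ) = 0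
    rw [inner_add_right, inner_smul_right, h7 a ha ha1, h7 b hb hb1]
    simp
  · intro ξ η
    apply Complex.ext
    · rw [Dre, resym]
    · rw [imI, Dre, DI, inner_neg_right, Complex.neg_re, neg_neg]
      have h := imI ξ (D η)
      have h2 : (inner ℂ (D η) ξ).im = -(inner ℂ ξ (D η)).im := by
        rw [← inner_conj_symm (𝕜 := ℂ) (D η) ξ, Complex.conj_im]
      rw [h2, h, neg_neg]
  · intro ξ
    simp only [hD, hR, two_smul, Psub, Qsub, Padd, Qadd, PP, QQ]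
    abel
  · intro ξ
    simp only [hD, hR, two_smul, Psub, Qsub, Padd, Qadd, PP, QQ]
    abel
  · have h1 : ∀ a ∈ M, star a = a → (2 : ℂ) • a ζ - R (a ζ) = D (a ζ) := by
      intro a ha ha1
      rw [hR, hD, Pid _ (SK a ha ha1), two_smul]
      abel
    intro x hx
    obtain ⟨a, ha, b, hb, ha1, hb1, e, e'⟩ := rva_dec M x hx
    rw [e', e]
    show (2 : ℂ) • (a ζ + Complex.I • b ζ) - R (a ζ + Complex.I • b ζ) =
      D (a ζ - Complex.I • b ζ)
    rw [map_add, map_sub, map_smul, DI, ← h1 a ha ha1, ← h1 b hb hb1, smul_add, smul_sub,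
      smul_comm (2 : ℂ) Complex.I]
    abel
  · have h1 : ∀ a ∈ M.commutant, star a = a → R (a ζ) = D (a ζ) := by
      intro a ha ha1
      have h2 : P (-(Complex.I • a ζ)) = 0 := by
        have h3 := nP (-(Complex.I • a ζ))
        have h4 := Kcom a ha ha1 _ (PK (-(Complex.I • a ζ)))
        have h5 : (inner ℂ (-(Complex.I • a ζ)) (P (-(Complex.I • a ζ)))).re =
            (inner ℂ (P (-(Complex.I • a ζ))) (a ζ)).im := by
          rw [resym, inner_neg_right, Complex.neg_re, ← imI]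
        rw [h5, h4] at h3
        exact norm_eq_zero.1 (pow_eq_zero_iff (two_ne_zero)|>.1 h3.symm)
      have h3 : Q (a ζ) = 0 := by
        simp only [hQ]
        rw [h2, smul_zero]
      rw [hR, hD, h3, add_zero, sub_zero]
    intro x hx
    obtain ⟨a, ha, b, hb, ha1, hb1, e, e'⟩ := rva_dec M.commutant x hx
    rw [e', e]
    show R (a ζ + Complex.I • b ζ) = D (a ζ - Complex.I • b ζ)
    rw [map_add, map_sub, map_smul, DI, ← h1 a ha ha1, ← h1 b hb hb1]
    abel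
  · intro ξ h
    rw [hR, hD, two_smul] at h
    have h2 : ξ + ξ = P ξ + P ξ := by
      have := congrArg (fun v => v + (P ξ + Q ξ)) h
      rw [sub_add_cancel] at this
      rw [this]
      abel
    have h3 : ξ = P ξ := by
      rw [← two_smul ℂ ξ, ← two_smul ℂ (P ξ)] at h2
      exact smul_right_injective H (two_ne_zero) h2
    rw [h3]
    exact PK ξ
  · intro ξ h
    rw [hR, hD] at h
    have h2 : Q ξ = 0 := by
      have h3 : Q ξ + Q ξ = 0 := by
        have := congrArg (fun v => v - P ξ + Q ξ) h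
        have e1 : P ξ + Q ξ - P ξ + Q ξ = Q ξ + Q ξ := by abel
        have e2 : P ξ - Q ξ - P ξ + Q ξ = 0 := by abel
        rwa [e1, e2] at this
      rw [← two_smul ℂ (Q ξ)] at h3
      exact (smul_eq_zero.1 h3).resolve_left two_ne_zero
    exact dens_commutant hcyc ξ fun x hx hx1 => Kim ξ h2 _ (SK x hx hx1)

end H52TT
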